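import Mathlib
import Pool.Agent.TYP.Defs

/-!
TYP module NA: the upper bound for the completions against the lower bound for the squares.

`log_factorial_le`: `log d! ≤ (d+1) log d - d + 1` for `d ≥ 1`, by induction: the step is
`log (d+1) + (d+1) log d - d + 1 ≤ (d+2) log (d+1) - (d+1) + 1`, i.e.
`1 ≤ (d+1) log ((d+1)/d)`, true since `log (1 + 1/d) ≥ 1/(d+1)`.
`le_log_factorial`: `n log n - n ≤ log n!` (`n^n / n! ≤ exp n`).

`completions_ratio`, `2k ≤ n`, `1 ≤ k`. Take logarithms. `upb n k (n-k)` is the product over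
`d = 1..n-k` of `(d!)^(n/d)` (`d = n-k-i`), and
`(n/d) log d! ≤ n log d - n + (n/d)(1 + log d)`. Sum over `d ≤ n - k`:
`log (upb) ≤ n log ((n-k)!) - n (n-k) + n (1 + log n)^2`, because
`∑_{d ≤ n} (1 + log d)/d ≤ (1 + log n) H_n ≤ (1 + log n)^2` (`harmonic_le_one_add_log`).
`lob n n = (n!)^n * ∏_{d=1}^n (d/n)^n = (n!)^(2n) / n^(n^2)`, `log = 2 n log n! - n^2 log n`. So with
`n log n! ≥ n^2 log n - n^2`:
`log upb + k log n! - log lob ≤ n log ((n-k)!/n!) + n k + k log n! + n (1 + log n)^2`.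
`n!/(n-k)! ≥ (n-k)^k`, so `n log ((n-k)!/n!) ≤ - n k log (n-k)`, and
`k log n! ≤ k n log n + k log n - k n + k`. Sum: at most
`n k log (n/(n-k)) + k (1 + log n) + n (1 + log n)^2 ≤ n k * k/(n-k) + 2 n (1 + log n)^2
 ≤ 2 k^2 + 2 n (1 + log n)^2` (`k ≤ n`, `1 + log n ≤ (1 + log n)^2`, `n - k ≥ n/2`).
-/

set_option linter.dupNamespace false
set_option linter.unusedVariables false

namespace Pool.Agent.TYP

open Finset

theorem log_factorial_le (d : ℕ) (hd : 1 ≤ d) :
    Real.log ((d.factorial : ℕ) : ℝ) ≤ ((d : ℝ) + 1) * Real.log d - d + 1 := by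
  induction d, hd using Nat.le_induction with
  | base => simp
  | succ d hd ih =>
    have hd0 : (0 : ℝ) < d := by exact_mod_cast hd
    have hf : ((d.factorial : ℕ) : ℝ) ≠ 0 := by exact_mod_cast d.factorial_ne_zero
    rw [Nat.factorial_succ]
    push_cast
    rw [Real.log_mul (by linarith) hf]
    have h1 := Real.one_sub_inv_le_log_of_pos (show (0 : ℝ) < ((d : ℝ) + 1) / d from div_pos (by linarith) hd0)
    rw [Real.log_div (by linarith) hd0.ne'] at h1
    have h2 : ((d : ℝ) + 1) * (1 - (((d : ℝ) + 1) / d)⁻¹) = 1 := by field_simp; ring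
    have h3 : 1 ≤ ((d : ℝ) + 1) * (Real.log ((d : ℝ) + 1) - Real.log d) := by
      have h4 := mul_le_mul_of_nonneg_left h1 (show (0 : ℝ) ≤ (d : ℝ) + 1 by linarith)
      linarith
    linarith

theorem le_log_factorial (n : ℕ) :
    (n : ℝ) * Real.log n - n ≤ Real.log ((n.factorial : ℕ) : ℝ) := by
  rcases Nat.eq_zero_or_pos n with hn | hn
  · subst hn; simp
  · have hn0 : (0 : ℝ) < n := by exact_mod_cast hn
    have hf : (0 : ℝ) < ((n.factorial : ℕ) : ℝ) := by exact_mod_cast n.factorial_pos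
    have h := Real.pow_div_factorial_le_exp (n : ℝ) hn0.le n
    have h1 := Real.log_le_log (by positivity) h
    rw [Real.log_exp, Real.log_div (by positivity) hf.ne', Real.log_pow] at h1
    linarith

private theorem upb_log (n k : ℕ) (hk : 1 ≤ k) (hkn : 2 * k ≤ n) :
    Real.log (upb n k (n - k)) ≤ n * Real.log (((n - k).factorial : ℕ) : ℝ) -
      n * ((n : ℝ) - k) + n * (1 + Real.log n) ^ 2 := by
  have hn0 : (0 : ℝ) < n := by exact_mod_cast (by omega : 0 < n)
  have hlogn : 0 ≤ Real.log n := Real.log_nonneg (by exact_mod_cast (by omega : 1 ≤ n))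
  unfold upb
  rw [Real.log_prod (fun i _ => by
    have : (0 : ℝ) < (((n - k - i).factorial : ℕ) : ℝ) := by exact_mod_cast Nat.factorial_pos _
    positivity)]
  set M := n - k with hM
  have hrefl : ∑ i ∈ range M, Real.log ((((M - i).factorial : ℕ) : ℝ) ^ ((n : ℝ) / ((M - i : ℕ) : ℝ)))
      = ∑ j ∈ range M, (n : ℝ) / ((j : ℝ) + 1) * Real.log (((j + 1).factorial : ℕ) : ℝ) := by
    rw [← Finset.sum_range_reflect (fun j : ℕ => (n : ℝ) / ((j : ℝ) + 1) *
      Real.log (((j + 1).factorial : ℕ) : ℝ))]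
    refine Finset.sum_congr rfl (fun i hi => ?_)
    have hi' : i < M := mem_range.mp hi
    have e1 : M - 1 - i + 1 = M - i := by omega
    have hf : (0 : ℝ) < (((M - i).factorial : ℕ) : ℝ) := by exact_mod_cast Nat.factorial_pos _
    rw [Real.log_rpow hf, e1]
    congr 2
    rw [← e1]; push_cast; ring
  rw [hrefl]
  have hterm : ∀ j ∈ range M, (n : ℝ) / ((j : ℝ) + 1) * Real.log (((j + 1).factorial : ℕ) : ℝ) ≤
      n * Real.log ((j : ℝ) + 1) - n + n * (1 + Real.log n) * ((j : ℝ) + 1)⁻¹ := by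
    intro j hj
    have hj' : j < M := mem_range.mp hj
    have h1 := log_factorial_le (j + 1) (by omega)
    have hj0 : (0 : ℝ) < (j : ℝ) + 1 := by positivity
    have h2 : Real.log ((j : ℝ) + 1) ≤ Real.log n :=
      Real.log_le_log hj0 (by exact_mod_cast (by omega : j + 1 ≤ n))
    push_cast at h1
    calc (n : ℝ) / ((j : ℝ) + 1) * Real.log (((j + 1).factorial : ℕ) : ℝ)
        ≤ (n : ℝ) / ((j : ℝ) + 1) * (((j : ℝ) + 1 + 1) * Real.log ((j : ℝ) + 1) - ((j : ℝ) + 1) + 1) :=
          mul_le_mul_of_nonneg_left h1 (by positivity)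
      _ = n * Real.log ((j : ℝ) + 1) - n + n * (1 + Real.log ((j : ℝ) + 1)) * ((j : ℝ) + 1)⁻¹ := by
          field_simp; ring
      _ ≤ _ := by
          have : n * (1 + Real.log ((j : ℝ) + 1)) * ((j : ℝ) + 1)⁻¹ ≤
              n * (1 + Real.log n) * ((j : ℝ) + 1)⁻¹ := by
            apply mul_le_mul_of_nonneg_right _ (by positivity)
            exact mul_le_mul_of_nonneg_left (by linarith) hn0.le
          linarith
  refine (Finset.sum_le_sum hterm).trans ?_
  rw [Finset.sum_add_distrib, Finset.sum_sub_distrib, ← Finset.mul_sum, ← Finset.mul_sum]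
  have hs1 : ∑ j ∈ range M, Real.log ((j : ℝ) + 1) = Real.log ((M.factorial : ℕ) : ℝ) := by
    rw [← Finset.prod_range_add_one_eq_factorial]
    push_cast
    rw [Real.log_prod (fun i _ => by positivity)]
  have hs2 : ∑ j ∈ range M, ((j : ℝ) + 1)⁻¹ ≤ 1 + Real.log n := by
    have h1 := harmonic_le_one_add_log M
    have h2 : ((harmonic M : ℚ) : ℝ) = ∑ j ∈ range M, ((j : ℝ) + 1)⁻¹ := by
      rw [harmonic]; push_cast; rfl
    rw [h2] at h1
    have h3 : Real.log M ≤ Real.log n :=
      Real.log_le_log (by exact_mod_cast (by omega : 0 < M)) (by exact_mod_cast (by omega : M ≤ n))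
    linarith
  have hMc : (M : ℝ) = (n : ℝ) - k := by rw [hM, Nat.cast_sub (by omega)]
  rw [hs1, Finset.sum_const, card_range, nsmul_eq_mul, hMc]
  have : n * (1 + Real.log n) * ∑ j ∈ range M, ((j : ℝ) + 1)⁻¹ ≤
      n * (1 + Real.log n) * (1 + Real.log n) := mul_le_mul_of_nonneg_left hs2 (by positivity)
  nlinarith

private theorem lob_log (n : ℕ) (hn : 1 ≤ n) :
    Real.log (lob n n) = 2 * n * Real.log ((n.factorial : ℕ) : ℝ) - (n : ℝ) ^ 2 * Real.log n := by
  have hn0 : (0 : ℝ) < n := by exact_mod_cast hn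
  have hf : (0 : ℝ) < ((n.factorial : ℕ) : ℝ) := by exact_mod_cast Nat.factorial_pos _
  unfold lob
  have hpos : ∀ i ∈ range n, (0 : ℝ) < ((n - i : ℕ) : ℝ) := by
    intro i hi
    have := mem_range.mp hi
    exact_mod_cast (by omega : 0 < n - i)
  rw [Real.log_prod (fun i hi => by have := hpos i hi; positivity)]
  have h1 : ∀ i ∈ range n, Real.log (((n.factorial : ℕ) : ℝ) * (((n - i : ℕ) : ℝ) / n) ^ n) =
      Real.log ((n.factorial : ℕ) : ℝ) - n * Real.log n + n * Real.log ((n - i : ℕ) : ℝ) := by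
    intro i hi
    have := hpos i hi
    rw [Real.log_mul hf.ne' (by positivity), Real.log_pow, Real.log_div this.ne' hn0.ne']
    ring
  rw [Finset.sum_congr rfl h1, Finset.sum_add_distrib, Finset.sum_const, card_range, nsmul_eq_mul,
    ← Finset.mul_sum]
  have h2 : ∑ i ∈ range n, Real.log ((n - i : ℕ) : ℝ) = Real.log ((n.factorial : ℕ) : ℝ) := by
    rw [← Real.log_prod (fun i hi => (hpos i hi).ne')]
    congr 1
    rw [← Nat.cast_prod]
    congr 1
    rw [← Finset.prod_range_add_one_eq_factorial, ← Finset.prod_range_reflect (fun j => j + 1)]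
    refine Finset.prod_congr rfl (fun i hi => ?_)
    have := mem_range.mp hi
    omega
  rw [h2]
  ring

theorem completions_ratio (n k : ℕ) (hk : 1 ≤ k) (hkn : 2 * k ≤ n) :
    upb n k (n - k) * ((n.factorial : ℕ) : ℝ) ^ k ≤
      Real.exp (2 * (k : ℝ) ^ 2 + 2 * n * (1 + Real.log n) ^ 2) * lob n n := by
  have hn0 : (0 : ℝ) < n := by exact_mod_cast (by omega : 0 < n)
  have hk0 : (0 : ℝ) < k := by exact_mod_cast hk
  have hknr : 2 * (k : ℝ) ≤ n := by exact_mod_cast hkn
  have hlogn : 0 ≤ Real.log n := Real.log_nonneg (by exact_mod_cast (by omega : 1 ≤ n))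
  have hf : (0 : ℝ) < ((n.factorial : ℕ) : ℝ) := by exact_mod_cast Nat.factorial_pos _
  have hfM : (0 : ℝ) < (((n - k).factorial : ℕ) : ℝ) := by exact_mod_cast Nat.factorial_pos _
  have hupb : 0 < upb n k (n - k) := by
    unfold upb
    refine Finset.prod_pos (fun i _ => ?_)
    have : (0 : ℝ) < (((n - k - i).factorial : ℕ) : ℝ) := by exact_mod_cast Nat.factorial_pos _
    positivity
  have hlob : 0 < lob n n := by
    unfold lob
    refine Finset.prod_pos (fun i hi => ?_)
    have h1 := mem_range.mp hi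
    have : (0 : ℝ) < ((n - i : ℕ) : ℝ) := by exact_mod_cast (by omega : 0 < n - i)
    positivity
  rw [← Real.log_le_log_iff (by positivity) (by positivity),
    Real.log_mul hupb.ne' (by positivity), Real.log_pow, Real.log_mul (Real.exp_pos _).ne' hlob.ne',
    Real.log_exp, lob_log n (by omega)]
  have hU := upb_log n k hk hkn
  -- log n! - log (n-k)! >= k log (n-k)
  set M := n - k with hM
  have hMc : (M : ℝ) = (n : ℝ) - k := by rw [hM, Nat.cast_sub (by omega)]
  have hM0 : (0 : ℝ) < M := by rw [hMc]; linarith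
  have h1 : Real.log ((M.factorial : ℕ) : ℝ) + k * Real.log M ≤
      Real.log ((n.factorial : ℕ) : ℝ) := by
    rw [← Real.log_pow, ← Real.log_mul hfM.ne' (by positivity)]
    apply Real.log_le_log (by positivity)
    have h2 := Nat.factorial_mul_pow_le_factorial (m := M) (n := k)
    have h3 : M + k = n := by omega
    rw [h3] at h2
    have h4 : M.factorial * M ^ k ≤ n.factorial :=
      (Nat.mul_le_mul_left _ (Nat.pow_le_pow_left (Nat.le_succ _) k)).trans h2
    exact_mod_cast h4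
  have h2 := le_log_factorial n
  have h3 := log_factorial_le n (by omega)
  have h4 : (n : ℝ) * k * (Real.log n - Real.log M) ≤ 2 * (k : ℝ) ^ 2 := by
    rw [← Real.log_div hn0.ne' hM0.ne']
    have h5 := Real.log_le_sub_one_of_pos (show (0 : ℝ) < (n : ℝ) / M by positivity)
    have h6 : (n : ℝ) / M - 1 = k / M := by
      rw [div_sub_one hM0.ne', hMc]; ring
    rw [h6] at h5
    have h7 : (n : ℝ) / M ≤ 2 := by
      rw [div_le_iff₀ hM0, hMc]; linarith
    calc (n : ℝ) * k * Real.log ((n : ℝ) / M) ≤ (n : ℝ) * k * (k / M) :=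
          mul_le_mul_of_nonneg_left h5 (by positivity)
      _ = (k : ℝ) ^ 2 * (n / M) := by ring
      _ ≤ (k : ℝ) ^ 2 * 2 := mul_le_mul_of_nonneg_left h7 (by positivity)
      _ = _ := by ring
  have h5 : (k : ℝ) * (1 + Real.log n) ≤ n * (1 + Real.log n) ^ 2 := by
    have a1 : (k : ℝ) ≤ n := by linarith
    have a2 : 1 + Real.log n ≤ (1 + Real.log n) ^ 2 := by nlinarith
    exact mul_le_mul a1 a2 (by positivity) hn0.le
  set F := Real.log ((n.factorial : ℕ) : ℝ) with hF
  set FM := Real.log ((M.factorial : ℕ) : ℝ) with hFM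
  have b1 : (n : ℝ) * FM + n * k * Real.log M ≤ n * F := by
    have := mul_le_mul_of_nonneg_left h1 hn0.le
    linarith
  have b2 : (n : ℝ) * (n * Real.log n - n) ≤ n * F := mul_le_mul_of_nonneg_left h2 hn0.le
  have b3 : (k : ℝ) * F ≤ k * (((n : ℝ) + 1) * Real.log n - n + 1) :=
    mul_le_mul_of_nonneg_left h3 hk0.le
  nlinarith

end Pool.Agent.TYP
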