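import Mathlib
import Pool.Agent.TYP.Defs

/-!
TYP: the parameters. `e ≥ 3`, `0 < η ≤ 1/2`, `q = qe e`, `β = 1/(2e)`.
-/

set_option linter.dupNamespace false
set_option linter.unusedVariables false

namespace Pool.Agent.TYP

/-- The saving `c = min (β / (4 q + 4)) (η / 4)`. -/
noncomputable def cc (e : ℕ) (η : ℝ) : ℝ := min (1 / (2 * (e : ℝ)) / (4 * (qe e : ℝ) + 4)) (η / 4)

/-- The number of rows `k = ⌊n^(1 - η/2)⌋`. -/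
noncomputable def kk (η : ℝ) (n : ℕ) : ℕ := ⌊(n : ℝ) ^ (1 - η / 2)⌋₊

/-- The number of cells `m = ⌈k n^(1-c)⌉`. -/
noncomputable def mm (e : ℕ) (η : ℝ) (n : ℕ) : ℕ := ⌈(kk η n : ℝ) * (n : ℝ) ^ (1 - cc e η)⌉₊

/-- The density `ε = n^(-2c)`. -/
noncomputable def ee (e : ℕ) (η : ℝ) (n : ℕ) : ℝ := (n : ℝ) ^ (-(2 * cc e η))

/-- `τ = n^(-1-β)`. -/
noncomputable def tt (e : ℕ) (n : ℕ) : ℝ := (n : ℝ) ^ (-(1 + 1 / (2 * (e : ℝ))))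

end Pool.Agent.TYP
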