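import Mathlib
import Pool.Agent.TYP.NumDefs

/-!
TYP module NB: the side conditions on the parameters hold for large `n`.

`k = kk η n`, `κ = 1 - η/2 ∈ [3/4, 1)`; `n^κ / 2 ≤ k ≤ n^κ` for large `n`.
* `2 k ≤ n`: `n^κ = n * n^(-η/2) ≤ n / 2` for large `n`.
* `τ n = n^(-β) ≤ 1`, `β = 1/(2e)`; `(τ n)^e k = n^(-1/2) k ≥ n^(κ - 1/2) / 2 ≥ 1` for large `n`.
* `2 c q ≤ β / 2 ≤ 1/12`, so `ε^q / 2 = n^(-2cq) / 2 ≥ n^(-1/12) / 2`, and
`1/k + (a^2+b^2)/n ≤ 2 n^(-3/4) + C/n`.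
-/

set_option linter.dupNamespace false
set_option linter.unusedVariables false

namespace Pool.Agent.TYP

open Filter

private lemma nb_large {y : ℝ} (hy : 0 < y) (B : ℝ) : ∀ᶠ n : ℕ in atTop, B ≤ (n : ℝ) ^ y :=
  ((tendsto_rpow_atTop hy).comp tendsto_natCast_atTop_atTop).eventually (eventually_ge_atTop B)

theorem num_kk (η : ℝ) (hη : 0 < η) (hη1 : η ≤ 1 / 2) : ∀ᶠ n : ℕ in atTop,
    1 ≤ kk η n ∧ 2 * kk η n ≤ n ∧ (n : ℝ) ^ (1 - η / 2) / 2 ≤ (kk η n : ℝ) ∧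
      (kk η n : ℝ) ≤ (n : ℝ) ^ (1 - η / 2) := by
  filter_upwards [nb_large (show 0 < 1 - η / 2 by linarith) 2,
    nb_large (show 0 < η / 2 by linarith) 2, eventually_gt_atTop 0] with n h1 h2 hn
  have hn0 : (0 : ℝ) < (n : ℝ) := by exact_mod_cast hn
  set A : ℝ := (n : ℝ) ^ (1 - η / 2) with hA
  have hA0 : 0 ≤ A := by linarith
  have hle : (kk η n : ℝ) ≤ A := Nat.floor_le hA0
  have hlt : A < (kk η n : ℝ) + 1 := Nat.lt_floor_add_one A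
  have hhalf : A / 2 ≤ (kk η n : ℝ) := by linarith
  have hprod : A * (n : ℝ) ^ (η / 2) = n := by
    rw [hA, ← Real.rpow_add hn0, show 1 - η / 2 + η / 2 = 1 by ring, Real.rpow_one]
  refine ⟨?_, ?_, hhalf, hle⟩
  · have : (1 : ℝ) ≤ (kk η n : ℝ) := by linarith
    exact_mod_cast this
  · have h3 : 2 * A ≤ n := by
      rw [← hprod]
      nlinarith
    have : 2 * (kk η n : ℝ) ≤ n := by linarith
    exact_mod_cast this

private lemma nb_tt (e : ℕ) (he : 3 ≤ e) {n : ℕ} (hn : 0 < n) :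
    tt e n * n = (n : ℝ) ^ (-(1 / (2 * (e : ℝ)))) := by
  have hn0 : (0 : ℝ) < (n : ℝ) := by exact_mod_cast hn
  unfold tt
  nth_rewrite 2 [← Real.rpow_one (n : ℝ)]
  rw [← Real.rpow_add hn0]
  congr 1
  ring

theorem num_tt (e : ℕ) (he : 3 ≤ e) (η : ℝ) (hη : 0 < η) (hη1 : η ≤ 1 / 2) :
    ∀ᶠ n : ℕ in atTop, 0 < ee e η n ∧ 0 < tt e n ∧ tt e n * n ≤ 1 ∧
      1 ≤ (tt e n * n) ^ e * kk η n := by
  filter_upwards [num_kk η hη hη1, nb_large (show (0 : ℝ) < 1 / 4 by norm_num) 2,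
    eventually_gt_atTop 0] with n h1 h2 hn
  have hn0 : (0 : ℝ) < (n : ℝ) := by exact_mod_cast hn
  have hn1 : (1 : ℝ) ≤ (n : ℝ) := by exact_mod_cast hn
  have he0 : (0 : ℝ) < (e : ℝ) := by exact_mod_cast (by omega : 0 < e)
  refine ⟨Real.rpow_pos_of_pos hn0 _, Real.rpow_pos_of_pos hn0 _, ?_, ?_⟩
  · rw [nb_tt e he hn]
    apply Real.rpow_le_one_of_one_le_of_nonpos hn1
    have : 0 < 1 / (2 * (e : ℝ)) := by positivity
    linarith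
  · rw [nb_tt e he hn, ← Real.rpow_mul_natCast hn0.le]
    have e1 : -(1 / (2 * (e : ℝ))) * (e : ℝ) = -(1 / 2) := by
      field_simp
    rw [e1]
    have h3 : (n : ℝ) ^ (1 - η / 2) / 2 ≤ (kk η n : ℝ) := h1.2.2.1
    have h4 : (n : ℝ) ^ (-(1 / 2) : ℝ) * ((n : ℝ) ^ (1 - η / 2) / 2) =
        (n : ℝ) ^ (1 / 2 - η / 2) / 2 := by
      rw [mul_div_assoc', ← Real.rpow_add hn0]
      congr 2
      ring
    have h5 : (n : ℝ) ^ (1 / 4 : ℝ) ≤ (n : ℝ) ^ (1 / 2 - η / 2) :=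
      Real.rpow_le_rpow_of_exponent_le hn1 (by linarith)
    have h6 : (n : ℝ) ^ (-(1 / 2) : ℝ) * ((n : ℝ) ^ (1 - η / 2) / 2) ≤
        (n : ℝ) ^ (-(1 / 2) : ℝ) * (kk η n : ℝ) :=
      mul_le_mul_of_nonneg_left h3 (Real.rpow_pos_of_pos hn0 _).le
    linarith

theorem num_cond (e : ℕ) (he : 3 ≤ e) (η : ℝ) (hη : 0 < η) (hη1 : η ≤ 1 / 2) :
    ∀ᶠ n : ℕ in atTop,
      1 / (kk η n : ℝ) + ((((e + 1) / 2 : ℕ) : ℝ) ^ 2 + ((e / 2 + 1 : ℕ) : ℝ) ^ 2) / n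
        ≤ ee e η n ^ qe e / 2 := by
  set C : ℝ := (((e + 1) / 2 : ℕ) : ℝ) ^ 2 + ((e / 2 + 1 : ℕ) : ℝ) ^ 2 with hC
  have hC0 : 0 ≤ C := by positivity
  filter_upwards [num_kk η hη hη1, nb_large (show (0 : ℝ) < 2 / 3 by norm_num) 8,
    nb_large (show (0 : ℝ) < 11 / 12 by norm_num) (4 * C), eventually_gt_atTop 0]
    with n h1 h2 h3 hn
  have hn0 : (0 : ℝ) < (n : ℝ) := by exact_mod_cast hn
  have hn1 : (1 : ℝ) ≤ (n : ℝ) := by exact_mod_cast hn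
  have he3 : (3 : ℝ) ≤ (e : ℝ) := by exact_mod_cast he
  have hq0 : (0 : ℝ) ≤ (qe e : ℝ) := Nat.cast_nonneg _
  set u : ℝ := (n : ℝ) ^ (-(1 / 12) : ℝ) with hu
  have hu0 : 0 < u := Real.rpow_pos_of_pos hn0 _
  -- lower bound for the right hand side
  have hb : 1 / (2 * (e : ℝ)) ≤ 1 / 6 := by
    apply div_le_div_of_nonneg_left (by norm_num) (by norm_num) (by linarith)
  have hc : cc e η ≤ 1 / (2 * (e : ℝ)) / (4 * (qe e : ℝ) + 4) := min_le_left _ _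
  have hcq : 2 * cc e η * (qe e : ℝ) ≤ 1 / 12 := by
    have h4 : 2 * cc e η * (qe e : ℝ) ≤
        2 * (1 / (2 * (e : ℝ)) / (4 * (qe e : ℝ) + 4)) * (qe e : ℝ) := by
      apply mul_le_mul_of_nonneg_right _ hq0
      linarith
    have h5 : 2 * (1 / (2 * (e : ℝ)) / (4 * (qe e : ℝ) + 4)) * (qe e : ℝ) =
        (1 / (2 * (e : ℝ))) * (2 * (qe e : ℝ) / (4 * (qe e : ℝ) + 4)) := by ring
    have h6 : 2 * (qe e : ℝ) / (4 * (qe e : ℝ) + 4) ≤ 1 / 2 := by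
      rw [div_le_div_iff₀ (by linarith) two_pos]
      linarith
    have h7 : 0 ≤ 2 * (qe e : ℝ) / (4 * (qe e : ℝ) + 4) := by positivity
    have h8 : (1 / (2 * (e : ℝ))) * (2 * (qe e : ℝ) / (4 * (qe e : ℝ) + 4)) ≤ 1 / 6 * (1 / 2) :=
      mul_le_mul hb h6 h7 (by norm_num)
    linarith
  have hee : u ≤ ee e η n ^ qe e := by
    unfold ee
    rw [← Real.rpow_mul_natCast hn0.le, hu]
    apply Real.rpow_le_rpow_of_exponent_le hn1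
    linarith
  -- the first term
  have ht1 : 1 / (kk η n : ℝ) ≤ u / 4 := by
    have h4 : (n : ℝ) ^ (3 / 4 : ℝ) / 2 ≤ (kk η n : ℝ) := by
      have h5 : (n : ℝ) ^ (3 / 4 : ℝ) ≤ (n : ℝ) ^ (1 - η / 2) :=
        Real.rpow_le_rpow_of_exponent_le hn1 (by linarith)
      have := h1.2.2.1
      linarith
    have h5 : u * (n : ℝ) ^ (3 / 4 : ℝ) = (n : ℝ) ^ (2 / 3 : ℝ) := by
      rw [hu, ← Real.rpow_add hn0]
      norm_num
    have hk0 : (0 : ℝ) < (kk η n : ℝ) := by exact_mod_cast h1.1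
    rw [div_le_div_iff₀ hk0 (by norm_num)]
    have h6 : u * ((n : ℝ) ^ (3 / 4 : ℝ) / 2) ≤ u * (kk η n : ℝ) :=
      mul_le_mul_of_nonneg_left h4 hu0.le
    nlinarith
  have ht2 : C / n ≤ u / 4 := by
    have h5 : u * (n : ℝ) = (n : ℝ) ^ (11 / 12 : ℝ) := by
      nth_rewrite 1 [← Real.rpow_one (n : ℝ)]
      rw [hu, ← Real.rpow_add hn0]
      norm_num
    rw [div_le_div_iff₀ hn0 (by norm_num), h5]
    linarith
  linarith

end Pool.Agent.TYP
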