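import Mathlib
import Pool.Agent.TYP.NumDefs
import Pool.Agent.TYP.NumB

/-!
TYP module NC: the number of containers is negligible.

`k = kk η n`, `c = cc e η > 0`, `q = qe e`, `β = 1/(2e)`. `τ k n^2 = k n^(1-β) ≥ 1` for large `n`, so
`⌊τ k n^2⌋ + 1 ≤ 2 k n^(1-β)`. `⌈4 * 2^((e+3)e) * 2 n^(2cq)⌉ ≤ 9 * 2^((e+3)e) n^(2cq)`.
`log (k n^2 + 1) ≤ log (n^3 + 1) ≤ 4 log n`. So the left side is at most
`72 e 2^((e+3)e) * k n^(1-β+2cq) log n`, and `n^(-β+2cq+c) → 0` because `c (4q+4) ≤ β`, so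
`2cq + c < β`.
-/

set_option linter.dupNamespace false
set_option linter.unusedVariables false

namespace Pool.Agent.TYP

open Filter

theorem cc_pos (e : ℕ) (he : 3 ≤ e) (η : ℝ) (hη : 0 < η) : 0 < cc e η := by
  have he0 : (0 : ℝ) < (e : ℝ) := by exact_mod_cast (by omega : 0 < e)
  have hq0 : (0 : ℝ) ≤ (qe e : ℝ) := Nat.cast_nonneg _
  unfold cc
  refine lt_min ?_ (by positivity)
  positivity

private lemma nc_large {y : ℝ} (hy : 0 < y) (B : ℝ) : ∀ᶠ n : ℕ in atTop, B ≤ (n : ℝ) ^ y :=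
  ((tendsto_rpow_atTop hy).comp tendsto_natCast_atTop_atTop).eventually (eventually_ge_atTop B)

theorem num_cont (e : ℕ) (he : 3 ≤ e) (η : ℝ) (hη : 0 < η) (hη1 : η ≤ 1 / 2) :
    ∀ᶠ n : ℕ in atTop,
      ((e * (⌊tt e n * (kk η n * (n : ℝ) ^ 2)⌋₊ + 1) *
        ⌈4 * 2 ^ ((e + 3) * e) * (2 / ee e η n ^ qe e)⌉₊ : ℕ) : ℝ)
        * Real.log ((kk η n * n ^ 2 + 1 : ℕ) : ℝ)
      ≤ cc e η / 8 * (kk η n * (n : ℝ) ^ (1 - cc e η)) * Real.log n := by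
  have hc0 := cc_pos e he η hη
  have he0 : (0 : ℝ) < (e : ℝ) := by exact_mod_cast (by omega : 0 < e)
  have he3 : (3 : ℝ) ≤ (e : ℝ) := by exact_mod_cast he
  have hq0 : (0 : ℝ) ≤ (qe e : ℝ) := Nat.cast_nonneg _
  set c := cc e η with hc
  set q : ℝ := (qe e : ℝ) with hq
  set β : ℝ := 1 / (2 * (e : ℝ)) with hβ
  have hβ0 : 0 < β := by positivity
  have hβ1 : β ≤ 1 := by
    rw [hβ, div_le_one (by positivity)]
    linarith
  have hcβ : c * (4 * q + 4) ≤ β := by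
    have h1 : c ≤ β / (4 * q + 4) := min_le_left _ _
    rwa [le_div_iff₀ (by linarith)] at h1
  set D : ℝ := 8 * 2 ^ ((e + 3) * e) with hD
  have hD0 : 0 < D := by positivity
  filter_upwards [num_kk η hη hη1, nc_large (show (0 : ℝ) < β / 2 by positivity)
    (64 * e * (D + 1) / c), eventually_ge_atTop 2] with n h1 h2 hn
  have hn0 : (0 : ℝ) < (n : ℝ) := by exact_mod_cast (by omega : 0 < n)
  have hn1 : (1 : ℝ) ≤ (n : ℝ) := by exact_mod_cast (by omega : 1 ≤ n)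
  have hn2 : (2 : ℝ) ≤ (n : ℝ) := by exact_mod_cast hn
  have hlog : 0 < Real.log n := Real.log_pos (by linarith)
  obtain ⟨hk1, hk2, -, -⟩ := h1
  have hk1' : (1 : ℝ) ≤ (kk η n : ℝ) := by exact_mod_cast hk1
  have hk2' : (kk η n : ℝ) ≤ n := by exact_mod_cast (by omega : kk η n ≤ n)
  set k : ℝ := (kk η n : ℝ) with hk
  have hk0 : 0 < k := by linarith
  -- first factor
  have f1 : ((⌊tt e n * (k * (n : ℝ) ^ 2)⌋₊ : ℝ) + 1) ≤ 2 * (k * (n : ℝ) ^ (1 - β)) := by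
    have e1 : tt e n * (k * (n : ℝ) ^ 2) = k * (n : ℝ) ^ (1 - β) := by
      have e2 : (n : ℝ) ^ (1 - β) = (n : ℝ) ^ (-(1 + β)) * (n : ℝ) ^ 2 := by
        rw [← Real.rpow_natCast (n : ℝ) 2, ← Real.rpow_add hn0]
        congr 1
        push_cast
        ring
      unfold tt
      rw [e2]
      ring
    have e3 : (1 : ℝ) ≤ (n : ℝ) ^ (1 - β) := Real.one_le_rpow hn1 (by linarith)
    have e4 : (1 : ℝ) ≤ k * (n : ℝ) ^ (1 - β) := by nlinarith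
    rw [e1]
    have := Nat.floor_le (show (0 : ℝ) ≤ k * (n : ℝ) ^ (1 - β) by linarith)
    linarith
  -- second factor
  have f2 : ((⌈4 * 2 ^ ((e + 3) * e) * (2 / ee e η n ^ qe e)⌉₊ : ℕ) : ℝ) ≤
      (D + 1) * (n : ℝ) ^ (2 * c * q) := by
    have e1 : 4 * 2 ^ ((e + 3) * e) * (2 / ee e η n ^ qe e) = D * (n : ℝ) ^ (2 * c * q) := by
      unfold ee
      rw [← Real.rpow_mul_natCast hn0.le, ← hc, ← hq,
        show -(2 * c) * q = -(2 * c * q) by ring, Real.rpow_neg hn0.le, hD, div_inv_eq_mul]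
      ring
    have e3 : (1 : ℝ) ≤ (n : ℝ) ^ (2 * c * q) := Real.one_le_rpow hn1 (by positivity)
    rw [e1]
    have := (Nat.ceil_lt_add_one (show (0 : ℝ) ≤ D * (n : ℝ) ^ (2 * c * q) by positivity)).le
    linarith
  -- logarithm
  have f3 : Real.log ((kk η n * n ^ 2 + 1 : ℕ) : ℝ) ≤ 4 * Real.log n := by
    have e1 : ((kk η n * n ^ 2 + 1 : ℕ) : ℝ) ≤ (n : ℝ) ^ 4 := by
      push_cast
      have e2 : k * (n : ℝ) ^ 2 ≤ (n : ℝ) * (n : ℝ) ^ 2 :=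
        mul_le_mul_of_nonneg_right hk2' (by positivity)
      have e3 : (1 : ℝ) ≤ (n : ℝ) ^ 3 := one_le_pow₀ hn1
      have e4 : 2 * (n : ℝ) ^ 3 ≤ (n : ℝ) * (n : ℝ) ^ 3 :=
        mul_le_mul_of_nonneg_right hn2 (by positivity)
      nlinarith
    have e2 : (0 : ℝ) < ((kk η n * n ^ 2 + 1 : ℕ) : ℝ) := by exact_mod_cast Nat.succ_pos _
    calc Real.log ((kk η n * n ^ 2 + 1 : ℕ) : ℝ) ≤ Real.log ((n : ℝ) ^ 4) :=
          Real.log_le_log e2 e1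
      _ = 4 * Real.log n := by
          rw [Real.log_pow]
          push_cast
          ring
  have f3' : 0 ≤ Real.log ((kk η n * n ^ 2 + 1 : ℕ) : ℝ) :=
    Real.log_nonneg (by exact_mod_cast Nat.succ_pos _)
  have hcast : ((e * (⌊tt e n * (k * (n : ℝ) ^ 2)⌋₊ + 1) *
      ⌈4 * 2 ^ ((e + 3) * e) * (2 / ee e η n ^ qe e)⌉₊ : ℕ) : ℝ) =
      e * ((⌊tt e n * (k * (n : ℝ) ^ 2)⌋₊ : ℝ) + 1) *
        ((⌈4 * 2 ^ ((e + 3) * e) * (2 / ee e η n ^ qe e)⌉₊ : ℕ) : ℝ) := by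
    push_cast
    ring
  rw [hcast]
  have g1 : (e : ℝ) * ((⌊tt e n * (k * (n : ℝ) ^ 2)⌋₊ : ℝ) + 1) *
        ((⌈4 * 2 ^ ((e + 3) * e) * (2 / ee e η n ^ qe e)⌉₊ : ℕ) : ℝ) ≤
      (e : ℝ) * (2 * (k * (n : ℝ) ^ (1 - β))) * ((D + 1) * (n : ℝ) ^ (2 * c * q)) := by
    refine mul_le_mul (mul_le_mul_of_nonneg_left f1 he0.le) f2 (Nat.cast_nonneg _) (by positivity)
  have g2 : (e : ℝ) * (2 * (k * (n : ℝ) ^ (1 - β))) * ((D + 1) * (n : ℝ) ^ (2 * c * q)) *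
      (4 * Real.log n) ≤ c / 8 * (k * (n : ℝ) ^ (1 - c)) * Real.log n := by
    have e1 : (n : ℝ) ^ (1 - c) = (n : ℝ) ^ (1 - β) * (n : ℝ) ^ (2 * c * q) *
        (n : ℝ) ^ (β - 2 * c * q - c) := by
      rw [← Real.rpow_add hn0, ← Real.rpow_add hn0]
      congr 1
      ring
    have e2 : (n : ℝ) ^ (β / 2) ≤ (n : ℝ) ^ (β - 2 * c * q - c) := by
      refine Real.rpow_le_rpow_of_exponent_le hn1 ?_
      nlinarith
    have e3 : 64 * e * (D + 1) ≤ c * (n : ℝ) ^ (β - 2 * c * q - c) := by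
      rw [div_le_iff₀ hc0] at h2
      have := mul_le_mul_of_nonneg_left e2 hc0.le
      linarith
    set u := (n : ℝ) ^ (1 - β) with hu
    set w := (n : ℝ) ^ (2 * c * q) with hw
    set z := (n : ℝ) ^ (β - 2 * c * q - c) with hz
    have hu0 : 0 < u := Real.rpow_pos_of_pos hn0 _
    have hw0 : 0 < w := Real.rpow_pos_of_pos hn0 _
    rw [e1]
    have e4 := mul_le_mul_of_nonneg_right e3 (show (0 : ℝ) ≤ k * u * w * Real.log n / 8 by positivity)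
    calc (e : ℝ) * (2 * (k * u)) * ((D + 1) * w) * (4 * Real.log n)
        = 64 * e * (D + 1) * (k * u * w * Real.log n / 8) := by ring
      _ ≤ c * z * (k * u * w * Real.log n / 8) := e4
      _ = c / 8 * (k * (u * w * z)) * Real.log n := by ring
  refine le_trans ?_ g2
  exact mul_le_mul g1 f3 f3' (by positivity)

end Pool.Agent.TYP
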