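import Mathlib
import Pool.Agent.TYP.NumDefs
import Pool.Agent.TYP.NumB

/-!
TYP module ND: the binomial term.

`k = kk η n`, `c = cc e η`, `m = mm e η n ≥ k n^(1-c) > 0`, `K = ⌊ε k n^2⌋ ≤ k n^(2-2c)`.
`choose K m ≤ K^m / m!` (`Nat.choose_le_pow_div`) and `m! ≥ (m/e)^m`
(`Real.exp m ≥ m^m / m!`), so `choose K m (e/n)^m ≤ (e^2 K / (m n))^m` and
`e^2 K / (m n) ≤ e^2 k n^(2-2c) / (k n^(1-c) n) = e^2 n^(-c)`. So the left side is at most
`exp (m (2 - c log n)) ≤ exp (- (c/2) m log n) ≤ exp (- (c/2) k n^(1-c) log n)` as soon as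
`c log n ≥ 4`.
-/

set_option linter.dupNamespace false
set_option linter.unusedVariables false

namespace Pool.Agent.TYP

open Filter

theorem num_choose (e : ℕ) (he : 3 ≤ e) (η : ℝ) (hη : 0 < η) (hη1 : η ≤ 1 / 2) :
    ∀ᶠ n : ℕ in atTop,
      ((⌊ee e η n * (kk η n * (n : ℝ) ^ 2)⌋₊.choose (mm e η n) : ℕ) : ℝ)
        * (Real.exp 1 / n) ^ mm e η n
      ≤ Real.exp (-(cc e η / 2 * (kk η n * (n : ℝ) ^ (1 - cc e η)) * Real.log n)) := by
  have he0 : (0 : ℝ) < e := by exact_mod_cast (by omega : 0 < e)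
  have hc : 0 < cc e η := lt_min (by positivity) (by positivity)
  have hlog : Tendsto (fun n : ℕ => Real.log (n : ℝ)) atTop atTop :=
    Real.tendsto_log_atTop.comp tendsto_natCast_atTop_atTop
  filter_upwards [num_kk η hη hη1, eventually_ge_atTop 2,
    hlog.eventually_ge_atTop (4 / cc e η)] with n hkk hn hL
  obtain ⟨hk1, -, -, -⟩ := hkk
  set c := cc e η with hcdef
  set k := kk η n with hkdef
  set m := mm e η n with hmdef
  set N : ℝ := (n : ℝ) with hN
  have hN0 : 0 < N := by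
    rw [hN]; exact_mod_cast (by omega : 0 < n)
  have hN1 : 1 ≤ N := by
    rw [hN]; exact_mod_cast (by omega : 1 ≤ n)
  have hk0 : (0 : ℝ) < k := by exact_mod_cast hk1
  have hlogN : 0 ≤ Real.log N := Real.log_nonneg hN1
  have hcL : 4 ≤ c * Real.log N := by
    rw [div_le_iff₀ hc] at hL
    linarith
  have hA0 : 0 < (k : ℝ) * N ^ (1 - c) := mul_pos hk0 (Real.rpow_pos_of_pos hN0 _)
  have hm : (k : ℝ) * N ^ (1 - c) ≤ m := by
    rw [hmdef]; exact Nat.le_ceil _
  have hm0 : (0 : ℝ) < m := hA0.trans_le hm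
  set K := ⌊ee e η n * (k * N ^ 2)⌋₊ with hKdef
  have hee : ee e η n = N ^ (-(2 * c)) := rfl
  have hK : (K : ℝ) ≤ k * N ^ (2 - 2 * c) := by
    have h1 : (0 : ℝ) ≤ ee e η n * (k * N ^ 2) := by
      rw [hee]
      have := Real.rpow_pos_of_pos hN0 (-(2 * c))
      positivity
    refine (Nat.floor_le h1).trans (le_of_eq ?_)
    rw [hee, sub_eq_add_neg, Real.rpow_add hN0]
    norm_num
    ring
  have h2 : ((K.choose m : ℕ) : ℝ) ≤ (K : ℝ) ^ m / (m.factorial : ℝ) := Nat.choose_le_pow_div m K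
  have h3 : (m : ℝ) ^ m / (m.factorial : ℝ) ≤ Real.exp m :=
    Real.pow_div_factorial_le_exp _ hm0.le m
  have hfac : (0 : ℝ) < (m.factorial : ℝ) := by exact_mod_cast m.factorial_pos
  have hmm : (0 : ℝ) < (m : ℝ) ^ m := pow_pos hm0 m
  have h4 : (1 : ℝ) / (m.factorial : ℝ) ≤ Real.exp m / (m : ℝ) ^ m := by
    rw [div_le_div_iff₀ hfac hmm, one_mul]
    rwa [div_le_iff₀ hfac] at h3
  have h5 : ((K.choose m : ℕ) : ℝ) * (Real.exp 1 / N) ^ m ≤
      (Real.exp 2 * K / (m * N)) ^ m := by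
    have h6 : ((K.choose m : ℕ) : ℝ) ≤ (K : ℝ) ^ m * (Real.exp m / (m : ℝ) ^ m) := by
      refine h2.trans ?_
      rw [div_eq_mul_one_div]
      exact mul_le_mul_of_nonneg_left h4 (by positivity)
    refine (mul_le_mul_of_nonneg_right h6 (by positivity)).trans (le_of_eq ?_)
    have h7 : Real.exp (m : ℝ) = Real.exp 1 ^ m := by
      rw [← Real.exp_nat_mul, mul_one]
    have h8 : Real.exp 2 = Real.exp 1 * Real.exp 1 := by
      rw [← Real.exp_add]; norm_num
    rw [h7, h8, div_pow, div_pow, mul_pow, mul_pow, mul_pow]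
    field_simp
  have h9 : Real.exp 2 * K / (m * N) ≤ Real.exp (2 - c * Real.log N) := by
    have h10 : Real.exp (2 - c * Real.log N) = Real.exp 2 * N ^ (-c) := by
      rw [sub_eq_add_neg, Real.exp_add, Real.rpow_def_of_pos hN0]
      congr 2
      ring
    rw [h10, div_le_iff₀ (mul_pos hm0 hN0)]
    have h11 : k * N ^ (2 - 2 * c) = N ^ (-c) * ((k * N ^ (1 - c)) * N) := by
      have : N ^ (2 - 2 * c) = N ^ (-c) * (N ^ (1 - c) * N) := by
        rw [← Real.rpow_add_one hN0.ne', ← Real.rpow_add hN0]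
        congr 1
        ring
      rw [this]
      ring
    calc Real.exp 2 * K ≤ Real.exp 2 * (k * N ^ (2 - 2 * c)) :=
          mul_le_mul_of_nonneg_left hK (Real.exp_pos 2).le
      _ = Real.exp 2 * N ^ (-c) * ((k * N ^ (1 - c)) * N) := by rw [h11]; ring
      _ ≤ Real.exp 2 * N ^ (-c) * (m * N) := by
          have h12 := Real.rpow_pos_of_pos hN0 (-c)
          refine mul_le_mul_of_nonneg_left ?_ (by positivity)
          exact mul_le_mul_of_nonneg_right hm hN0.le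
  have h13 : (0 : ℝ) ≤ Real.exp 2 * K / (m * N) := by positivity
  refine h5.trans ((pow_le_pow_left₀ h13 h9 m).trans ?_)
  rw [← Real.exp_nat_mul, Real.exp_le_exp]
  have h14 : 2 - c * Real.log N ≤ -(c * Real.log N / 2) := by linarith
  have h15 : (m : ℝ) * (2 - c * Real.log N) ≤ (m : ℝ) * (-(c * Real.log N / 2)) :=
    mul_le_mul_of_nonneg_left h14 hm0.le
  have h16 : (k : ℝ) * N ^ (1 - c) * (c * Real.log N / 2) ≤ (m : ℝ) * (c * Real.log N / 2) :=
    mul_le_mul_of_nonneg_right hm (by positivity)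
  have h17 : c / 2 * (k * N ^ (1 - c)) * Real.log N = (k : ℝ) * N ^ (1 - c) * (c * Real.log N / 2) := by
    ring
  rw [h17]
  linarith

end Pool.Agent.TYP
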