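import Mathlib
import Pool.Agent.TYP.NumDefs
import Pool.Agent.TYP.NumB

/-!
TYP module NE: the error terms.

`κ = 1 - η/2`, `n^κ / 2 ≤ k ≤ n^κ`, `0 < c ≤ η/4 ≤ 1/8` (`c = cc e η`). Each of the four terms is at
most `(c/16) k n^(1-c) log n` for large `n`:
* `log n`: `k n^(1-c) → ∞`;
* `2 k^2 ≤ 2 k n^κ` and `n^(κ - 1 + c) → 0` (`κ - 1 + c ≤ -η/4 < 0`);
* `2 n (1 + log n)^2`: `k n^(1-c) ≥ n^(1 + κ - c) / 2` and `κ - c > 0`;
* `n^(2-η)`: `k n^(1-c) ≥ n^(2 - η/2 - c) / 2` and `η/2 > c`.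
-/

set_option linter.dupNamespace false
set_option linter.unusedVariables false

namespace Pool.Agent.TYP

open Filter

theorem NumE_cc {e : ℕ} {η : ℝ} (he : 3 ≤ e) (hη : 0 < η) : 0 < cc e η ∧ cc e η ≤ η / 4 := by
  unfold cc
  have he0 : (0 : ℝ) < e := by exact_mod_cast (by omega : 0 < e)
  refine ⟨lt_min ?_ (by linarith), min_le_right _ _⟩
  positivity

theorem num_err (e : ℕ) (he : 3 ≤ e) (η : ℝ) (hη : 0 < η) (hη1 : η ≤ 1 / 2) :
    ∀ᶠ n : ℕ in atTop,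
      Real.log n + (2 * (kk η n : ℝ) ^ 2 + 2 * n * (1 + Real.log n) ^ 2) + (n : ℝ) ^ (2 - η)
      ≤ cc e η / 4 * (kk η n * (n : ℝ) ^ (1 - cc e η)) * Real.log n := by
  obtain ⟨hc0, hc1⟩ := NumE_cc he hη
  set c := cc e η with hc
  have hcast := tendsto_natCast_atTop_atTop (R := ℝ)
  have h1 : ∀ᶠ n : ℕ in atTop, (n : ℝ) ^ (-(η / 4)) ≤ c / 32 := by
    have h := (tendsto_rpow_neg_atTop (y := η / 4) (by linarith)).comp hcast
    exact (h.eventually (gt_mem_nhds (by positivity : (0 : ℝ) < c / 32))).mono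
      fun n hn => le_of_lt hn
  have h2 : ∀ᶠ n : ℕ in atTop, Real.log n ≤ c / 256 * (n : ℝ) ^ (5 / 8 : ℝ) := by
    have h := (isLittleO_log_rpow_atTop (r := (5 / 8 : ℝ)) (by norm_num)).bound
      (by positivity : (0 : ℝ) < c / 256)
    filter_upwards [hcast.eventually h, eventually_ge_atTop 1] with n hn h1n
    have h1n' : (1 : ℝ) ≤ n := by exact_mod_cast h1n
    rw [Real.norm_of_nonneg (Real.log_nonneg h1n'), Real.norm_of_nonneg (by positivity)] at hn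
    exact hn
  have h3 : ∀ᶠ n : ℕ in atTop, 32 / c ≤ (n : ℝ) := hcast.eventually_ge_atTop _
  have h4 : ∀ᶠ n : ℕ in atTop, Real.exp 1 ≤ (n : ℝ) := hcast.eventually_ge_atTop _
  filter_upwards [h1, h2, h3, h4, num_kk η hη hη1] with n k1 k2 k3 k4 k5
  obtain ⟨k5a, -, k5b, k5c⟩ := k5
  have hn1 : (1 : ℝ) ≤ n := le_trans (by
    have := Real.add_one_le_exp (1 : ℝ)
    linarith) k4
  have hn0 : (0 : ℝ) < n := by linarith
  have hlog : 1 ≤ Real.log n := by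
    rw [Real.le_log_iff_exp_le hn0]
    exact k4
  set k : ℝ := (kk η n : ℝ) with hk
  have hk1 : (1 : ℝ) ≤ k := by
    rw [hk]
    exact_mod_cast k5a
  set l := Real.log n with hl
  set Y : ℝ := k * (n : ℝ) ^ (1 - c) with hY
  have hYlow : (n : ℝ) ^ (2 - η / 2 - c) / 2 ≤ Y := by
    have e1 : (n : ℝ) ^ (2 - η / 2 - c) = (n : ℝ) ^ (1 - η / 2) * (n : ℝ) ^ (1 - c) := by
      rw [← Real.rpow_add hn0]
      congr 1
      ring
    rw [e1, hY]
    have e2 : 0 ≤ (n : ℝ) ^ (1 - c) := by positivity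
    nlinarith
  have hY13 : (n : ℝ) * (n : ℝ) ^ (5 / 8 : ℝ) / 2 ≤ Y := by
    have e1 : (n : ℝ) * (n : ℝ) ^ (5 / 8 : ℝ) = (n : ℝ) ^ (13 / 8 : ℝ) := by
      rw [← Real.rpow_one_add' hn0.le (by norm_num)]
      norm_num
    rw [e1]
    have e2 : (n : ℝ) ^ (13 / 8 : ℝ) ≤ (n : ℝ) ^ (2 - η / 2 - c) :=
      Real.rpow_le_rpow_of_exponent_le hn1 (by linarith)
    linarith
  have hr58 : 1 ≤ (n : ℝ) ^ (5 / 8 : ℝ) := Real.one_le_rpow hn1 (by norm_num)
  have hY0 : 0 < Y := by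
    have : 0 < (n : ℝ) * (n : ℝ) ^ (5 / 8 : ℝ) / 2 := by positivity
    linarith
  have hcY : 0 < c * Y := mul_pos hc0 hY0
  -- the four terms
  have t1 : l ≤ c / 16 * Y * l := by
    have e1 : 1 ≤ c / 16 * Y := by
      have e2 : 32 / c / 2 ≤ Y := by
        have e3 : (n : ℝ) / 2 ≤ Y := by nlinarith
        linarith
      have e4 : c / 16 * (32 / c / 2) = 1 := by
        field_simp
        norm_num
      have e5 : c / 16 * (32 / c / 2) ≤ c / 16 * Y :=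
        mul_le_mul_of_nonneg_left e2 (by positivity)
      linarith
    nlinarith
  have hsmall : (n : ℝ) ^ (c - η / 2) ≤ c / 32 := by
    refine le_trans (Real.rpow_le_rpow_of_exponent_le hn1 ?_) k1
    linarith
  have t2 : 2 * k ^ 2 ≤ c / 16 * Y * l := by
    have e1 : (n : ℝ) ^ (1 - η / 2) = (n : ℝ) ^ (1 - c) * (n : ℝ) ^ (c - η / 2) := by
      rw [← Real.rpow_add hn0]
      congr 1
      ring
    have e2 : k ≤ (n : ℝ) ^ (1 - c) * (c / 32) := by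
      refine k5c.trans ?_
      rw [e1]
      exact mul_le_mul_of_nonneg_left hsmall (by positivity)
    have e3 : 2 * k ^ 2 ≤ c / 16 * Y := by
      have e4 : k * k ≤ k * ((n : ℝ) ^ (1 - c) * (c / 32)) :=
        mul_le_mul_of_nonneg_left e2 (by linarith)
      rw [hY]
      nlinarith
    have e5 : 0 ≤ c / 16 * Y := by positivity
    nlinarith
  have t3 : 2 * (n : ℝ) * (1 + l) ^ 2 ≤ c / 16 * Y * l := by
    have e1 : (1 + l) ^ 2 ≤ 4 * l ^ 2 := by nlinarith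
    have e2 : 2 * (n : ℝ) * (1 + l) ^ 2 ≤ 2 * (n : ℝ) * (4 * l ^ 2) :=
      mul_le_mul_of_nonneg_left e1 (by positivity)
    have e3 : 8 * (n : ℝ) * l ≤ c / 16 * Y := by
      have e4 : 8 * (n : ℝ) * l ≤ 8 * (n : ℝ) * (c / 256 * (n : ℝ) ^ (5 / 8 : ℝ)) :=
        mul_le_mul_of_nonneg_left k2 (by positivity)
      have e5 : c / 16 * ((n : ℝ) * (n : ℝ) ^ (5 / 8 : ℝ) / 2) ≤ c / 16 * Y :=
        mul_le_mul_of_nonneg_left hY13 (by positivity)
      nlinarith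
    have e6 : 8 * (n : ℝ) * l * l ≤ c / 16 * Y * l :=
      mul_le_mul_of_nonneg_right e3 (by linarith)
    nlinarith
  have t4 : (n : ℝ) ^ (2 - η) ≤ c / 16 * Y * l := by
    have e1 : (n : ℝ) ^ (2 - η) = (n : ℝ) ^ (2 - η / 2 - c) * (n : ℝ) ^ (c - η / 2) := by
      rw [← Real.rpow_add hn0]
      congr 1
      ring
    have e2 : (n : ℝ) ^ (2 - η) ≤ c / 16 * Y := by
      rw [e1]
      have e3 : (n : ℝ) ^ (2 - η / 2 - c) * (n : ℝ) ^ (c - η / 2) ≤
          (n : ℝ) ^ (2 - η / 2 - c) * (c / 32) :=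
        mul_le_mul_of_nonneg_left hsmall (by positivity)
      nlinarith
    have e5 : 0 ≤ c / 16 * Y := by positivity
    nlinarith
  have hfin : c / 4 * Y * l = c / 16 * Y * l + c / 16 * Y * l + c / 16 * Y * l +
      c / 16 * Y * l := by ring
  rw [hfin]
  linarith [t1, t2, t3, t4]

end Pool.Agent.TYP
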