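import Mathlib
import Pool.Agent.TYP.NumB
import Pool.Agent.TYP.NumC
import Pool.Agent.TYP.NumD
import Pool.Agent.TYP.NumE

/-!
TYP module PA (architect): the final choice of the parameters.
-/

set_option linter.dupNamespace false
set_option linter.unusedVariables false

namespace Pool.Agent.TYP

open Filter

theorem params_half (e : ℕ) (he : 3 ≤ e) (η : ℝ) (hη : 0 < η) (hη1 : η ≤ 1 / 2) :
    ∃ c : ℝ, 0 < c ∧ ∃ n₀ : ℕ,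
    ∀ n : ℕ, n₀ ≤ n → ∃ (k m : ℕ) (ε τ : ℝ), 1 ≤ n ∧ 1 ≤ k ∧ 2 * k ≤ n ∧ 0 < ε ∧ 0 < τ ∧
      τ * n ≤ 1 ∧ 1 ≤ (τ * n) ^ e * k ∧
      1 / (k : ℝ) + ((((e + 1) / 2 : ℕ) : ℝ) ^ 2 + ((e / 2 + 1 : ℕ) : ℝ) ^ 2) / n
        ≤ ε ^ qe e / 2 ∧
      (m : ℝ) - 1 < k * (n : ℝ) ^ (1 - c) ∧
      (n : ℝ) * (((k * n ^ 2 + 1) ^ (e * (⌊τ * (k * (n : ℝ) ^ 2)⌋₊ + 1) *
        ⌈4 * 2 ^ ((e + 3) * e) * (2 / ε ^ qe e)⌉₊) : ℕ) : ℝ) *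
        ((⌊ε * (k * (n : ℝ) ^ 2)⌋₊.choose m : ℕ) : ℝ) * (Real.exp 1 / n) ^ m *
        Real.exp (2 * (k : ℝ) ^ 2 + 2 * n * (1 + Real.log n) ^ 2) ≤ Real.exp (-(n : ℝ) ^ (2 - η)) := by
  refine ⟨cc e η, cc_pos e he η hη, ?_⟩
  have hev := ((((num_kk η hη hη1).and (num_tt e he η hη hη1)).and (num_cond e he η hη hη1)).and
    ((num_cont e he η hη hη1).and ((num_choose e he η hη hη1).and (num_err e he η hη hη1)))).and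
    (eventually_ge_atTop 1)
  obtain ⟨n₀, H⟩ := eventually_atTop.1 hev
  refine ⟨n₀, fun n hn => ?_⟩
  obtain ⟨⟨⟨⟨⟨hk1, hk2, hk3, hk4⟩, ⟨hε, hτ, hτn, hτk⟩⟩, hcond⟩, ⟨hcont, hch, herr⟩⟩, hn1⟩ := H n hn
  refine ⟨kk η n, mm e η n, ee e η n, tt e n, hn1, hk1, hk2, hε, hτ, hτn, hτk, hcond, ?_, ?_⟩
  · have h1 : (0 : ℝ) ≤ (kk η n : ℝ) * (n : ℝ) ^ (1 - cc e η) := by positivity
    have h2 : (mm e η n : ℝ) < (kk η n : ℝ) * (n : ℝ) ^ (1 - cc e η) + 1 := Nat.ceil_lt_add_one h1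
    linarith
  · have hnR : (0 : ℝ) < n := by exact_mod_cast hn1
    set k := kk η n with hk
    set c := cc e η with hc
    set E : ℕ := e * (⌊tt e n * (k * (n : ℝ) ^ 2)⌋₊ + 1) *
        ⌈4 * 2 ^ ((e + 3) * e) * (2 / ee e η n ^ qe e)⌉₊ with hE
    set Y : ℝ := (k * (n : ℝ) ^ (1 - c)) * Real.log n with hY
    have hbase : (0 : ℝ) < ((k * n ^ 2 + 1 : ℕ) : ℝ) := by positivity
    have hpow : ((((k * n ^ 2 + 1) ^ E : ℕ)) : ℝ)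
        = Real.exp ((E : ℝ) * Real.log ((k * n ^ 2 + 1 : ℕ) : ℝ)) := by
      rw [Real.exp_nat_mul, Real.exp_log hbase]
      push_cast
      ring
    have hE1 : (E : ℝ) * Real.log ((k * n ^ 2 + 1 : ℕ) : ℝ) ≤ c / 8 * Y := by
      have := hcont
      rw [hY]
      calc (E : ℝ) * Real.log ((k * n ^ 2 + 1 : ℕ) : ℝ)
          ≤ c / 8 * (k * (n : ℝ) ^ (1 - c)) * Real.log n := this
        _ = _ := by ring
    have hch' : ((⌊ee e η n * (k * (n : ℝ) ^ 2)⌋₊.choose (mm e η n) : ℕ) : ℝ)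
        * (Real.exp 1 / n) ^ mm e η n ≤ Real.exp (-(c / 2 * Y)) := by
      refine hch.trans (le_of_eq ?_)
      rw [hY]
      congr 1
      ring
    have herr' : Real.log n + (2 * (k : ℝ) ^ 2 + 2 * n * (1 + Real.log n) ^ 2) + (n : ℝ) ^ (2 - η)
        ≤ c / 4 * Y := by
      refine herr.trans (le_of_eq ?_)
      rw [hY]
      ring
    have hc0 : 0 < c := cc_pos e he η hη
    have hY0 : 0 ≤ Y := by
      have h3 : 0 ≤ Real.log n := Real.log_nonneg (by exact_mod_cast hn1)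
      rw [hY]; positivity
    calc (n : ℝ) * (((k * n ^ 2 + 1) ^ E : ℕ) : ℝ) *
        ((⌊ee e η n * (k * (n : ℝ) ^ 2)⌋₊.choose (mm e η n) : ℕ) : ℝ) *
        (Real.exp 1 / n) ^ mm e η n *
        Real.exp (2 * (k : ℝ) ^ 2 + 2 * n * (1 + Real.log n) ^ 2)
        = (n : ℝ) * (((k * n ^ 2 + 1) ^ E : ℕ) : ℝ) *
        (((⌊ee e η n * (k * (n : ℝ) ^ 2)⌋₊.choose (mm e η n) : ℕ) : ℝ) *
        (Real.exp 1 / n) ^ mm e η n) *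
        Real.exp (2 * (k : ℝ) ^ 2 + 2 * n * (1 + Real.log n) ^ 2) := by ring
      _ ≤ (n : ℝ) * (((k * n ^ 2 + 1) ^ E : ℕ) : ℝ) * Real.exp (-(c / 2 * Y)) *
        Real.exp (2 * (k : ℝ) ^ 2 + 2 * n * (1 + Real.log n) ^ 2) := by gcongr
      _ = Real.exp (Real.log n + (E : ℝ) * Real.log ((k * n ^ 2 + 1 : ℕ) : ℝ) + (-(c / 2 * Y)) +
        (2 * (k : ℝ) ^ 2 + 2 * n * (1 + Real.log n) ^ 2)) := by
        rw [hpow, Real.exp_add (Real.log n + (E : ℝ) * Real.log ((k * n ^ 2 + 1 : ℕ) : ℝ)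
          + (-(c / 2 * Y))), Real.exp_add (Real.log n + (E : ℝ) * Real.log ((k * n ^ 2 + 1 : ℕ) : ℝ)),
          Real.exp_add (Real.log n), Real.exp_log hnR]
      _ ≤ Real.exp (-(n : ℝ) ^ (2 - η)) := by
        apply Real.exp_le_exp.2
        nlinarith [mul_nonneg hc0.le hY0]

theorem params (e : ℕ) (he : 3 ≤ e) (η : ℝ) (hη : 0 < η) : ∃ c : ℝ, 0 < c ∧ ∃ n₀ : ℕ,
    ∀ n : ℕ, n₀ ≤ n → ∃ (k m : ℕ) (ε τ : ℝ), 1 ≤ n ∧ 1 ≤ k ∧ 2 * k ≤ n ∧ 0 < ε ∧ 0 < τ ∧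
      τ * n ≤ 1 ∧ 1 ≤ (τ * n) ^ e * k ∧
      1 / (k : ℝ) + ((((e + 1) / 2 : ℕ) : ℝ) ^ 2 + ((e / 2 + 1 : ℕ) : ℝ) ^ 2) / n
        ≤ ε ^ qe e / 2 ∧
      (m : ℝ) - 1 < k * (n : ℝ) ^ (1 - c) ∧
      (n : ℝ) * (((k * n ^ 2 + 1) ^ (e * (⌊τ * (k * (n : ℝ) ^ 2)⌋₊ + 1) *
        ⌈4 * 2 ^ ((e + 3) * e) * (2 / ε ^ qe e)⌉₊) : ℕ) : ℝ) *
        ((⌊ε * (k * (n : ℝ) ^ 2)⌋₊.choose m : ℕ) : ℝ) * (Real.exp 1 / n) ^ m *
        Real.exp (2 * (k : ℝ) ^ 2 + 2 * n * (1 + Real.log n) ^ 2) ≤ Real.exp (-(n : ℝ) ^ (2 - η)) := by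
  have hη' : 0 < min η (1 / 2) := by positivity
  obtain ⟨c, hc, n₀, H⟩ := params_half e he (min η (1 / 2)) hη' (min_le_right _ _)
  refine ⟨c, hc, n₀, fun n hn => ?_⟩
  obtain ⟨k, m, ε, τ, hn1, hk1, hk2, hε, hτ, hτn, hτk, hcond, hm, hfin⟩ := H n hn
  refine ⟨k, m, ε, τ, hn1, hk1, hk2, hε, hτ, hτn, hτk, hcond, hm, hfin.trans ?_⟩
  apply Real.exp_le_exp.2
  have hnR : (1 : ℝ) ≤ n := by exact_mod_cast hn1
  have h1 : (n : ℝ) ^ (2 - η) ≤ (n : ℝ) ^ (2 - min η (1 / 2)) :=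
    Real.rpow_le_rpow_of_exponent_le hnR (by linarith [min_le_left η (1 / 2 : ℝ)])
  linarith

end Pool.Agent.TYP
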