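import Mathlib
import Pool.Agent.TYP.Defs

/-!
TYP module SF: cyclic shifts of the rows, and passing to Latin rectangles.

`exists_shift`: `∑_{s : Fin n} |{p ∈ I : (p.1 - s).val < k}| = k |I|` (for each `p` exactly `k` of the
`s` are good, `s ↦ p.1 - s` is a bijection of `Fin n` and `k ≤ n`); so some `s` has at least `k |I| / n`.
-/

set_option linter.dupNamespace false
set_option linter.unusedVariables false

namespace Pool.Agent.TYP

open Finset

theorem exists_shift (n k : ℕ) [NeZero n] (hk : k ≤ n) (I : Finset (Fin n × Fin n)) :
    ∃ s : Fin n, k * I.card ≤ n * (I.filter (fun p => (p.1 - s).val < k)).card := by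
  classical
  have hcnt : ∀ x : Fin n, (univ.filter (fun s : Fin n => (x - s).val < k)).card = k := by
    intro x
    have h1 : (univ.filter (fun s : Fin n => (x - s).val < k)).card
        = (univ.filter (fun t : Fin n => t.val < k)).card := by
      apply Finset.card_bij (fun s _ => x - s)
      · intro s hs
        simpa using hs
      · intro a _ b _ hab
        exact sub_right_injective hab
      · intro t ht
        refine ⟨x - t, ?_, ?_⟩
        · simpa using ht
        · simp
    rw [h1]
    have h2 : (univ.filter (fun t : Fin n => t.val < k))
        = (univ : Finset (Fin k)).image (Fin.castLE hk) := by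
      ext t
      simp only [Finset.mem_filter, Finset.mem_univ, true_and, Finset.mem_image]
      constructor
      · intro h
        exact ⟨⟨t.val, h⟩, by ext; simp⟩
      · rintro ⟨a, rfl⟩
        simp
    rw [h2, Finset.card_image_of_injective _ (Fin.castLE_injective hk), Finset.card_univ,
      Fintype.card_fin]
  have hsum : ∑ s : Fin n, (I.filter (fun p => (p.1 - s).val < k)).card = k * I.card := by
    simp only [Finset.card_filter]
    rw [Finset.sum_comm]
    have : ∀ p ∈ I, ∑ s : Fin n, (if (p.1 - s).val < k then 1 else 0) = k := by
      intro p _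
      rw [← Finset.card_filter]
      exact hcnt p.1
    rw [Finset.sum_congr rfl this, Finset.sum_const, smul_eq_mul, mul_comm]
  by_contra hcon
  push Not at hcon
  have hne : (univ : Finset (Fin n)).Nonempty := ⟨0, Finset.mem_univ _⟩
  have hlt : ∑ s : Fin n, n * (I.filter (fun p => (p.1 - s).val < k)).card
      < ∑ s : Fin n, k * I.card :=
    Finset.sum_lt_sum_of_nonempty hne (fun s _ => hcon s)
  rw [← Finset.mul_sum, hsum, Finset.sum_const, Finset.card_univ, Fintype.card_fin,
    smul_eq_mul] at hlt
  exact lt_irrefl _ hlt

end Pool.Agent.TYP
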