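import Mathlib
import Pool.Agent.TYP.Defs

/-!
TYP module SG: strips span at most `e + 3`.

Suppose some nondegenerate `ω` has all `strip e k n ω j ∈ Q`. Let
`T = univ.image (fun j => (Fin.castLE hk (strip ω j).1, (strip ω j).2.1))`. The map is injective:
equal rows give `j % 2 = j' % 2` (`ω.1` is injective), equal columns give `j / 2 = j' / 2` (`ω.2.1`
is injective), so `j = j'`. So `|T| = e`, and `T ⊆ I` by `hQ`. The rows of `T` are among the images
of the `2` values of `ω.1`, the columns among the `(e+1)/2` values of `ω.2.1`, and the symbols are,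
by `hQ`, among the `e/2+1` values of `ω.2.2`. So `span L T ≤ 2 + (e+1)/2 + (e/2+1) = e + 3`,
against `hS T`.
-/

set_option linter.dupNamespace false
set_option linter.unusedVariables false

namespace Pool.Agent.TYP

open Finset

theorem strip_geometry (e n k : ℕ) (hk : k ≤ n) (L : Fin n → Fin n → Fin n)
    (I : Finset (Fin n × Fin n)) (hS : Sparse e L I) (Q : Finset (Cell3 k n))
    (hQ : ∀ p ∈ Q, (Fin.castLE hk p.1, p.2.1) ∈ I ∧ L (Fin.castLE hk p.1) p.2.1 = p.2.2) :
    StripFree e k n Q := by
  classical
  intro ω hω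
  by_contra hcon
  push Not at hcon
  obtain ⟨h1, h2, h3⟩ : Function.Injective ω.1 ∧ Function.Injective ω.2.1 ∧
    Function.Injective ω.2.2 := by
    simpa [nondeg] using hω
  set f : Fin e → Fin n × Fin n :=
    fun j => (Fin.castLE hk (strip e k n ω j).1, (strip e k n ω j).2.1) with hf
  have hfinj : Function.Injective f := by
    intro j j' hjj
    simp only [hf, strip, Prod.mk.injEq] at hjj
    obtain ⟨ha, hb⟩ := hjj
    have ha' := h1 (Fin.castLE_injective hk ha)
    have hb' := h2 hb
    simp only [Fin.mk.injEq] at ha' hb'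
    apply Fin.ext
    omega
  set T : Finset (Fin n × Fin n) := univ.image f with hT
  have hTc : T.card = e := by
    rw [hT, Finset.card_image_of_injective _ hfinj, Finset.card_univ, Fintype.card_fin]
  have hTI : T ⊆ I := by
    intro p hp
    rw [hT, Finset.mem_image] at hp
    obtain ⟨j, -, rfl⟩ := hp
    exact (hQ _ (hcon j)).1
  have hsp := hS T hTI hTc
  have hrow : (T.image Prod.fst).card ≤ 2 := by
    have : T.image Prod.fst ⊆ (univ : Finset (Fin 2)).image (fun i => Fin.castLE hk (ω.1 i)) := by
      intro x hx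
      rw [Finset.mem_image] at hx
      obtain ⟨p, hp, rfl⟩ := hx
      rw [hT, Finset.mem_image] at hp
      obtain ⟨j, -, rfl⟩ := hp
      exact Finset.mem_image.2 ⟨_, Finset.mem_univ _, rfl⟩
    calc (T.image Prod.fst).card ≤ _ := Finset.card_le_card this
      _ ≤ (univ : Finset (Fin 2)).card := Finset.card_image_le
      _ = 2 := by simp
  have hcol : (T.image Prod.snd).card ≤ (e + 1) / 2 := by
    have : T.image Prod.snd ⊆ (univ : Finset (Fin ((e + 1) / 2))).image ω.2.1 := by
      intro x hx
      rw [Finset.mem_image] at hx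
      obtain ⟨p, hp, rfl⟩ := hx
      rw [hT, Finset.mem_image] at hp
      obtain ⟨j, -, rfl⟩ := hp
      exact Finset.mem_image.2 ⟨_, Finset.mem_univ _, rfl⟩
    calc (T.image Prod.snd).card ≤ _ := Finset.card_le_card this
      _ ≤ (univ : Finset (Fin ((e + 1) / 2))).card := Finset.card_image_le
      _ = (e + 1) / 2 := by simp
  have hsym : (T.image (fun p => L p.1 p.2)).card ≤ e / 2 + 1 := by
    have : T.image (fun p => L p.1 p.2) ⊆
        (univ : Finset (Fin (e / 2 + 1))).image ω.2.2 := by
      intro x hx
      rw [Finset.mem_image] at hx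
      obtain ⟨p, hp, rfl⟩ := hx
      rw [hT, Finset.mem_image] at hp
      obtain ⟨j, -, rfl⟩ := hp
      have hL := (hQ _ (hcon j)).2
      simp only [hf]
      rw [hL]
      exact Finset.mem_image.2 ⟨_, Finset.mem_univ _, rfl⟩
    calc (T.image (fun p => L p.1 p.2)).card ≤ _ := Finset.card_le_card this
      _ ≤ (univ : Finset (Fin (e / 2 + 1))).card := Finset.card_image_le
      _ = e / 2 + 1 := by simp
  unfold span at hsp
  omega

end Pool.Agent.TYP
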