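import Mathlib
import Pool.Agent.TYP.Defs
import Pool.Agent.TYP.Shift
import Pool.Agent.TYP.StripGeo

/-!
TYP module RD: from Latin squares to the first `k` rows.

`card_latin_eq`: `L ↦ (fun i => Equiv.ofBijective (L i) _)` is a bijection from the Latin squares
to `Rect n n` (column injectivity of `L` is the pairwise disagreement of the rows).

`card_bad_latin_le`: to a bad `L` with its set `I` take `s` from `exists_shift`; the shifted square
`L' i x = L (i + s) x` is Latin, let `A : Fin n → Equiv.Perm (Fin n)` be its rows, `A ∈ Rect n n`. Let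
`Q₀ = {(i,x,A i x) : i < k, (i + s, x) ∈ I}` (as a subset of `Cell3 k n`); `|Q₀| ≥ k |I| / n > m - 1`, so
`|Q₀| ≥ m`; take `Q ⊆ Q₀` with `|Q| = m`. `Q` is strip-free: `I' = {(i,x) : (i+s,x) ∈ I}` is sparse
for `L'` (shifting back is a bijection which preserves the spans: it maps `T ⊆ I'` to
`{(i+s,x) : (i,x) ∈ T} ⊆ I`), apply `strip_geometry` with `L'`, `I'`. The map `L ↦ (s, A)` is injective
(`L i = A (i - s)`), and there are `n` values of `s`. So the number of bad `L` is at most `n` times the
number of bad `A`.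
-/

set_option linter.dupNamespace false
set_option linter.unusedVariables false

namespace Pool.Agent.TYP

open Finset

/-- The rows of a Latin square as permutations (the identity if `L` is not Latin). -/
noncomputable def rowsOf {n : ℕ} (L : Fin n → Fin n → Fin n) (h : IsLatin L) :
    Fin n → Equiv.Perm (Fin n) :=
  fun i => Equiv.ofBijective (L i) (Finite.injective_iff_bijective.1 (h.1 i))

lemma rowsOf_apply {n : ℕ} (L : Fin n → Fin n → Fin n) (h : IsLatin L) (i x : Fin n) :
    rowsOf L h i x = L i x := rfl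

lemma rowsOf_mem {n : ℕ} (L : Fin n → Fin n → Fin n) (h : IsLatin L) : rowsOf L h ∈ Rect n n := by
  unfold Rect
  rw [Finset.mem_filter]
  refine ⟨Finset.mem_univ _, ?_⟩
  intro i i' hii x hx
  rw [rowsOf_apply, rowsOf_apply] at hx
  exact hii (h.2 x hx)

lemma isLatin_of_mem {n : ℕ} (A : Fin n → Equiv.Perm (Fin n)) (h : A ∈ Rect n n) :
    IsLatin (fun i x => A i x) := by
  unfold Rect at h
  rw [Finset.mem_filter] at h
  refine ⟨fun i => (A i).injective, ?_⟩
  intro x i i' hii
  by_contra hne
  exact h.2 i i' hne x hii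

open Classical in
theorem card_latin_eq (n : ℕ) :
    ((univ : Finset (Fin n → Fin n → Fin n)).filter (fun L => IsLatin L)).card
      = (Rect n n).card := by
  apply Finset.card_bij (fun L hL => rowsOf L (Finset.mem_filter.1 hL).2)
  · intro L hL
    exact rowsOf_mem L _
  · intro L₁ h₁ L₂ h₂ h
    funext i x
    have h3 := congrArg (fun A => A i x) h
    exact h3
  · intro A hA
    refine ⟨fun i x => A i x, Finset.mem_filter.2 ⟨Finset.mem_univ _, isLatin_of_mem A hA⟩, ?_⟩
    funext i
    ext x
    rfl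

/-- Cyclic shift of the rows. -/
def shiftL {n : ℕ} [NeZero n] (L : Fin n → Fin n → Fin n) (s : Fin n) : Fin n → Fin n → Fin n :=
  fun i x => L (i + s) x

lemma shiftL_latin {n : ℕ} [NeZero n] (L : Fin n → Fin n → Fin n) (s : Fin n) (h : IsLatin L) :
    IsLatin (shiftL L s) := by
  refine ⟨fun i => h.1 (i + s), ?_⟩
  intro x i i' hii
  have h1 := h.2 x hii
  exact add_right_cancel h1

lemma shift_sparse {n : ℕ} [NeZero n] (e : ℕ) (L : Fin n → Fin n → Fin n) (s : Fin n)
    (I : Finset (Fin n × Fin n)) (h : Sparse e L I) :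
    Sparse e (shiftL L s) (univ.filter (fun p : Fin n × Fin n => (p.1 + s, p.2) ∈ I)) := by
  intro T hT hTe
  have hinj : Function.Injective (fun p : Fin n × Fin n => (p.1 + s, p.2)) := by
    rintro ⟨a, b⟩ ⟨a', b'⟩ hab
    simp only [Prod.mk.injEq] at hab
    obtain ⟨h1, h2⟩ := hab
    exact Prod.ext (add_right_cancel h1) h2
  have h1 : T.image (fun p : Fin n × Fin n => (p.1 + s, p.2)) ⊆ I := by
    intro q hq
    obtain ⟨p, hp, rfl⟩ := Finset.mem_image.1 hq
    exact (Finset.mem_filter.1 (hT hp)).2
  have h2 := h _ h1 (by rw [Finset.card_image_of_injective _ hinj, hTe])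
  refine lt_of_lt_of_le h2 ?_
  unfold span
  rw [Finset.image_image, Finset.image_image, Finset.image_image]
  refine Nat.add_le_add (Nat.add_le_add ?_ ?_) ?_
  · have h3 : T.image (Prod.fst ∘ fun p : Fin n × Fin n => (p.1 + s, p.2))
        = (T.image Prod.fst).image (fun i => i + s) := by
      rw [Finset.image_image]; rfl
    rw [h3]
    exact Finset.card_image_le
  · exact le_of_eq rfl
  · exact le_of_eq rfl

open Classical in
theorem card_bad_latin_le (e n k m : ℕ) (hn : 1 ≤ n) (hk : k ≤ n) :
    ((univ : Finset (Fin n → Fin n → Fin n)).filter (fun L => IsLatin L ∧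
      ∃ I : Finset (Fin n × Fin n), (m : ℝ) - 1 < k * (I.card : ℝ) / n ∧ Sparse e L I)).card
    ≤ n * ((Rect n n).filter (fun A => ∃ Q : Finset (Cell3 k n), Q.card = m ∧ StripFree e k n Q ∧
        ∀ p ∈ Q, A (Fin.castLE hk p.1) p.2.1 = p.2.2)).card := by
  have : NeZero n := ⟨by omega⟩
  set R := ((Rect n n).filter (fun A => ∃ Q : Finset (Cell3 k n), Q.card = m ∧
    StripFree e k n Q ∧ ∀ p ∈ Q, A (Fin.castLE hk p.1) p.2.1 = p.2.2)) with hR
  have hcard : ((univ : Finset (Fin n)) ×ˢ R).card = n * R.card := by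
    rw [Finset.card_product, Finset.card_univ, Fintype.card_fin]
  rw [← hcard]
  -- the reverse map
  set back : Fin n × (Fin n → Equiv.Perm (Fin n)) → (Fin n → Fin n → Fin n) :=
    fun q i x => q.2 (i - q.1) x with hback
  have hsub : ((univ : Finset (Fin n → Fin n → Fin n)).filter (fun L => IsLatin L ∧
      ∃ I : Finset (Fin n × Fin n), (m : ℝ) - 1 < k * (I.card : ℝ) / n ∧ Sparse e L I)) ⊆
      ((univ : Finset (Fin n)) ×ˢ R).image back := by
    intro L hL
    rw [Finset.mem_filter] at hL
    obtain ⟨-, hLat, I, hI, hS⟩ := hL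
    obtain ⟨s, hs⟩ := exists_shift n k hk I
    have hLat' := shiftL_latin L s hLat
    have hS' := shift_sparse e L s I hS
    set I' := univ.filter (fun p : Fin n × Fin n => (p.1 + s, p.2) ∈ I) with hI'
    -- the cells in the first rows
    set Q₀ : Finset (Cell3 k n) := univ.filter (fun p : Cell3 k n =>
      (Fin.castLE hk p.1, p.2.1) ∈ I' ∧ shiftL L s (Fin.castLE hk p.1) p.2.1 = p.2.2) with hQ₀
    have hQcard : (I.filter (fun p => (p.1 - s).val < k)).card ≤ Q₀.card := by
      have hcov : I.filter (fun p => (p.1 - s).val < k) ⊆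
          Q₀.image (fun p : Cell3 k n => (Fin.castLE hk p.1 + s, p.2.1)) := by
        intro p hp
        rw [Finset.mem_filter] at hp
        obtain ⟨hpI, hpk⟩ := hp
        have h1 : Fin.castLE hk (⟨(p.1 - s).val, hpk⟩ : Fin k) = p.1 - s := by
          ext
          rfl
        have h2 : p.1 - s + s = p.1 := sub_add_cancel _ _
        rw [Finset.mem_image]
        refine ⟨(⟨(p.1 - s).val, hpk⟩, p.2, shiftL L s (p.1 - s) p.2), ?_, ?_⟩
        · rw [hQ₀, Finset.mem_filter, hI', Finset.mem_filter]
          simp only [h1, h2]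
          exact ⟨Finset.mem_univ _, ⟨Finset.mem_univ _, hpI⟩, trivial⟩
        · simp only [h1, h2]
      exact (Finset.card_le_card hcov).trans Finset.card_image_le
    have hnR : (0 : ℝ) < n := by exact_mod_cast hn
    have hm : m ≤ Q₀.card := by
      have h1 : (k : ℝ) * (I.card : ℝ) ≤ n * ((I.filter (fun p => (p.1 - s).val < k)).card : ℝ) := by
        exact_mod_cast hs
      have h2 : (k : ℝ) * (I.card : ℝ) / n ≤ ((I.filter (fun p => (p.1 - s).val < k)).card : ℝ) := by
        rw [div_le_iff₀ hnR]
        linarith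
      have h3 : ((I.filter (fun p => (p.1 - s).val < k)).card : ℝ) ≤ (Q₀.card : ℝ) := by
        exact_mod_cast hQcard
      have h4 : (m : ℝ) < (Q₀.card : ℝ) + 1 := by linarith
      have h5 : m < Q₀.card + 1 := by exact_mod_cast h4
      omega
    obtain ⟨Q, hQQ₀, hQm⟩ := Finset.exists_subset_card_eq hm
    have hQprop : ∀ p ∈ Q, (Fin.castLE hk p.1, p.2.1) ∈ I' ∧
        shiftL L s (Fin.castLE hk p.1) p.2.1 = p.2.2 := fun p hp =>
      (Finset.mem_filter.1 (hQQ₀ hp)).2
    rw [Finset.mem_image]
    refine ⟨(s, rowsOf (shiftL L s) hLat'), ?_, ?_⟩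
    · rw [Finset.mem_product]
      refine ⟨Finset.mem_univ _, ?_⟩
      rw [hR, Finset.mem_filter]
      refine ⟨rowsOf_mem (shiftL L s) hLat', Q, hQm, ?_, ?_⟩
      · exact strip_geometry e n k hk (shiftL L s) I' hS' Q hQprop
      · intro p hp
        exact (hQprop p hp).2
    · funext i x
      show L (i - s + s) x = L i x
      rw [sub_add_cancel]
  exact (Finset.card_le_card hsub).trans Finset.card_image_le

end Pool.Agent.TYP
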