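import Mathlib
import Pool.Agent.TYP.Defs

/-!
TYP module CA: degrees in the grown hypergraph.

`grow_sub`: induction on `S` (`allowed` is a subset of `A`, and its members have coordinate `t`
equal to `v`).

`grow_degB`. Put `N = |V|`, `θ ℓ = D τ^ℓ h / N` (this is `thr`), `G = grow .. S`. Claim: for every
nonempty `J` with all `j ∈ J` larger than `t` and every `ω`, `deg π G J ω ≤ 2 D τ^|J| h / N`.
Induction on `S`. `S = []`: the degree is `0`. `v :: S`: let `G = grow S`, `d = deg π G J ω`.
If `θ |J| ≤ d` then nothing in `allowed .. G v` agrees with `ω` on `J` (such an `ω'` has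
`deg π G J ω' = deg π G J ω`, so it is blocked by `J`), so the degree does not change. Otherwise
`d < θ |J|`, and either no element of `allowed .. G v` agrees with `ω` on `J` (the degree does not
change) or one does, call it `ω₁`; all elements of `allowed .. G v` agreeing with `ω` on `J` agree
with `ω₁` on `insert t J` (coordinate `t` is `v`), so there are at most
`deg π A (insert t J) ω₁ ≤ D τ^(|J|+1-1) h / N = θ |J|` of them (`hA`; `t ∉ J`,
`|insert t J| = |J| + 1`). In all cases the new degree is at most `2 θ |J|`.

Finally `2 D τ^|J| h / N = 2^(e+3) D τ^(|J|-1) (τ h / 2^(e+2)) / N` since `|J| ≥ 1`, and the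
condition `t + 1 ≤ j.val` is `t < j`.
-/

set_option linter.dupNamespace false
set_option linter.unusedVariables false

namespace Pool.Agent.TYP

open Finset

variable {V Ω : Type*} [Fintype V] [DecidableEq V] [Fintype Ω] [DecidableEq Ω] {e : ℕ}

private theorem mem_allowed (π : Ω → Fin e → V) (t : Fin e) (θ : ℕ → ℝ) (A G : Finset Ω) (v : V)
    (ω : Ω) : ω ∈ allowed π t θ A G v ↔ ω ∈ A ∧ π ω t = v ∧ ω ∉ G ∧ ¬ Blocked π t θ G ω := by
  classical
  rw [allowed, Finset.mem_filter]

theorem grow_sub (π : Ω → Fin e → V) (t : Fin e) (θ : ℕ → ℝ) (A : Finset Ω) (S : List V) (ω : Ω)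
    (hω : ω ∈ grow π t θ A S) : ω ∈ A ∧ π ω t ∈ S := by
  induction S with
  | nil => simp [grow] at hω
  | cons v S ih =>
    rw [grow, Finset.mem_union] at hω
    rcases hω with h | h
    · obtain ⟨h1, h2⟩ := ih h
      exact ⟨h1, List.mem_cons_of_mem _ h2⟩
    · rw [mem_allowed] at h
      exact ⟨h.1, by rw [h.2.1]; exact List.mem_cons_self⟩

private theorem deg_union (π : Ω → Fin e → V) (G H : Finset Ω) (J : Finset (Fin e)) (ω : Ω) :
    deg π (G ∪ H) J ω ≤ deg π G J ω + deg π H J ω := by
  unfold deg
  rw [Finset.filter_union]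
  exact Finset.card_union_le _ _

private theorem deg_congr (π : Ω → Fin e → V) (G : Finset Ω) (J : Finset (Fin e)) {ω ω' : Ω}
    (h : ∀ j ∈ J, π ω' j = π ω j) : deg π G J ω' = deg π G J ω := by
  unfold deg
  congr 1
  refine Finset.filter_congr fun a _ => ?_
  constructor
  · intro h1 j hj
    rw [h1 j hj, h j hj]
  · intro h1 j hj
    rw [h1 j hj, h j hj]

private theorem grow_claim (π : Ω → Fin e → V) (A : Finset Ω) (t : Fin e) {D τ h : ℝ} (hD : 0 < D)
    (hτ : 0 < τ) (hh : 0 < h) (hA : DegB π A t.val D τ h) (S : List V) (J : Finset (Fin e))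
    (hJ : J.Nonempty) (hJt : ∀ j ∈ J, t < j) (ω : Ω) :
    (deg π (grow π t (thr V D τ h) A S) J ω : ℝ) ≤ 2 * thr V D τ h J.card := by
  have hθ : 0 ≤ thr V D τ h J.card := by
    unfold thr; positivity
  induction S with
  | nil =>
    have h0 : deg π (grow π t (thr V D τ h) A []) J ω = 0 := by simp [grow, deg]
    rw [h0, Nat.cast_zero]
    linarith
  | cons v S ih =>
    set G := grow π t (thr V D τ h) A S with hG
    have e1 : grow π t (thr V D τ h) A (v :: S) = G ∪ allowed π t (thr V D τ h) A G v := by
      rw [grow]
    rw [e1]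
    have h1 : (deg π (G ∪ allowed π t (thr V D τ h) A G v) J ω : ℝ)
        ≤ deg π G J ω + deg π (allowed π t (thr V D τ h) A G v) J ω := by
      exact_mod_cast deg_union π G _ J ω
    rcases le_or_gt (thr V D τ h J.card) (deg π G J ω : ℝ) with hcase | hcase
    · have h2 : deg π (allowed π t (thr V D τ h) A G v) J ω = 0 := by
        unfold deg
        rw [Finset.card_eq_zero, Finset.filter_eq_empty_iff]
        intro ω' hω' hagree
        rw [mem_allowed] at hω'
        apply hω'.2.2.2
        refine ⟨J, hJ, hJt, ?_⟩
        rw [deg_congr π G J hagree]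
        exact hcase
      rw [h2, Nat.cast_zero] at h1
      linarith
    · have h2 : (deg π (allowed π t (thr V D τ h) A G v) J ω : ℝ) ≤ thr V D τ h J.card := by
        rcases Finset.eq_empty_or_nonempty ((allowed π t (thr V D τ h) A G v).filter
          (fun ω' => ∀ j ∈ J, π ω' j = π ω j)) with hemp | ⟨ω₁, hω₁⟩
        · have : deg π (allowed π t (thr V D τ h) A G v) J ω = 0 := by
            unfold deg
            rw [hemp, Finset.card_empty]
          rw [this, Nat.cast_zero]
          exact hθ
        · rw [Finset.mem_filter] at hω₁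
          have ht1 : π ω₁ t = v := by
            have := hω₁.1
            rw [mem_allowed] at this
            exact this.2.1
          have htJ : t ∉ J := fun h => lt_irrefl _ (hJt t h)
          have h3 : deg π (allowed π t (thr V D τ h) A G v) J ω
              ≤ deg π A (insert t J) ω₁ := by
            unfold deg
            refine Finset.card_le_card fun ω' hω' => ?_
            rw [Finset.mem_filter] at hω' ⊢
            have h4 := hω'.1
            rw [mem_allowed] at h4
            refine ⟨h4.1, fun j hj => ?_⟩
            rcases Finset.mem_insert.1 hj with rfl | hj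
            · rw [h4.2.1, ht1]
            · rw [hω'.2 j hj, hω₁.2 j hj]
          have h5 := hA (insert t J) (Finset.insert_nonempty _ _) (by
            intro j hj
            rcases Finset.mem_insert.1 hj with rfl | hj
            · exact le_rfl
            · exact (hJt j hj).le) ω₁
          rw [Finset.card_insert_of_notMem htJ, Nat.add_sub_cancel] at h5
          have h6 : (deg π (allowed π t (thr V D τ h) A G v) J ω : ℝ)
              ≤ (deg π A (insert t J) ω₁ : ℝ) := by exact_mod_cast h3
          exact h6.trans h5
      linarith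

theorem grow_degB (π : Ω → Fin e → V) (A : Finset Ω) (t : Fin e) {D τ h : ℝ} (hD : 0 < D)
    (hτ : 0 < τ) (hh : 0 < h) (hA : DegB π A t.val D τ h) (S : List V) :
    DegB π (grow π t (thr V D τ h) A S) (t.val + 1) (2 ^ (e + 3) * D) τ (τ * h / 2 ^ (e + 2)) := by
  intro J hJ hJt ω
  refine (grow_claim π A t hD hτ hh hA S J hJ (fun j hj => hJt j hj) ω).trans (le_of_eq ?_)
  have hc : J.card = (J.card - 1) + 1 := by
    have := Finset.card_pos.2 hJ
    omega
  unfold thr
  conv_lhs => rw [hc]
  rw [pow_succ τ (J.card - 1), pow_succ 2 (e + 2)]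
  have h2 : (2 : ℝ) ^ (e + 2) ≠ 0 := by positivity
  field_simp

end Pool.Agent.TYP
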