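import Mathlib
import Pool.Agent.TYP.Defs

/-!
TYP module CB: few blocked labels, many vertices with a large allowed set.

`N = |V|`, `θ = thr V D τ h`, i.e. `θ ℓ = D τ^ℓ h / N > 0`.

`card_blocked_le`: for a nonempty `J` with all `j ∈ J` larger than `t` let
`X_J = {ω ∈ A : θ |J| ≤ deg π G J ω}`. Count the pairs `(ω, ω') ∈ X_J × G` which agree on `J`:
summing over `ω` first there are at least `θ |J| * |X_J|`; summing over `ω'` first there are at most
`∑_{ω' ∈ G} deg π A J ω' ≤ |G| D τ^(|J|-1) h / N`. So `|X_J| ≤ |G| / τ`. The blocked elements of `A`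
are the union of the `X_J`, at most `2^e` sets `J`.

`many_large`: the sets `allowed π t θ A G x`, `x ∈ V`, are disjoint with union
`{ω ∈ A : ω ∉ G, ω not blocked}`, which has at least
`|A| - |G| - 2^e |G| / τ ≥ h - h/4 - h/4 = h/2` elements (as `|G| < τ h / 2^(e+2)`, `τ ≤ 1`,
`e ≥ 1` because `t : Fin e`). Every set `allowed .. x` is contained in the set of `ω' ∈ A` with
`π ω' t = x`, so it is empty or has at most `D h / N` elements (`hA` with `J = {t}`, at one of its
elements). Let `B` be the set of `x` with `h / (4 N) ≤ |allowed x|`. Then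
`h/2 ≤ ∑_x |allowed x| ≤ |B| D h / N + N * h / (4 N) = |B| D h / N + h/4`, so `|B| ≥ N / (4 D)`.
-/

set_option linter.dupNamespace false
set_option linter.unusedVariables false

namespace Pool.Agent.TYP

open Finset

variable {V Ω : Type*} [Fintype V] [DecidableEq V] [Fintype Ω] [DecidableEq Ω] {e : ℕ}

open Classical in
private theorem card_XJ [Nonempty V] (π : Ω → Fin e → V) (A G : Finset Ω) (t : Fin e) {D τ h : ℝ}
    (hD : 0 < D) (hτ : 0 < τ) (hh : 0 < h) (hA : DegB π A t.val D τ h) (J : Finset (Fin e))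
    (hJ : J.Nonempty) (hJt : ∀ j ∈ J, t < j) :
    ((A.filter (fun ω => thr V D τ h J.card ≤ (deg π G J ω : ℝ))).card : ℝ)
      ≤ (G.card : ℝ) / τ := by
  set X := A.filter (fun ω => thr V D τ h J.card ≤ (deg π G J ω : ℝ)) with hX
  have hN : (0 : ℝ) < Fintype.card V := by exact_mod_cast Fintype.card_pos
  have h1 : (X.card : ℝ) * thr V D τ h J.card ≤ ∑ ω ∈ X, (deg π G J ω : ℝ) := by
    rw [← nsmul_eq_mul]
    refine Finset.card_nsmul_le_sum _ _ _ fun ω hω => ?_
    exact (Finset.mem_filter.1 hω).2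
  have h2 : ∑ ω ∈ X, (deg π G J ω : ℝ)
      = ∑ ω' ∈ G, ((X.filter (fun ω => ∀ j ∈ J, π ω j = π ω' j)).card : ℝ) := by
    have e1 : ∀ ω, (deg π G J ω : ℝ) = ∑ ω' ∈ G, if (∀ j ∈ J, π ω' j = π ω j) then (1 : ℝ) else 0 := by
      intro ω
      unfold deg
      rw [Finset.sum_boole]
    have e2 : ∀ ω', ((X.filter (fun ω => ∀ j ∈ J, π ω j = π ω' j)).card : ℝ)
        = ∑ ω ∈ X, if (∀ j ∈ J, π ω' j = π ω j) then (1 : ℝ) else 0 := by
      intro ω'
      rw [Finset.sum_boole]
      congr 2
      refine Finset.filter_congr fun ω _ => ?_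
      constructor
      · intro h j hj; exact (h j hj).symm
      · intro h j hj; exact (h j hj).symm
    simp only [e1, e2]
    exact Finset.sum_comm
  have h3 : ∑ ω' ∈ G, ((X.filter (fun ω => ∀ j ∈ J, π ω j = π ω' j)).card : ℝ)
      ≤ G.card • (D * τ ^ (J.card - 1) * h / Fintype.card V) := by
    refine Finset.sum_le_card_nsmul _ _ _ fun ω' _ => ?_
    have h4 := hA J hJ (fun j hj => (hJt j hj).le) ω'
    refine le_trans ?_ h4
    unfold deg
    have h5 : (X.filter (fun ω => ∀ j ∈ J, π ω j = π ω' j)).card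
        ≤ (A.filter (fun ω => ∀ j ∈ J, π ω j = π ω' j)).card := by
      refine Finset.card_le_card (Finset.filter_subset_filter _ (Finset.filter_subset _ _))
    exact_mod_cast h5
  rw [nsmul_eq_mul] at h3
  have hc : J.card = (J.card - 1) + 1 := by
    have := Finset.card_pos.2 hJ
    omega
  have h6 : thr V D τ h J.card = (D * τ ^ (J.card - 1) * h / Fintype.card V) * τ := by
    unfold thr
    conv_lhs => rw [hc]
    rw [pow_succ]; ring
  have hpos : 0 < D * τ ^ (J.card - 1) * h / Fintype.card V := by positivity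
  rw [le_div_iff₀ hτ]
  rw [h6] at h1
  have h7 : (X.card : ℝ) * τ * (D * τ ^ (J.card - 1) * h / Fintype.card V)
      ≤ (G.card : ℝ) * (D * τ ^ (J.card - 1) * h / Fintype.card V) := by
    calc (X.card : ℝ) * τ * (D * τ ^ (J.card - 1) * h / Fintype.card V)
        = (X.card : ℝ) * (D * τ ^ (J.card - 1) * h / Fintype.card V * τ) := by ring
      _ ≤ ∑ ω ∈ X, (deg π G J ω : ℝ) := h1
      _ ≤ _ := by rw [h2]; exact h3
  exact le_of_mul_le_mul_right h7 hpos

open Classical in
theorem card_blocked_le [Nonempty V] (π : Ω → Fin e → V) (A G : Finset Ω) (t : Fin e) {D τ h : ℝ}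
    (hD : 0 < D) (hτ : 0 < τ) (hh : 0 < h) (hA : DegB π A t.val D τ h) :
    ((A.filter (fun ω => Blocked π t (thr V D τ h) G ω)).card : ℝ) ≤ 2 ^ e * (G.card : ℝ) / τ := by
  set 𝒥 : Finset (Finset (Fin e)) := univ.filter (fun J => J.Nonempty ∧ ∀ j ∈ J, t < j) with h𝒥
  have h1 : A.filter (fun ω => Blocked π t (thr V D τ h) G ω)
      ⊆ 𝒥.biUnion (fun J => A.filter (fun ω => thr V D τ h J.card ≤ (deg π G J ω : ℝ))) := by
    intro ω hω
    obtain ⟨hωA, J, hJ, hJt, hJd⟩ := Finset.mem_filter.1 hω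
    rw [Finset.mem_biUnion]
    exact ⟨J, Finset.mem_filter.2 ⟨Finset.mem_univ _, hJ, hJt⟩, Finset.mem_filter.2 ⟨hωA, hJd⟩⟩
  have h2 : ((A.filter (fun ω => Blocked π t (thr V D τ h) G ω)).card : ℝ)
      ≤ ∑ J ∈ 𝒥, ((A.filter (fun ω => thr V D τ h J.card ≤ (deg π G J ω : ℝ))).card : ℝ) := by
    exact_mod_cast (Finset.card_le_card h1).trans Finset.card_biUnion_le
  refine h2.trans ?_
  refine (Finset.sum_le_card_nsmul _ _ ((G.card : ℝ) / τ) fun J hJ => ?_).trans ?_
  · obtain ⟨-, hJ1, hJ2⟩ := Finset.mem_filter.1 hJ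
    exact card_XJ π A G t hD hτ hh hA J hJ1 hJ2
  · rw [nsmul_eq_mul, mul_div_assoc]
    refine mul_le_mul_of_nonneg_right ?_ (by positivity)
    have h3 : 𝒥.card ≤ 2 ^ e := by
      refine (Finset.card_le_univ _).trans ?_
      rw [Fintype.card_finset, Fintype.card_fin]
    exact_mod_cast h3

theorem many_large [Nonempty V] (π : Ω → Fin e → V) (A G : Finset Ω) (t : Fin e) {D τ h : ℝ}
    (hD : 0 < D) (hτ : 0 < τ) (hτ1 : τ ≤ 1) (hh : 0 < h) (hAh : h ≤ A.card)
    (hA : DegB π A t.val D τ h) (hG : (G.card : ℝ) < τ * h / 2 ^ (e + 2)) :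
    (Fintype.card V : ℝ) / (4 * D) ≤
      ((univ.filter (fun x : V => h / (4 * Fintype.card V) ≤
        ((allowed π t (thr V D τ h) A G x).card : ℝ))).card : ℝ) := by
  classical
  have hN : (0 : ℝ) < Fintype.card V := by exact_mod_cast Fintype.card_pos
  set N : ℝ := (Fintype.card V : ℝ) with hNdef
  set al : V → Finset Ω := fun x => allowed π t (thr V D τ h) A G x with hal
  -- the union of the allowed sets
  have hsum : ∑ x : V, ((al x).card : ℝ)
      = ((A.filter (fun ω => ω ∉ G ∧ ¬ Blocked π t (thr V D τ h) G ω)).card : ℝ) := by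
    have h1 := Finset.card_eq_sum_card_fiberwise
      (s := A.filter (fun ω => ω ∉ G ∧ ¬ Blocked π t (thr V D τ h) G ω)) (t := univ)
      (f := fun ω => π ω t) (fun _ _ => Finset.mem_coe.2 (Finset.mem_univ _))
    rw [h1]
    push_cast
    refine Finset.sum_congr rfl fun x _ => ?_
    congr 2
    ext ω
    simp only [hal, allowed, Finset.mem_filter]
    tauto
  have hlow : h / 2 ≤ ∑ x : V, ((al x).card : ℝ) := by
    rw [hsum]
    have h1 : A ⊆ (A.filter (fun ω => ω ∉ G ∧ ¬ Blocked π t (thr V D τ h) G ω)) ∪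
        (G ∪ A.filter (fun ω => Blocked π t (thr V D τ h) G ω)) := by
      intro ω hω
      by_cases h2 : ω ∈ G
      · exact Finset.mem_union_right _ (Finset.mem_union_left _ h2)
      · by_cases h3 : Blocked π t (thr V D τ h) G ω
        · exact Finset.mem_union_right _ (Finset.mem_union_right _
            (Finset.mem_filter.2 ⟨hω, h3⟩))
        · exact Finset.mem_union_left _ (Finset.mem_filter.2 ⟨hω, h2, h3⟩)
    have h2 : (A.card : ℝ) ≤ ((A.filter (fun ω => ω ∉ G ∧
        ¬ Blocked π t (thr V D τ h) G ω)).card : ℝ) + ((G.card : ℝ) +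
        ((A.filter (fun ω => Blocked π t (thr V D τ h) G ω)).card : ℝ)) := by
      have h3 := Finset.card_le_card h1
      have h4 := Finset.card_union_le (A.filter (fun ω => ω ∉ G ∧
        ¬ Blocked π t (thr V D τ h) G ω)) (G ∪ A.filter (fun ω => Blocked π t (thr V D τ h) G ω))
      have h5 := Finset.card_union_le G (A.filter (fun ω => Blocked π t (thr V D τ h) G ω))
      have h6 : A.card ≤ (A.filter (fun ω => ω ∉ G ∧
        ¬ Blocked π t (thr V D τ h) G ω)).card + (G.card +
        (A.filter (fun ω => Blocked π t (thr V D τ h) G ω)).card) := by omega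
      exact_mod_cast h6
    have h3 := card_blocked_le π A G t hD hτ hh hA
    have h2pos : (0 : ℝ) < 2 ^ (e + 2) := by positivity
    have h4 : 2 ^ e * (G.card : ℝ) / τ ≤ h / 4 := by
      rw [div_le_iff₀ hτ]
      rw [lt_div_iff₀ h2pos] at hG
      rw [pow_add] at hG
      linarith
    have h5 : (G.card : ℝ) ≤ h / 4 := by
      refine hG.le.trans ?_
      rw [div_le_div_iff₀ h2pos (by norm_num)]
      have h6 : (4 : ℝ) ≤ 2 ^ (e + 2) := by
        rw [pow_add]
        have : (1 : ℝ) ≤ 2 ^ e := one_le_pow₀ (by norm_num)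
        linarith
      have h7 : τ * h ≤ h := by nlinarith
      nlinarith
    linarith
  have hup : ∀ x, ((al x).card : ℝ) ≤ D * h / N := by
    intro x
    rcases Finset.eq_empty_or_nonempty (al x) with hemp | ⟨ω₁, hω₁⟩
    · rw [hemp, Finset.card_empty, Nat.cast_zero]
      positivity
    · have h1 := hA {t} (Finset.singleton_nonempty t) (by
        intro j hj
        rw [Finset.mem_singleton.1 hj]) ω₁
      rw [Finset.card_singleton, Nat.sub_self, pow_zero, mul_one] at h1
      refine le_trans ?_ h1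
      have h2 : (al x).card ≤ deg π A {t} ω₁ := by
        unfold deg
        refine Finset.card_le_card fun ω hω => ?_
        simp only [hal, allowed, Finset.mem_filter] at hω hω₁
        rw [Finset.mem_filter]
        refine ⟨hω.1, fun j hj => ?_⟩
        rw [Finset.mem_singleton.1 hj, hω.2.1, hω₁.2.1]
      exact_mod_cast h2
  set Bs : Finset V := univ.filter (fun x : V => h / (4 * N) ≤ ((al x).card : ℝ)) with hBs
  have hsplit : ∑ x : V, ((al x).card : ℝ) ≤ (Bs.card : ℝ) * (D * h / N) + h / 4 := by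
    rw [← Finset.sum_filter_add_sum_filter_not univ (fun x : V => h / (4 * N) ≤ ((al x).card : ℝ))]
    refine add_le_add ?_ ?_
    · rw [← nsmul_eq_mul]
      exact Finset.sum_le_card_nsmul _ _ _ fun x _ => hup x
    · have h1 : ∑ x ∈ univ.filter (fun x : V => ¬ h / (4 * N) ≤ ((al x).card : ℝ)),
          ((al x).card : ℝ) ≤ (univ.filter (fun x : V => ¬ h / (4 * N) ≤ ((al x).card : ℝ))).card
          • (h / (4 * N)) :=
        Finset.sum_le_card_nsmul _ _ _ fun x hx => (not_le.1 (Finset.mem_filter.1 hx).2).le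
      refine h1.trans ?_
      rw [nsmul_eq_mul]
      have h2 : ((univ.filter (fun x : V => ¬ h / (4 * N) ≤ ((al x).card : ℝ))).card : ℝ) ≤ N := by
        rw [hNdef]
        exact Nat.cast_le.2 (Finset.card_le_univ _)
      calc ((univ.filter (fun x : V => ¬ h / (4 * N) ≤ ((al x).card : ℝ))).card : ℝ)
          * (h / (4 * N)) ≤ N * (h / (4 * N)) := mul_le_mul_of_nonneg_right h2 (by positivity)
        _ = h / 4 := by field_simp
  have hfin : h / 4 ≤ (Bs.card : ℝ) * (D * h / N) := by linarith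
  rw [div_le_iff₀ (by positivity)]
  have h8 : (Bs.card : ℝ) * (D * h / N) = ((Bs.card : ℝ) * D) * h / N := by ring
  rw [h8, le_div_iff₀ hN] at hfin
  have h9 : h * N ≤ h * ((Bs.card : ℝ) * (4 * D)) := by linarith
  exact le_of_mul_le_mul_left h9 hh

end Pool.Agent.TYP
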