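import Mathlib
import Pool.Agent.TYP.Defs

/-!
TYP module CC: the fingerprint.

Call a list `S` of elements of `I` a chain if `S = []`, or `S = v :: S'` with `S'` a chain, `v ∈ I`,
`|grow S'| < g` and `|allowed .. (grow S') v| ≥ β`, where `g = τ h / 2^(e+2)`, `β = h / (4 N)`,
`N = |V|`. Since `allowed .. G v` is disjoint from `G` (its members are not in `G`),
`|grow (v :: S')| = |grow S'| + |allowed .. v| ≥ |grow S'| + β`; so `|grow S| ≥ β |S|` for a chain,
and for a nonempty chain `S = v :: S'` also `β (|S| - 1) ≤ |grow S'| < g`, i.e.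
`|S| < g / β + 1 = τ N / 2^e + 1 ≤ τ N + 1`, so `|S| ≤ ⌊τ N⌋₊ + 1`
(`|S| - 1 ≤ τ N` gives `|S| - 1 ≤ ⌊τ N⌋₊`).
Claim: for every `m` there is a chain which has length `m` or satisfies the conclusion. Induction on
`m`: given a chain `S` of length `m`, if `g ≤ |grow S|` or no `v ∈ I` has `|allowed .. v| ≥ β`, then
`S` satisfies the conclusion, otherwise `v :: S` is a chain of length `m + 1`. For
`m = ⌊τ N⌋₊ + 2` a chain of length `m` does not exist.
-/

set_option linter.dupNamespace false
set_option linter.unusedVariables false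

namespace Pool.Agent.TYP

open Finset

variable {V Ω : Type*} [Fintype V] [DecidableEq V] [Fintype Ω] [DecidableEq Ω] {e : ℕ}

theorem exists_list [Nonempty V] (π : Ω → Fin e → V) (A : Finset Ω) (t : Fin e) (θ : ℕ → ℝ)
    {τ h : ℝ} (hτ : 0 < τ) (hh : 0 < h) (I : Finset V) :
    ∃ S : List V, (∀ v ∈ S, v ∈ I) ∧ S.length ≤ ⌊τ * Fintype.card V⌋₊ + 1 ∧
      (τ * h / 2 ^ (e + 2) ≤ ((grow π t θ A S).card : ℝ) ∨
        (((grow π t θ A S).card : ℝ) < τ * h / 2 ^ (e + 2) ∧
          ∀ v ∈ I, ((allowed π t θ A (grow π t θ A S) v).card : ℝ)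
            < h / (4 * Fintype.card V))) := by
  have hN : (0 : ℝ) < Fintype.card V := by exact_mod_cast Fintype.card_pos
  have hβ : 0 < h / (4 * (Fintype.card V : ℝ)) := by positivity
  set β : ℝ := h / (4 * (Fintype.card V : ℝ)) with hβd
  set g : ℝ := τ * h / 2 ^ (e + 2) with hgd
  -- a chain is short
  have hshort : ∀ k : ℕ, β * k < g → k ≤ ⌊τ * Fintype.card V⌋₊ := by
    intro k hk
    apply Nat.le_floor
    have h1 : (k : ℝ) < g / β := by rw [lt_div_iff₀ hβ]; linarith
    have h2 : g / β = τ * Fintype.card V / 2 ^ e := by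
      rw [hgd, hβd, pow_add]
      field_simp
      ring
    have h3 : τ * Fintype.card V / 2 ^ e ≤ τ * Fintype.card V := by
      apply div_le_self (by positivity)
      exact one_le_pow₀ (by norm_num)
    linarith
  by_contra hno
  push Not at hno
  have hchain : ∀ m : ℕ, ∃ S : List V, (∀ v ∈ S, v ∈ I) ∧ S.length = m ∧
      β * m ≤ ((grow π t θ A S).card : ℝ) ∧ ∀ k : ℕ, m = k + 1 → β * k < g := by
    intro m
    induction m with
    | zero => exact ⟨[], by simp, rfl, by simp, fun k hk => by omega⟩
    | succ m ih =>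
      obtain ⟨S, h1, h2, h3, h4⟩ := ih
      have hlen : S.length ≤ ⌊τ * Fintype.card V⌋₊ + 1 := by
        rw [h2]
        cases m with
        | zero => omega
        | succ k =>
          have := hshort k (h4 k rfl)
          omega
      obtain ⟨h5, h6⟩ := hno S h1 hlen
      obtain ⟨v, hv1, hv2⟩ := h6 h5
      have hdis : Disjoint (grow π t θ A S) (allowed π t θ A (grow π t θ A S) v) := by
        rw [Finset.disjoint_right]
        intro ω hω
        simp only [allowed, Finset.mem_filter] at hω
        exact hω.2.2.1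
      refine ⟨v :: S, ?_, by simp [h2], ?_, ?_⟩
      · intro w hw
        rw [List.mem_cons] at hw
        rcases hw with rfl | hw
        · exact hv1
        · exact h1 w hw
      · have e1 : (grow π t θ A (v :: S)).card = (grow π t θ A S).card +
            (allowed π t θ A (grow π t θ A S) v).card := by
          rw [grow, Finset.card_union_of_disjoint hdis]
        rw [e1]
        push_cast
        nlinarith
      · intro k hk
        have : k = m := by omega
        subst this
        linarith
  obtain ⟨S, h1, h2, h3, h4⟩ := hchain (⌊τ * Fintype.card V⌋₊ + 2)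
  have := hshort (⌊τ * Fintype.card V⌋₊ + 1) (h4 _ rfl)
  omega

end Pool.Agent.TYP
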