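import Mathlib
import Pool.Agent.TYP.Defs
import Pool.Agent.TYP.ContA
import Pool.Agent.TYP.ContB
import Pool.Agent.TYP.ContC

/-!
TYP module CD: one round of the container algorithm.

`N = |V|`, `L = ⌊τ N⌋₊ + 1`. Induction on `r`, for all `t, A, D, h`.

`r = 0`: `t` is the last coordinate. Let `X = A.image (fun ω => π ω t)` and `𝒟 = {X}`. For `ω ∈ A`
there is `j ≥ t` with `π ω j ∉ I`, and `j = t`; so `X` is disjoint from `I`. Every fibre of
`A → X` has at most `D h / N` elements (`hA` with `J = {t}`), so `h ≤ |A| ≤ |X| D h / N`, and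
`|X| ≥ N / D ≥ N / (4 D)`.

`r + 1`: for `f : Fin L → Option V` let `S f = (List.ofFn f).reduceOption`; every list of length at
most `L` is of this form (pad with `none`), and there are `(N + 1)^L` functions `f`. For each `f`
define a family `𝒟 f`, writing `S = S f`, `θ = thr V D τ h`, `G = grow π t θ A S`:
* if `τ h / 2^(e+2) ≤ |G|`: the family given by the induction hypothesis for the next coordinate
  `t + 1`, the set `G`, `D' = 2^(e+3) D`, `h' = τ h / 2^(e+2)` (`grow_degB`);
* otherwise: `{X}` with `X = {x : h / (4 N) ≤ |allowed π t θ A G x|}`.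
In both cases `|𝒟 f| ≤ (N + 1)^(r L)`. Let `𝒟` be the union of all `𝒟 f`.
Given `I`, take `S` from `exists_list` and `f` with `S f = S`. In the first case every `ω ∈ G` is in
`A` and has `π ω t ∈ S ⊆ I` (`grow_sub`), so the `j ≥ t` with `π ω j ∉ I` is not `t`, so it is
`≥ t + 1`, and the induction hypothesis gives `X ∈ 𝒟 f`; note
`4 * 2^((e+3) r) * (2^(e+3) D) = 4 * 2^((e+3)(r+1)) D`, and the labels in `G` are in `A`. In the
second case no `v ∈ I` is in `X`; `|X| ≥ N / (4 D) ≥ N / (4 * 2^((e+3)(r+1)) D)` by `many_large`;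
and for `x ∈ X` the set `allowed .. x` is nonempty (`h > 0`), so `x = π ω t` for some `ω ∈ A`.
-/

set_option linter.dupNamespace false
set_option linter.unusedVariables false

namespace Pool.Agent.TYP

open Finset

variable {V Ω : Type*} [Fintype V] [DecidableEq V] [Fintype Ω] [DecidableEq Ω] {e : ℕ}

private theorem exists_pad (l : List V) : ∀ L : ℕ, l.length ≤ L →
    ∃ f : Fin L → Option V, (List.ofFn f).reduceOption = l := by
  induction l with
  | nil =>
    intro L _
    refine ⟨fun _ => none, ?_⟩
    induction L with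
    | zero => simp
    | succ L ih => rw [List.ofFn_succ, List.reduceOption_cons_of_none]; exact ih (by simp)
  | cons a l ih =>
    intro L hL
    obtain ⟨L', rfl⟩ : ∃ L', L = L' + 1 := ⟨L - 1, by simp at hL; omega⟩
    obtain ⟨f, hf⟩ := ih L' (by simpa using hL)
    refine ⟨Fin.cons (some a) f, ?_⟩
    rw [List.ofFn_succ]
    simp only [Fin.cons_zero, Fin.cons_succ]
    rw [List.reduceOption_cons_of_some, hf]

theorem round [Nonempty V] (π : Ω → Fin e → V) {τ : ℝ} (hτ : 0 < τ) (hτ1 : τ ≤ 1) (r : ℕ) :
    ∀ (t : Fin e), t.val + r + 1 = e → ∀ (A : Finset Ω) (D h : ℝ), 0 < D → 0 < h →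
      h ≤ A.card → DegB π A t.val D τ h →
      ∃ 𝒟 : Finset (Finset V),
        𝒟.card ≤ (Fintype.card V + 1) ^ (r * (⌊τ * Fintype.card V⌋₊ + 1)) ∧
        ∀ I : Finset V, (∀ ω ∈ A, ∃ j, t ≤ j ∧ π ω j ∉ I) →
          ∃ X ∈ 𝒟, Disjoint I X ∧
            (Fintype.card V : ℝ) / (4 * 2 ^ ((e + 3) * r) * D) ≤ X.card ∧
            ∀ x ∈ X, ∃ ω ∈ A, ∃ j, π ω j = x := by
  classical
  have hN : (0 : ℝ) < Fintype.card V := by exact_mod_cast Fintype.card_pos
  induction r with
  | zero =>
    intro t ht A D h hD hh hhA hA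
    refine ⟨{A.image (fun ω => π ω t)}, by simp, fun I hI => ⟨_, mem_singleton_self _, ?_, ?_, ?_⟩⟩
    · rw [Finset.disjoint_left]
      intro x hxI hxX
      obtain ⟨ω, hω, rfl⟩ := mem_image.mp hxX
      obtain ⟨j, hj, hjI⟩ := hI ω hω
      have hjt : j = t := Fin.ext (by
        have h1 := j.isLt
        have h2 : t.val ≤ j.val := hj
        omega)
      subst hjt
      exact hjI hxI
    · set X := A.image (fun ω => π ω t) with hX
      have hsum : (A.card : ℝ) ≤ X.card * (D * h / Fintype.card V) := by
        rw [Finset.card_eq_sum_card_image (fun ω => π ω t) A]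
        push_cast
        rw [← nsmul_eq_mul]
        refine Finset.sum_le_card_nsmul _ _ _ ?_
        intro x hx
        obtain ⟨ω, hω, rfl⟩ := mem_image.mp hx
        have := hA {t} (singleton_nonempty t) (by simp) ω
        simpa [deg] using this
      have h1 : h ≤ X.card * (D * h / Fintype.card V) := hhA.trans hsum
      have h2 : (Fintype.card V : ℝ) ≤ X.card * D := by
        have h3 : h * Fintype.card V ≤ h * (X.card * D) := by
          calc h * Fintype.card V ≤ (X.card * (D * h / Fintype.card V)) * Fintype.card V :=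
                mul_le_mul_of_nonneg_right h1 hN.le
            _ = h * (X.card * D) := by field_simp
        exact le_of_mul_le_mul_left h3 hh
      rw [div_le_iff₀ (by positivity)]
      simp only [mul_zero, pow_zero, mul_one]
      have : (0 : ℝ) ≤ X.card := by positivity
      nlinarith
    · intro x hx
      obtain ⟨ω, hω, rfl⟩ := mem_image.mp hx
      exact ⟨ω, hω, t, rfl⟩
  | succ r ih =>
    intro t ht A D h hD hh hhA hA
    set L := ⌊τ * Fintype.card V⌋₊ + 1 with hL
    set θ := thr V D τ h with hθ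
    let S : (Fin L → Option V) → List V := fun f => (List.ofFn f).reduceOption
    have key : ∀ f : Fin L → Option V, ∃ 𝒟f : Finset (Finset V),
        𝒟f.card ≤ (Fintype.card V + 1) ^ (r * L) ∧
        ∀ I : Finset V, (∀ ω ∈ A, ∃ j, t ≤ j ∧ π ω j ∉ I) → (∀ v ∈ S f, v ∈ I) →
          (τ * h / 2 ^ (e + 2) ≤ ((grow π t θ A (S f)).card : ℝ) ∨
          (((grow π t θ A (S f)).card : ℝ) < τ * h / 2 ^ (e + 2) ∧
          ∀ v ∈ I, ((allowed π t θ A (grow π t θ A (S f)) v).card : ℝ)
            < h / (4 * Fintype.card V))) →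
          ∃ X ∈ 𝒟f, Disjoint I X ∧
            (Fintype.card V : ℝ) / (4 * 2 ^ ((e + 3) * (r + 1)) * D) ≤ X.card ∧
            ∀ x ∈ X, ∃ ω ∈ A, ∃ j, π ω j = x := by
      intro f
      by_cases hsat : τ * h / 2 ^ (e + 2) ≤ ((grow π t θ A (S f)).card : ℝ)
      · obtain ⟨𝒟', hc, h𝒟⟩ := ih ⟨t.val + 1, by omega⟩ (by simp; omega) (grow π t θ A (S f))
          (2 ^ (e + 3) * D) (τ * h / 2 ^ (e + 2)) (by positivity) (by positivity) hsat
          (grow_degB π A t hD hτ hh hA (S f))
        refine ⟨𝒟', hc, fun I hI hSI _ => ?_⟩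
        obtain ⟨X, hX, hd, hcard, hmem⟩ := h𝒟 I (by
          intro ω hω
          obtain ⟨hωA, hωS⟩ := grow_sub π t θ A (S f) ω hω
          obtain ⟨j, hj, hjI⟩ := hI ω hωA
          refine ⟨j, ?_, hjI⟩
          have hne : j ≠ t := by
            intro h; subst h; exact hjI (hSI _ hωS)
          have h2 : t.val ≤ j.val := hj
          have h3 : j.val ≠ t.val := fun h => hne (Fin.ext h)
          show t.val + 1 ≤ j.val
          omega)
        refine ⟨X, hX, hd, ?_, ?_⟩
        · have : (4 * 2 ^ ((e + 3) * (r + 1)) * D : ℝ) = 4 * 2 ^ ((e + 3) * r) * (2 ^ (e + 3) * D) := by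
            rw [mul_add, mul_one, pow_add]; ring
          rw [this]; exact hcard
        · intro x hx
          obtain ⟨ω, hω, j, hj⟩ := hmem x hx
          exact ⟨ω, (grow_sub π t θ A (S f) ω hω).1, j, hj⟩
      · rw [not_le] at hsat
        refine ⟨{univ.filter (fun x : V => h / (4 * Fintype.card V) ≤
          ((allowed π t (thr V D τ h) A (grow π t θ A (S f)) x).card : ℝ))}, ?_, ?_⟩
        · rw [card_singleton]; exact Nat.one_le_pow _ _ (Nat.succ_pos _)
        · intro I hI hSI hor
          refine ⟨_, mem_singleton_self _, ?_, ?_, ?_⟩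
          · rcases hor with h1 | ⟨_, h1⟩
            · exact absurd hsat (not_lt.mpr h1)
            · rw [Finset.disjoint_left]
              intro x hxI hxX
              rw [mem_filter] at hxX
              exact absurd hxX.2 (not_le.mpr (h1 x hxI))
          · refine le_trans ?_ (many_large π A (grow π t θ A (S f)) t hD hτ hτ1 hh hhA hA hsat)
            apply div_le_div_of_nonneg_left hN.le (by positivity)
            have : (1 : ℝ) ≤ 2 ^ ((e + 3) * (r + 1)) := one_le_pow₀ (by norm_num)
            nlinarith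
          · intro x hx
            rw [mem_filter] at hx
            have hpos : (0 : ℝ) < ((allowed π t (thr V D τ h) A (grow π t θ A (S f)) x).card : ℝ) :=
              lt_of_lt_of_le (by positivity) hx.2
            have hpos' : 0 < (allowed π t (thr V D τ h) A (grow π t θ A (S f)) x).card := by
              exact_mod_cast hpos
            obtain ⟨ω, hω⟩ := card_pos.mp hpos'
            unfold allowed at hω
            rw [mem_filter] at hω
            exact ⟨ω, hω.1, t, hω.2.1⟩
    choose 𝒟f h𝒟c h𝒟 using key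
    refine ⟨univ.biUnion 𝒟f, ?_, ?_⟩
    · refine (card_biUnion_le).trans ?_
      refine (Finset.sum_le_card_nsmul _ _ _ (fun f _ => h𝒟c f)).trans ?_
      rw [smul_eq_mul, card_univ, Fintype.card_fun, Fintype.card_option, Fintype.card_fin,
        ← pow_add]
      apply le_of_eq
      congr 1
      ring
    · intro I hI
      obtain ⟨l, hlI, hlL, hor⟩ := exists_list π A t θ hτ hh I
      obtain ⟨f, hf⟩ := exists_pad l L hlL
      have hSf : S f = l := hf
      obtain ⟨X, hX, h1⟩ := h𝒟 f I hI (by rw [hSf]; exact hlI) (by rw [hSf]; exact hor)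
      exact ⟨X, mem_biUnion.mpr ⟨f, mem_univ _, hX⟩, h1⟩

end Pool.Agent.TYP
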