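import Mathlib
import Pool.Agent.TYP.Defs
import Pool.Agent.TYP.ContD

/-!
TYP module CE: containers by iteration.

`N = |V|`, `L = ⌊τ N⌋₊ + 1`, `δ = 1 / (4 * 2^((e+3) e) * D)`, `M = ⌈4 * 2^((e+3) e) * D⌉₊ ≥ 1 / δ`.

Claim: for every `m` there is a finite family `𝒞` with `|𝒞| ≤ (N + 1)^(e L m)` such that every
independent `I` (every `ω ∈ A₀` has a coordinate outside `I`) is contained in some `C ∈ 𝒞` with
`|C| < ε N` or `|C| ≤ N - m δ N`.
`m = 0`: `𝒞 = {univ}`. Step: for `C` with `ε N ≤ |C|` let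
`A_C = A₀.filter (fun ω => ∀ j, π ω j ∈ C)`; it has at least `h` elements by `hsat`, and
`DegB π A_C 0 D τ h` since degrees are monotone in `A`. Apply `round` with `r = e - 1`, `t = 0`,
to get `𝒟 C` with at most `(N + 1)^(e L)` elements; an independent `I ⊆ C` is disjoint from some
`X ∈ 𝒟 C` with `|X| ≥ δ N` (as `2^((e+3)(e-1)) ≤ 2^((e+3) e)`) and `X ⊆ C` (its elements are
`π ω j` with `ω ∈ A_C`), so `I ⊆ C \ X` and `|C \ X| = |C| - |X| ≤ N - m δ N - δ N`. For the other
`C` put `𝒟 C = {∅}`. The new family is `{C \ X : C ∈ 𝒞, X ∈ 𝒟 C}`.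
For `m = M` we have `N - M δ N ≤ 0 < ε N`, so the filter of `𝒞` by `|C| < ε N` works.
-/

set_option linter.dupNamespace false
set_option linter.unusedVariables false

namespace Pool.Agent.TYP

open Finset

variable {V Ω : Type*} [Fintype V] [DecidableEq V] [Fintype Ω] [DecidableEq Ω] {e : ℕ}

private theorem containers_aux [Nonempty V] (he : 0 < e) (π : Ω → Fin e → V) (A₀ : Finset Ω)
    {τ ε h D : ℝ} (hτ : 0 < τ) (hτ1 : τ ≤ 1) (hε : 0 < ε) (hh : 0 < h) (hD : 0 < D)
    (hdeg : DegB π A₀ 0 D τ h)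
    (hsat : ∀ C : Finset V, ε * Fintype.card V ≤ C.card →
      h ≤ ((A₀.filter (fun ω => ∀ j, π ω j ∈ C)).card : ℝ)) (m : ℕ) :
    ∃ 𝒞 : Finset (Finset V),
      𝒞.card ≤ (Fintype.card V + 1) ^ (e * (⌊τ * Fintype.card V⌋₊ + 1) * m) ∧
      ∀ I : Finset V, (∀ ω ∈ A₀, ∃ j, π ω j ∉ I) → ∃ C ∈ 𝒞, I ⊆ C ∧
        ((C.card : ℝ) < ε * Fintype.card V ∨
          (C.card : ℝ) ≤ Fintype.card V - m * (Fintype.card V / (4 * 2 ^ ((e + 3) * e) * D))) := by
  classical
  have hN : (0 : ℝ) < Fintype.card V := by exact_mod_cast Fintype.card_pos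
  induction m with
  | zero =>
    refine ⟨{univ}, by simp, fun I _ => ⟨univ, mem_singleton_self _, subset_univ _, Or.inr ?_⟩⟩
    simp [card_univ]
  | succ m ih =>
    obtain ⟨𝒞, hc, h𝒞⟩ := ih
    set L := ⌊τ * Fintype.card V⌋₊ + 1 with hL
    have key : ∀ C : Finset V, ∃ 𝒟 : Finset (Finset V),
        𝒟.card ≤ (Fintype.card V + 1) ^ (e * L) ∧
        ∀ I : Finset V, (∀ ω ∈ A₀, ∃ j, π ω j ∉ I) → I ⊆ C →
          ((C.card : ℝ) < ε * Fintype.card V ∨
          (C.card : ℝ) ≤ Fintype.card V - m * (Fintype.card V / (4 * 2 ^ ((e + 3) * e) * D))) →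
          ∃ X ∈ 𝒟, I ⊆ C \ X ∧ (((C \ X).card : ℝ) < ε * Fintype.card V ∨
          ((C \ X).card : ℝ) ≤ Fintype.card V -
            ((m + 1 : ℕ) : ℝ) * (Fintype.card V / (4 * 2 ^ ((e + 3) * e) * D))) := by
      intro C
      by_cases hC : ε * Fintype.card V ≤ C.card
      · obtain ⟨𝒟, hcD, h𝒟⟩ := round π hτ hτ1 (e - 1) ⟨0, he⟩ (by simp; omega)
          (A₀.filter (fun ω => ∀ j, π ω j ∈ C)) D h hD hh (hsat C hC) (by
            intro J hJ hJ0 ω
            refine le_trans ?_ (hdeg J hJ (fun j _ => Nat.zero_le _) ω)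
            have : deg π (A₀.filter (fun ω => ∀ j, π ω j ∈ C)) J ω ≤ deg π A₀ J ω := by
              unfold deg
              exact card_le_card (filter_subset_filter _ (filter_subset _ _))
            exact_mod_cast this)
        refine ⟨𝒟, hcD.trans ?_, ?_⟩
        · apply Nat.pow_le_pow_right (Nat.succ_pos _)
          exact Nat.mul_le_mul_right _ (by omega)
        · intro I hI hIC hor
          obtain ⟨X, hX, hd, hcard, hmem⟩ := h𝒟 I (by
            intro ω hω
            rw [mem_filter] at hω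
            obtain ⟨j, hj⟩ := hI ω hω.1
            exact ⟨j, Fin.mk_le_of_le_val (Nat.zero_le _), hj⟩)
          have hXC : X ⊆ C := by
            intro x hx
            obtain ⟨ω, hω, j, hj⟩ := hmem x hx
            rw [mem_filter] at hω
            rw [← hj]; exact hω.2 j
          refine ⟨X, hX, ?_, ?_⟩
          · intro x hx
            rw [mem_sdiff]
            exact ⟨hIC hx, Finset.disjoint_left.mp hd hx⟩
          · have hcs : ((C \ X).card : ℝ) = C.card - X.card := by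
              rw [card_sdiff_of_subset hXC, Nat.cast_sub (card_le_card hXC)]
            have hXl : Fintype.card V / (4 * 2 ^ ((e + 3) * e) * D) ≤ (X.card : ℝ) := by
              refine le_trans ?_ hcard
              apply div_le_div_of_nonneg_left hN.le (by positivity)
              have : (2 : ℝ) ^ ((e + 3) * (e - 1)) ≤ 2 ^ ((e + 3) * e) :=
                pow_le_pow_right₀ (by norm_num) (Nat.mul_le_mul_left _ (by omega))
              nlinarith
            rcases hor with h1 | h1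
            · left
              rw [hcs]
              have : (0 : ℝ) ≤ X.card := by positivity
              linarith
            · right
              rw [hcs]
              push_cast
              linarith
      · rw [not_le] at hC
        refine ⟨{∅}, ?_, ?_⟩
        · rw [card_singleton]; exact Nat.one_le_pow _ _ (Nat.succ_pos _)
        · intro I hI hIC _
          refine ⟨∅, mem_singleton_self _, ?_, Or.inl ?_⟩
          · rw [sdiff_empty]; exact hIC
          · rw [sdiff_empty]; exact hC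
    choose 𝒟 h𝒟c h𝒟 using key
    refine ⟨𝒞.biUnion (fun C => (𝒟 C).image (fun X => C \ X)), ?_, ?_⟩
    · refine (card_biUnion_le).trans ?_
      refine (Finset.sum_le_card_nsmul _ _ _ (fun C _ => card_image_le.trans (h𝒟c C))).trans ?_
      rw [smul_eq_mul]
      refine (Nat.mul_le_mul_right _ hc).trans ?_
      rw [← pow_add]
      apply le_of_eq
      congr 1
    · intro I hI
      obtain ⟨C, hC, hIC, hor⟩ := h𝒞 I hI
      obtain ⟨X, hX, hIX, h1⟩ := h𝒟 C I hI hIC hor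
      exact ⟨C \ X, mem_biUnion.mpr ⟨C, hC, mem_image.mpr ⟨X, hX, rfl⟩⟩, hIX, h1⟩

theorem containers [Nonempty V] (he : 0 < e) (π : Ω → Fin e → V) (A₀ : Finset Ω)
    {τ ε h D : ℝ} (hτ : 0 < τ) (hτ1 : τ ≤ 1) (hε : 0 < ε) (hh : 0 < h) (hD : 0 < D)
    (hdeg : DegB π A₀ 0 D τ h)
    (hsat : ∀ C : Finset V, ε * Fintype.card V ≤ C.card →
      h ≤ ((A₀.filter (fun ω => ∀ j, π ω j ∈ C)).card : ℝ)) :
    ∃ 𝒞 : Finset (Finset V),
      𝒞.card ≤ (Fintype.card V + 1) ^
        (e * (⌊τ * Fintype.card V⌋₊ + 1) * ⌈4 * 2 ^ ((e + 3) * e) * D⌉₊) ∧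
      (∀ C ∈ 𝒞, (C.card : ℝ) < ε * Fintype.card V) ∧
      ∀ I : Finset V, (∀ ω ∈ A₀, ∃ j, π ω j ∉ I) → ∃ C ∈ 𝒞, I ⊆ C := by
  classical
  have hN : (0 : ℝ) < Fintype.card V := by exact_mod_cast Fintype.card_pos
  obtain ⟨𝒞, hc, h𝒞⟩ := containers_aux he π A₀ hτ hτ1 hε hh hD hdeg hsat
    ⌈4 * 2 ^ ((e + 3) * e) * D⌉₊
  refine ⟨𝒞.filter (fun C => (C.card : ℝ) < ε * Fintype.card V), (card_filter_le _ _).trans hc,
    fun C hC => (mem_filter.mp hC).2, ?_⟩
  intro I hI
  obtain ⟨C, hC, hIC, hor⟩ := h𝒞 I hI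
  refine ⟨C, mem_filter.mpr ⟨hC, ?_⟩, hIC⟩
  rcases hor with h1 | h1
  · exact h1
  · have h2 : 4 * 2 ^ ((e + 3) * e) * D ≤ (⌈4 * 2 ^ ((e + 3) * e) * D⌉₊ : ℝ) := Nat.le_ceil _
    have hpos : 0 < 4 * 2 ^ ((e + 3) * e) * D := by positivity
    have h3 : (Fintype.card V : ℝ) ≤ (⌈4 * 2 ^ ((e + 3) * e) * D⌉₊ : ℝ) *
        (Fintype.card V / (4 * 2 ^ ((e + 3) * e) * D)) := by
      calc (Fintype.card V : ℝ) = (4 * 2 ^ ((e + 3) * e) * D) *
            (Fintype.card V / (4 * 2 ^ ((e + 3) * e) * D)) := by field_simp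
        _ ≤ _ := mul_le_mul_of_nonneg_right h2 (by positivity)
    have h4 : (0 : ℝ) < ε * Fintype.card V := by positivity
    linarith

end Pool.Agent.TYP
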