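import Mathlib
import Pool.Agent.TYP.Defs

/-!
TYP module SD: degrees of the strip hypergraph.

Let `J ⊆ Fin e` be nonempty, `R = J.image (· % 2)`, `P = J.image (· / 2)`,
`S = J.image ((· + 1) / 2)` (as finsets of `Fin 2`, `Fin ((e+1)/2)`, `Fin (e/2+1)`). The labels `ω'`
which agree with `ω` on `J` are the triples of functions which agree with `ω.1` on `R`, with
`ω.2.1` on `P` and with `ω.2.2` on `S`. The number of functions `Fin m → Fin n` which agree with a
given one on a set of size `p` is `n^(m-p)` (e.g. `Fintype.piFinset` with singletons on the set). So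
`deg = k^(2-|R|) n^((e+1)/2-|P|) n^((e/2+1)-|S|)`.

Claim `|P| + |S| ≥ |J| + 1`: the map `P → ℕ`, `c ↦ 2c + 1` and the map `S → ℕ`, `s ↦ 2s` are
injective with images of different parity, and the union of the images is `J ∪ (J + 1)`
(for `i` even: `i = 2 * ((i+1)/2)`, `i + 1 = 2 * (i/2) + 1`; for `i` odd: `i = 2 * (i/2) + 1`,
`i + 1 = 2 * ((i+1)/2)`), and `|J ∪ (J+1)| ≥ |J| + 1` because `max J + 1` is not in `J`.
If `|R| = 1`, all elements of `J` have the same parity, so `i ↦ i/2` and `i ↦ (i+1)/2` are injective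
on `J` and `|P| = |S| = |J|`.

If `|R| = 2` then `|J| ≥ 2` and `deg ≤ n^(e+1-(|P|+|S|)) ≤ n^(e-|J|)`.
If `|R| = 1` then `deg = k n^(e+1-2|J|)`, which for `|J| = 1` is `k n^(e-1)`, and for `|J| ≥ 2`,
`k ≤ n` is at most `n^(e+2-2|J|) ≤ n^(e-|J|)`. (`n ≥ 1` since `ω.2.2` has a value in `Fin n`.)
-/

set_option linter.dupNamespace false
set_option linter.unusedVariables false

namespace Pool.Agent.TYP

open Finset

/-- functions which agree with `f` on `S` -/
private def sdAgr {m n : ℕ} (f : Fin m → Fin n) (S : Finset (Fin m)) : Finset (Fin m → Fin n) :=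
  Fintype.piFinset (fun c => if c ∈ S then {f c} else univ)

private lemma sdAgr_card {m n : ℕ} (f : Fin m → Fin n) (S : Finset (Fin m)) :
    (sdAgr f S).card = n ^ (m - S.card) := by
  unfold sdAgr
  rw [Fintype.card_piFinset]
  have h1 : ∀ c : Fin m, (if c ∈ S then ({f c} : Finset (Fin n)) else univ).card =
      if c ∈ S then 1 else n := by
    intro c
    split_ifs
    · exact card_singleton _
    · rw [card_univ, Fintype.card_fin]
  simp_rw [h1]
  rw [prod_ite, prod_const_one, one_mul, prod_const, filter_not, filter_mem_eq_inter,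
    univ_inter, ← compl_eq_univ_sdiff, card_compl, Fintype.card_fin]

private lemma mem_sdAgr {m n : ℕ} {f g : Fin m → Fin n} {S : Finset (Fin m)}
    (h : ∀ c ∈ S, g c = f c) : g ∈ sdAgr f S := by
  unfold sdAgr
  rw [Fintype.mem_piFinset]
  intro c
  split_ifs with hc
  · rw [mem_singleton]
    exact h c hc
  · exact mem_univ _

private def sdR {e : ℕ} (J : Finset (Fin e)) : Finset (Fin 2) :=
  J.image (fun i => ⟨i.val % 2, Nat.mod_lt _ (by norm_num)⟩)

private def sdP {e : ℕ} (J : Finset (Fin e)) : Finset (Fin ((e + 1) / 2)) :=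
  J.image (fun i => ⟨i.val / 2, by have := i.isLt; omega⟩)

private def sdS {e : ℕ} (J : Finset (Fin e)) : Finset (Fin (e / 2 + 1)) :=
  J.image (fun i => ⟨(i.val + 1) / 2, by have := i.isLt; omega⟩)

private lemma sd_deg (e k n : ℕ) (J : Finset (Fin e)) (ω : Om e k n) :
    deg (strip e k n) univ J ω ≤ k ^ (2 - (sdR J).card) *
      (n ^ ((e + 1) / 2 - (sdP J).card) * n ^ (e / 2 + 1 - (sdS J).card)) := by
  rw [← sdAgr_card ω.1 (sdR J), ← sdAgr_card ω.2.1 (sdP J), ← sdAgr_card ω.2.2 (sdS J),
    ← card_product, ← card_product]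
  unfold deg
  refine card_le_card fun ω' hω' => ?_
  rw [mem_filter] at hω'
  obtain ⟨-, h⟩ := hω'
  rw [mem_product, mem_product]
  refine ⟨mem_sdAgr ?_, mem_sdAgr ?_, mem_sdAgr ?_⟩
  · intro c hc
    obtain ⟨i, hi, rfl⟩ := mem_image.mp hc
    exact congrArg Prod.fst (h i hi)
  · intro c hc
    obtain ⟨i, hi, rfl⟩ := mem_image.mp hc
    exact congrArg (fun x => x.2.1) (h i hi)
  · intro c hc
    obtain ⟨i, hi, rfl⟩ := mem_image.mp hc
    exact congrArg (fun x => x.2.2) (h i hi)

private lemma sd_sum {e : ℕ} (J : Finset (Fin e)) (hJ : J.Nonempty) :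
    J.card + 1 ≤ (sdP J).card + (sdS J).card := by
  set M := J.max' hJ with hM
  have hins : (M.val + 1) ∉ J.image (fun i => i.val) := by
    intro h
    obtain ⟨i, hi, h1⟩ := mem_image.mp h
    have h2 : i ≤ M := J.le_max' i hi
    have h3 : i.val ≤ M.val := h2
    omega
  have hsub : insert (M.val + 1) (J.image (fun i => i.val)) ⊆
      ((sdP J).image (fun c => 2 * c.val + 1)) ∪ ((sdS J).image (fun c => 2 * c.val)) := by
    intro x hx
    rw [mem_insert] at hx
    rw [mem_union, mem_image, mem_image]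
    rcases hx with rfl | hx
    · have hMJ : M ∈ J := J.max'_mem hJ
      by_cases hpar : M.val % 2 = 0
      · left
        refine ⟨_, mem_image_of_mem _ hMJ, ?_⟩
        simp only
        omega
      · right
        refine ⟨_, mem_image_of_mem _ hMJ, ?_⟩
        simp only
        omega
    · obtain ⟨i, hi, rfl⟩ := mem_image.mp hx
      by_cases hpar : i.val % 2 = 0
      · right
        refine ⟨_, mem_image_of_mem _ hi, ?_⟩
        simp only
        omega
      · left
        refine ⟨_, mem_image_of_mem _ hi, ?_⟩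
        simp only
        omega
  have h1 := card_le_card hsub
  rw [card_insert_of_notMem hins, card_image_of_injective _ Fin.val_injective] at h1
  refine h1.trans ((card_union_le _ _).trans ?_)
  exact Nat.add_le_add card_image_le card_image_le

private lemma sd_par {e : ℕ} (J : Finset (Fin e)) (hR : (sdR J).card ≤ 1) :
    (sdP J).card = J.card ∧ (sdS J).card = J.card := by
  have hpar : ∀ i ∈ J, ∀ j ∈ J, i.val % 2 = j.val % 2 := by
    intro i hi j hj
    have h1 := card_le_one.mp hR _ (mem_image_of_mem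
      (fun i : Fin e => (⟨i.val % 2, Nat.mod_lt _ (by norm_num)⟩ : Fin 2)) hi) _
      (mem_image_of_mem _ hj)
    exact congrArg Fin.val h1
  constructor
  · unfold sdP
    rw [card_image_of_injOn]
    intro i hi j hj h
    have h1 := congrArg Fin.val h
    simp only at h1
    have := hpar i hi j hj
    apply Fin.ext
    omega
  · unfold sdS
    rw [card_image_of_injOn]
    intro i hi j hj h
    have h1 := congrArg Fin.val h
    simp only at h1
    have := hpar i hi j hj
    apply Fin.ext
    omega

private lemma sd_n {e k n : ℕ} (ω : Om e k n) : 1 ≤ n := by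
  have := (ω.2.2 ⟨0, by omega⟩).isLt
  omega

theorem deg_strip_one (e k n : ℕ) (J : Finset (Fin e)) (hJ : J.card = 1) (ω : Om e k n) :
    deg (strip e k n) univ J ω ≤ k * n ^ (e - 1) := by
  have hne : J.Nonempty := card_pos.mp (by omega)
  have hR : (sdR J).card = 1 := by
    have h1 : (sdR J).card ≤ J.card := card_image_le
    have h2 : 0 < (sdR J).card := card_pos.mpr (hne.image _)
    omega
  obtain ⟨h1, h2⟩ := sd_par J hR.le
  have h3 := sd_deg e k n J ω
  rw [hR, h1, h2, hJ, ← pow_add] at h3
  refine h3.trans (le_of_eq ?_)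
  obtain ⟨i, hi⟩ := hne
  have he := i.isLt
  rw [show 2 - 1 = 1 by norm_num, pow_one]
  congr 2
  omega

theorem deg_strip_ge (e k n : ℕ) (hk : k ≤ n) (J : Finset (Fin e)) (hJ : 2 ≤ J.card)
    (ω : Om e k n) :
    deg (strip e k n) univ J ω ≤ n ^ (e - J.card) := by
  have hn := sd_n ω
  have hne : J.Nonempty := card_pos.mp (by omega)
  have h3 := sd_deg e k n J ω
  have hP : (sdP J).card ≤ (e + 1) / 2 := by
    have := card_le_univ (sdP J)
    rwa [Fintype.card_fin] at this
  have hS : (sdS J).card ≤ e / 2 + 1 := by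
    have := card_le_univ (sdS J)
    rwa [Fintype.card_fin] at this
  refine h3.trans ?_
  by_cases hR : (sdR J).card ≤ 1
  · obtain ⟨h1, h2⟩ := sd_par J hR
    have hR1 : (sdR J).card = 1 := by
      have : 0 < (sdR J).card := card_pos.mpr (hne.image _)
      omega
    rw [hR1, h1, h2, ← pow_add, show 2 - 1 = 1 by norm_num, pow_one]
    calc k * n ^ ((e + 1) / 2 - J.card + (e / 2 + 1 - J.card))
        ≤ n * n ^ ((e + 1) / 2 - J.card + (e / 2 + 1 - J.card)) := Nat.mul_le_mul_right _ hk
      _ = n ^ ((e + 1) / 2 - J.card + (e / 2 + 1 - J.card) + 1) := by rw [pow_succ, mul_comm]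
      _ ≤ n ^ (e - J.card) := Nat.pow_le_pow_right hn (by omega)
  · have hR2 : (sdR J).card = 2 := by
      have := card_le_univ (sdR J)
      rw [Fintype.card_fin] at this
      omega
    have h4 := sd_sum J hne
    rw [hR2, Nat.sub_self, pow_zero, one_mul, ← pow_add]
    exact Nat.pow_le_pow_right hn (by omega)

end Pool.Agent.TYP
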