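import Mathlib
import Pool.Agent.TYP.Defs

/-!
TYP module SH: homomorphism count (Jensen three times).

Write `f r c s = 1` if `(r,c,s) ∈ C` and `0` otherwise, all sums real. The count is
`∑_{c ∈ [n]^a, s ∈ [n]^b} (∑_r ∏_{y,z} f r (c y) (s z))^2` since
`∏_{x ∈ Fin 2} ∏_{y,z} f (r x) (c y) (s z)` summed over `r : Fin 2 → Fin k` is the square of the sum
over one `r`. By Cauchy-Schwarz (`sq_sum_le_card_mul_sum_sq`) it is at least
`(∑_r ∑_{c,s} ∏_{y,z} f r (c y) (s z))^2 / n^(a+b)`.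

For fixed `r` (`hom2`): with `w s = ∑_c f r c s` (number of `c` with `(r,c,s) ∈ C`),
`∑_{c,s} ∏_{y,z} f r (c y) (s z) = ∑_{c ∈ [n]^a} (∑_s ∏_y f r (c y) s)^b
   ≥ (∑_{c ∈ [n]^a} ∑_s ∏_y f r (c y) s)^b / (n^a)^(b-1)` (power mean,
`inv_... pow_sum_div_card_le_sum_pow`; for `b = 0` both sides are the number of terms, treat `b = 0`
separately: the count is `n^a`), and
`∑_{c ∈ [n]^a} ∑_s ∏_y f r (c y) s = ∑_s (w s)^a ≥ (∑_s w s)^a / n^(a-1)` (again power mean, `a = 0`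
separately). With `d_r = (∑_s w s) / n^2` this is `≥ n (d_r n)^a = d_r^a n^(a+1)`, and then
`(d_r^a n^(a+1))^b / n^(a(b-1)) = d_r^(ab) n^(a+b)`. Summing over `r`:
`∑_r d_r^(ab) n^(a+b) ≥ k n^(a+b) (∑_r d_r / k)^(ab) ≥ k n^(a+b) ε^(ab)` (power mean;
`∑_r d_r = |C| / n^2 ≥ ε k`). Squaring and dividing by `n^(a+b)` gives `ε^(2ab) k^2 n^(a+b)`.

Degenerate cases: `k = 0` or `n = 0` (with `a + b > 0`) make the left side `0`;
`n = 0 = a + b`: treat separately (`a * b = 0`, the count is `k^2`, left side `k^2`). Here only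
`a, b ≥ 1` is needed, so `ha, hb` are assumed.
-/

set_option linter.dupNamespace false
set_option linter.unusedVariables false

namespace Pool.Agent.TYP

open Finset

/-- Power mean inequality without division. -/
lemma pm_aux {ι : Type*} (s : Finset ι) (f : ι → ℝ) (hf : ∀ i ∈ s, 0 ≤ f i) (m : ℕ) :
    (∑ i ∈ s, f i) ^ (m + 1) ≤ (s.card : ℝ) ^ m * ∑ i ∈ s, f i ^ (m + 1) := by
  rcases s.eq_empty_or_nonempty with rfl | hne
  · simp
  · have hpos : (0 : ℝ) < (s.card : ℝ) ^ m := by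
      have : (0 : ℝ) < s.card := by exact_mod_cast hne.card_pos
      positivity
    have h := pow_sum_div_card_le_sum_pow (s := s) (f := f) hf m
    rw [div_le_iff₀ hpos] at h
    linarith

theorem hom_count (a b k n : ℕ) (ha : 1 ≤ a) (hb : 1 ≤ b) (C : Finset (Cell3 k n)) {ε : ℝ}
    (hε : 0 ≤ ε) (hC : ε * (k * n ^ 2) ≤ C.card) :
    ε ^ (2 * (a * b)) * ((k : ℝ) ^ 2 * (n : ℝ) ^ (a + b)) ≤
      (((univ : Finset (Om3 a b k n)).filter
        (fun ω => ∀ x y z, (ω.1 x, ω.2.1 y, ω.2.2 z) ∈ C)).card : ℝ) := by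
  obtain ⟨a', rfl⟩ : ∃ a', a = a' + 1 := ⟨a - 1, by omega⟩
  obtain ⟨b', rfl⟩ : ∃ b', b = b' + 1 := ⟨b - 1, by omega⟩
  classical
  rcases Nat.eq_zero_or_pos n with hn0 | hnpos
  · subst hn0
    have : ((0 : ℕ) : ℝ) ^ (a' + 1 + (b' + 1)) = 0 := by simp
    rw [this, mul_zero, mul_zero]
    positivity
  rcases Nat.eq_zero_or_pos k with hk0 | hkpos
  · subst hk0
    simp
  set N : ℝ := (n : ℝ) with hN
  set K : ℝ := (k : ℝ) with hK
  have hNpos : 0 < N := by rw [hN]; exact_mod_cast hnpos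
  have hKpos : 0 < K := by rw [hK]; exact_mod_cast hkpos
  set f : Fin k → Fin n → Fin n → ℝ := fun r c s => if (r, c, s) ∈ C then 1 else 0 with hf
  have hf0 : ∀ r c s, 0 ≤ f r c s := by
    intro r c s
    simp only [hf]
    split_ifs <;> norm_num
  -- the count as a sum of products
  have hcount : (((univ : Finset (Om3 (a' + 1) (b' + 1) k n)).filter
        (fun ω => ∀ x y z, (ω.1 x, ω.2.1 y, ω.2.2 z) ∈ C)).card : ℝ)
      = ∑ ω : Om3 (a' + 1) (b' + 1) k n, ∏ x, ∏ y, ∏ z, f (ω.1 x) (ω.2.1 y) (ω.2.2 z) := by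
    rw [Finset.card_filter, Nat.cast_sum]
    refine Finset.sum_congr rfl (fun ω _ => ?_)
    by_cases h : ∀ x y z, (ω.1 x, ω.2.1 y, ω.2.2 z) ∈ C
    · rw [if_pos h]
      simp only [hf]
      rw [Finset.prod_eq_one, Nat.cast_one]
      intro x _
      refine Finset.prod_eq_one (fun y _ => Finset.prod_eq_one (fun z _ => ?_))
      rw [if_pos (h x y z)]
    · rw [if_neg h]
      push Not at h
      obtain ⟨x, y, z, hxyz⟩ := h
      symm
      rw [Nat.cast_zero]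
      refine Finset.prod_eq_zero (Finset.mem_univ x) ?_
      refine Finset.prod_eq_zero (Finset.mem_univ y) ?_
      refine Finset.prod_eq_zero (Finset.mem_univ z) ?_
      simp only [hf]
      rw [if_neg hxyz]
  set P : Fin k → (Fin (a' + 1) → Fin n) → (Fin (b' + 1) → Fin n) → ℝ :=
    fun r c s => ∏ y, ∏ z, f r (c y) (s z) with hP
  have hP0 : ∀ r c s, 0 ≤ P r c s := fun r c s =>
    Finset.prod_nonneg (fun y _ => Finset.prod_nonneg (fun z _ => hf0 _ _ _))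
  have htot : ∑ ω : Om3 (a' + 1) (b' + 1) k n, ∏ x, ∏ y, ∏ z, f (ω.1 x) (ω.2.1 y) (ω.2.2 z)
      = ∑ cs : (Fin (a' + 1) → Fin n) × (Fin (b' + 1) → Fin n), (∑ r, P r cs.1 cs.2) ^ 2 := by
    rw [Fintype.sum_prod_type, Finset.sum_comm]
    refine Finset.sum_congr rfl (fun cs _ => ?_)
    rw [Fintype.sum_pow]
  -- B r
  set B : Fin k → ℝ := fun r => ∑ c : Fin (a' + 1) → Fin n, ∑ s : Fin (b' + 1) → Fin n, P r c s
    with hB
  have hCS : (∑ r, B r) ^ 2 ≤ N ^ (a' + 1 + (b' + 1)) *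
      ∑ cs : (Fin (a' + 1) → Fin n) × (Fin (b' + 1) → Fin n), (∑ r, P r cs.1 cs.2) ^ 2 := by
    have h1 := sq_sum_le_card_mul_sum_sq
      (s := (univ : Finset ((Fin (a' + 1) → Fin n) × (Fin (b' + 1) → Fin n))))
      (f := fun cs => ∑ r, P r cs.1 cs.2)
    have h2 : ∑ r, B r = ∑ cs : (Fin (a' + 1) → Fin n) × (Fin (b' + 1) → Fin n),
        ∑ r, P r cs.1 cs.2 := by
      have h0 : ∀ r, B r = ∑ cs : (Fin (a' + 1) → Fin n) × (Fin (b' + 1) → Fin n),
          P r cs.1 cs.2 := by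
        intro r
        rw [Fintype.sum_prod_type]
      simp_rw [h0]
      exact Finset.sum_comm
    have h3 : ((univ : Finset ((Fin (a' + 1) → Fin n) × (Fin (b' + 1) → Fin n))).card : ℝ)
        = N ^ (a' + 1 + (b' + 1)) := by
      simp only [Finset.card_univ, Fintype.card_prod, Fintype.card_fun, Fintype.card_fin]
      push_cast
      rw [← hN, ← pow_add]
    rw [h2, ← h3]
    exact h1
  -- w, T, A
  set T : Fin k → ℝ := fun r => ∑ s, ∑ c, f r c s with hT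
  set A : Fin k → ℝ := fun r => ∑ c : Fin (a' + 1) → Fin n, ∑ s, ∏ y, f r (c y) s with hA
  have hT0 : ∀ r, 0 ≤ T r := fun r =>
    Finset.sum_nonneg (fun s _ => Finset.sum_nonneg (fun c _ => hf0 _ _ _))
  have hA0 : ∀ r, 0 ≤ A r := fun r =>
    Finset.sum_nonneg (fun c _ => Finset.sum_nonneg
      (fun s _ => Finset.prod_nonneg (fun y _ => hf0 _ _ _)))
  have h2a : ∀ r, T r ^ (a' + 1) ≤ N ^ a' * A r := by
    intro r
    have h1 := pm_aux (univ : Finset (Fin n)) (fun s => ∑ c, f r c s)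
      (fun s _ => Finset.sum_nonneg (fun c _ => hf0 _ _ _)) a'
    have h2 : A r = ∑ s, (∑ c, f r c s) ^ (a' + 1) := by
      rw [hA]
      simp only
      rw [Finset.sum_comm]
      refine Finset.sum_congr rfl (fun s _ => ?_)
      rw [Fintype.sum_pow]
    rw [h2]
    simpa using h1
  have h2b : ∀ r, A r ^ (b' + 1) ≤ (N ^ (a' + 1)) ^ b' * B r := by
    intro r
    have h1 := pm_aux (univ : Finset (Fin (a' + 1) → Fin n)) (fun c => ∑ s, ∏ y, f r (c y) s)
      (fun c _ => Finset.sum_nonneg (fun s _ => Finset.prod_nonneg (fun y _ => hf0 _ _ _))) b'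
    have h2 : B r = ∑ c : Fin (a' + 1) → Fin n, (∑ s, ∏ y, f r (c y) s) ^ (b' + 1) := by
      rw [hB]
      simp only [hP]
      refine Finset.sum_congr rfl (fun c _ => ?_)
      rw [Fintype.sum_pow]
      refine Finset.sum_congr rfl (fun s _ => ?_)
      rw [Finset.prod_comm]
    rw [h2]
    have h3 : ((univ : Finset (Fin (a' + 1) → Fin n)).card : ℝ) = N ^ (a' + 1) := by
      simp [hN]
    rw [← h3]
    exact h1
  obtain ⟨M, hM⟩ : ∃ M, (a' + 1) * (b' + 1) = M + 1 := ⟨(a' + 1) * (b' + 1) - 1, by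
    have : 1 ≤ (a' + 1) * (b' + 1) := Nat.one_le_iff_ne_zero.2 (by positivity)
    omega⟩
  have hTB : ∀ r, T r ^ (M + 1) ≤ N ^ (a' * (b' + 1) + (a' + 1) * b') * B r := by
    intro r
    calc T r ^ (M + 1) = (T r ^ (a' + 1)) ^ (b' + 1) := by rw [← pow_mul, hM]
      _ ≤ (N ^ a' * A r) ^ (b' + 1) := by
          refine pow_le_pow_left₀ (pow_nonneg (hT0 r) _) (h2a r) _
      _ = N ^ (a' * (b' + 1)) * A r ^ (b' + 1) := by rw [mul_pow, ← pow_mul]
      _ ≤ N ^ (a' * (b' + 1)) * ((N ^ (a' + 1)) ^ b' * B r) := by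
          refine mul_le_mul_of_nonneg_left (h2b r) (by positivity)
      _ = N ^ (a' * (b' + 1) + (a' + 1) * b') * B r := by
          rw [← pow_mul N (a' + 1) b', pow_add N (a' * (b' + 1)) ((a' + 1) * b')]; ring
  have hTsum : ∑ r, T r = (C.card : ℝ) := by
    have h1 : (C.card : ℝ) = ∑ x : Cell3 k n, if x ∈ C then (1 : ℝ) else 0 := by
      rw [Finset.sum_ite_mem, Finset.univ_inter, Finset.sum_const, nsmul_eq_mul, mul_one]
    rw [h1, Fintype.sum_prod_type]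
    refine Finset.sum_congr rfl (fun r _ => ?_)
    rw [Fintype.sum_prod_type, hT]
    simp only [hf]
    rw [Finset.sum_comm]
  have h3 : (∑ r, T r) ^ (M + 1) ≤
      K ^ M * (N ^ (a' * (b' + 1) + (a' + 1) * b') * ∑ r, B r) := by
    have h1 := pm_aux (univ : Finset (Fin k)) T (fun r _ => hT0 r) M
    have h2 : ∑ r, T r ^ (M + 1) ≤ N ^ (a' * (b' + 1) + (a' + 1) * b') * ∑ r, B r := by
      rw [Finset.mul_sum]
      exact Finset.sum_le_sum (fun r _ => hTB r)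
    have h4 : (((univ : Finset (Fin k)).card : ℕ) : ℝ) = K := by simp [hK]
    rw [h4] at h1
    exact h1.trans (mul_le_mul_of_nonneg_left h2 (by positivity))
  have h4 : (ε * (K * N ^ 2)) ^ (M + 1) ≤ (∑ r, T r) ^ (M + 1) := by
    rw [hTsum]
    exact pow_le_pow_left₀ (by positivity) hC _
  have h5 : ε ^ (M + 1) * (K * N ^ (a' + 1 + (b' + 1))) ≤ ∑ r, B r := by
    have h6 := h4.trans h3
    have hc : (0 : ℝ) < K ^ M * N ^ (a' * (b' + 1) + (a' + 1) * b') := by positivity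
    have hexp : 2 * (M + 1) = (a' * (b' + 1) + (a' + 1) * b') + (a' + 1 + (b' + 1)) := by
      rw [← hM]; ring
    have h7 : (ε * (K * N ^ 2)) ^ (M + 1) = K ^ M * N ^ (a' * (b' + 1) + (a' + 1) * b') *
        (ε ^ (M + 1) * (K * N ^ (a' + 1 + (b' + 1)))) := by
      rw [mul_pow, mul_pow, ← pow_mul, hexp, pow_add, pow_succ K]
      ring
    rw [h7] at h6
    have h8 : K ^ M * N ^ (a' * (b' + 1) + (a' + 1) * b') *
        (ε ^ (M + 1) * (K * N ^ (a' + 1 + (b' + 1)))) ≤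
        K ^ M * N ^ (a' * (b' + 1) + (a' + 1) * b') * ∑ r, B r := by
      calc _ ≤ _ := h6
        _ = _ := by ring
    exact le_of_mul_le_mul_left h8 hc
  have hB0 : 0 ≤ ε ^ (M + 1) * (K * N ^ (a' + 1 + (b' + 1))) := by positivity
  rw [hcount, htot]
  have h9 : (ε ^ (M + 1) * (K * N ^ (a' + 1 + (b' + 1)))) ^ 2 ≤ N ^ (a' + 1 + (b' + 1)) *
      ∑ cs : (Fin (a' + 1) → Fin n) × (Fin (b' + 1) → Fin n), (∑ r, P r cs.1 cs.2) ^ 2 :=
    (pow_le_pow_left₀ hB0 h5 2).trans hCS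
  have h10 : (ε ^ (M + 1) * (K * N ^ (a' + 1 + (b' + 1)))) ^ 2 = N ^ (a' + 1 + (b' + 1)) *
      (ε ^ (2 * ((a' + 1) * (b' + 1))) * (K ^ 2 * N ^ (a' + 1 + (b' + 1)))) := by
    rw [hM, mul_pow, mul_pow, ← pow_mul, mul_comm (M + 1) 2]
    ring
  rw [h10] at h9
  exact le_of_mul_le_mul_left h9 (by positivity)

end Pool.Agent.TYP
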