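import Mathlib
import Pool.Agent.TYP.Defs
import Pool.Agent.TYP.StripHom

/-!
TYP module SS: supersaturation for strips.

`card_degenerate`: the number of `ω` with `ω.1` not injective is `k * n^(a+b)` (`ω.1 0 = ω.1 1`);
for `ω.2.1` not injective there are `y < y'` with `ω.2.1 y = ω.2.1 y'`, at most `a^2` pairs and for
each pair at most `k^2 n^(a+b) / n` labels; likewise for `ω.2.2`. In the statement division by `n`
is real division (`n ≥ 1`; `a, b ≥ 1`).

`strip_sat`: with `a = (e+1)/2`, `b = e/2+1`, `a + b = e + 1`, the labels `ω` with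
`(ω.1 x, ω.2.1 y, ω.2.2 z) ∈ C` for all `x, y, z` have all `strip ω j ∈ C`. By `hom_count` there are
at least `ε^(qe e) k^2 n^(e+1)` of them, and at most
`k^2 n^(e+1) (1/k + (a^2+b^2)/n) ≤ ε^(qe e) k^2 n^(e+1) / 2` are degenerate.
-/

set_option linter.dupNamespace false
set_option linter.unusedVariables false

namespace Pool.Agent.TYP

open Finset

theorem ss_pair {m N : ℕ} (y y' : Fin m) (h : y ≠ y') :
    ((univ : Finset (Fin m → Fin N)).filter (fun f => f y = f y')).card * N ≤ N ^ m := by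
  have h1 : ((univ : Finset (Fin m → Fin N)).filter (fun f => f y = f y')).card * N
      = (((univ : Finset (Fin m → Fin N)).filter (fun f => f y = f y')) ×ˢ
          (univ : Finset (Fin N))).card := by
    rw [card_product, card_univ, Fintype.card_fin]
  have h2 : N ^ m = (univ : Finset (Fin m → Fin N)).card := by
    simp
  rw [h1, h2]
  refine card_le_card_of_injOn (fun p => Function.update p.1 y p.2) (fun _ _ => mem_coe.2 (mem_univ _)) ?_
  rintro ⟨f, t⟩ hf ⟨g, s⟩ hg hfg
  simp only [coe_product, Set.mem_prod, mem_coe, mem_filter, mem_univ, true_and, and_true] at hf hg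
  simp only at hfg
  have e1 : t = s := by
    have := congrFun hfg y
    simpa using this
  have e2 : ∀ j, j ≠ y → f j = g j := by
    intro j hj
    have := congrFun hfg j
    simpa [Function.update_of_ne hj] using this
  have e3 : f = g := by
    funext j
    by_cases hj : j = y
    · subst hj
      rw [hf, hg]
      exact e2 y' (Ne.symm h)
    · exact e2 j hj
  rw [e1, e3]

open Classical in
theorem ss_noninj (m N : ℕ) :
    ((univ : Finset (Fin m → Fin N)).filter (fun f => ¬ Function.Injective f)).card * N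
      ≤ m ^ 2 * N ^ m := by
  have hsub : ((univ : Finset (Fin m → Fin N)).filter (fun f => ¬ Function.Injective f)) ⊆
      ((univ : Finset (Fin m × Fin m)).filter (fun p => p.1 ≠ p.2)).biUnion
        (fun p => (univ : Finset (Fin m → Fin N)).filter (fun f => f p.1 = f p.2)) := by
    intro f hf
    simp only [mem_filter, mem_univ, true_and, Function.Injective] at hf
    push Not at hf
    obtain ⟨y, y', h1, h2⟩ := hf
    simp only [mem_biUnion, mem_filter, mem_univ, true_and]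
    exact ⟨(y, y'), h2, h1⟩
  calc ((univ : Finset (Fin m → Fin N)).filter (fun f => ¬ Function.Injective f)).card * N
      ≤ (((univ : Finset (Fin m × Fin m)).filter (fun p => p.1 ≠ p.2)).biUnion
        (fun p => (univ : Finset (Fin m → Fin N)).filter (fun f => f p.1 = f p.2))).card * N :=
        Nat.mul_le_mul_right _ (card_le_card hsub)
    _ ≤ (∑ p ∈ (univ : Finset (Fin m × Fin m)).filter (fun p => p.1 ≠ p.2),
          ((univ : Finset (Fin m → Fin N)).filter (fun f => f p.1 = f p.2)).card) * N :=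
        Nat.mul_le_mul_right _ card_biUnion_le
    _ = ∑ p ∈ (univ : Finset (Fin m × Fin m)).filter (fun p => p.1 ≠ p.2),
          ((univ : Finset (Fin m → Fin N)).filter (fun f => f p.1 = f p.2)).card * N := by
        rw [sum_mul]
    _ ≤ ∑ p ∈ (univ : Finset (Fin m × Fin m)).filter (fun p => p.1 ≠ p.2), N ^ m := by
        refine sum_le_sum fun p hp => ?_
        simp only [mem_filter, mem_univ, true_and] at hp
        exact ss_pair p.1 p.2 hp
    _ = ((univ : Finset (Fin m × Fin m)).filter (fun p => p.1 ≠ p.2)).card * N ^ m := by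
        rw [sum_const, smul_eq_mul]
    _ ≤ m ^ 2 * N ^ m := by
        refine Nat.mul_le_mul_right _ ((card_filter_le _ _).trans ?_)
        simp [sq]

open Classical in
theorem card_degenerate (a b k n : ℕ) (ha : 1 ≤ a) (hb : 1 ≤ b) (hn : 1 ≤ n) :
    (((univ : Finset (Om3 a b k n)).filter
      (fun ω => ¬ (Function.Injective ω.1 ∧ Function.Injective ω.2.1 ∧
        Function.Injective ω.2.2))).card : ℝ)
      ≤ (k : ℝ) * (n : ℝ) ^ (a + b)
        + ((a : ℝ) ^ 2 + (b : ℝ) ^ 2) * ((k : ℝ) ^ 2 * (n : ℝ) ^ (a + b)) / n := by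
  set F1 := (univ : Finset (Fin 2 → Fin k)).filter (fun f => ¬ Function.Injective f) with hF1
  set F2 := (univ : Finset (Fin a → Fin n)).filter (fun f => ¬ Function.Injective f) with hF2
  set F3 := (univ : Finset (Fin b → Fin n)).filter (fun f => ¬ Function.Injective f) with hF3
  have hn0 : (0 : ℝ) < n := by exact_mod_cast hn
  have hsub : ((univ : Finset (Om3 a b k n)).filter
      (fun ω => ¬ (Function.Injective ω.1 ∧ Function.Injective ω.2.1 ∧
        Function.Injective ω.2.2))) ⊆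
      (F1 ×ˢ ((univ : Finset (Fin a → Fin n)) ×ˢ (univ : Finset (Fin b → Fin n)))) ∪
      (((univ : Finset (Fin 2 → Fin k)) ×ˢ (F2 ×ˢ (univ : Finset (Fin b → Fin n)))) ∪
      ((univ : Finset (Fin 2 → Fin k)) ×ˢ ((univ : Finset (Fin a → Fin n)) ×ˢ F3))) := by
    intro ω hω
    simp only [mem_filter, mem_univ, true_and] at hω
    simp only [mem_union, mem_product, mem_univ, true_and, and_true, hF1, hF2, hF3, mem_filter]
    tauto
  have hcard : (((univ : Finset (Om3 a b k n)).filter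
      (fun ω => ¬ (Function.Injective ω.1 ∧ Function.Injective ω.2.1 ∧
        Function.Injective ω.2.2))).card : ℝ) ≤
      (F1.card : ℝ) * ((n : ℝ) ^ a * (n : ℝ) ^ b) +
        ((k : ℝ) ^ 2 * ((F2.card : ℝ) * (n : ℝ) ^ b) + (k : ℝ) ^ 2 * ((n : ℝ) ^ a * (F3.card : ℝ))) := by
    have h1 := (card_le_card hsub).trans ((card_union_le _ _).trans
      (Nat.add_le_add_left (card_union_le _ _) _))
    simp only [card_product, card_univ, Fintype.card_fun, Fintype.card_fin] at h1
    exact_mod_cast h1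
  have h1 : (F1.card : ℝ) ≤ k := by
    have hF1' : F1.card ≤ k := by
      have hh : F1.card ≤ (univ : Finset (Fin k)).card := by
        refine card_le_card_of_injOn (fun f => f 0) (fun _ _ => mem_coe.2 (mem_univ _)) ?_
        have key : ∀ f ∈ F1, f 1 = f 0 := by
          intro f hf
          simp only [hF1, mem_filter, mem_univ, true_and] at hf
          by_contra hne
          apply hf
          intro x y hxy
          fin_cases x <;> fin_cases y <;> simp_all
        intro f hf g hg hfg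
        simp only at hfg
        have kf := key f (mem_coe.1 hf)
        have kg := key g (mem_coe.1 hg)
        funext j
        fin_cases j
        · exact hfg
        · exact kf.trans (hfg.trans kg.symm)
      simpa using hh
    exact_mod_cast hF1'
  have h2 : (F2.card : ℝ) ≤ (a : ℝ) ^ 2 * (n : ℝ) ^ a / n := by
    rw [le_div_iff₀ hn0]
    have := ss_noninj a n
    exact_mod_cast this
  have h3 : (F3.card : ℝ) ≤ (b : ℝ) ^ 2 * (n : ℝ) ^ b / n := by
    rw [le_div_iff₀ hn0]
    have := ss_noninj b n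
    exact_mod_cast this
  refine hcard.trans ?_
  have hna : (0 : ℝ) ≤ (n : ℝ) ^ a := by positivity
  have hnb : (0 : ℝ) ≤ (n : ℝ) ^ b := by positivity
  have hk2 : (0 : ℝ) ≤ (k : ℝ) ^ 2 := by positivity
  calc (F1.card : ℝ) * ((n : ℝ) ^ a * (n : ℝ) ^ b) +
        ((k : ℝ) ^ 2 * ((F2.card : ℝ) * (n : ℝ) ^ b) + (k : ℝ) ^ 2 * ((n : ℝ) ^ a * (F3.card : ℝ)))
      ≤ (k : ℝ) * ((n : ℝ) ^ a * (n : ℝ) ^ b) +
        ((k : ℝ) ^ 2 * (((a : ℝ) ^ 2 * (n : ℝ) ^ a / n) * (n : ℝ) ^ b) +
          (k : ℝ) ^ 2 * ((n : ℝ) ^ a * ((b : ℝ) ^ 2 * (n : ℝ) ^ b / n))) := by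
        gcongr
    _ = (k : ℝ) * (n : ℝ) ^ (a + b)
        + ((a : ℝ) ^ 2 + (b : ℝ) ^ 2) * ((k : ℝ) ^ 2 * (n : ℝ) ^ (a + b)) / n := by
        rw [pow_add]
        field_simp

theorem strip_sat (e k n : ℕ) (he : 1 ≤ e) (hk : 1 ≤ k) (hn : 1 ≤ n) {ε : ℝ} (hε : 0 < ε)
    (hcond : 1 / (k : ℝ) + ((((e + 1) / 2 : ℕ) : ℝ) ^ 2 + ((e / 2 + 1 : ℕ) : ℝ) ^ 2) / n
      ≤ ε ^ qe e / 2)
    (C : Finset (Cell3 k n)) (hC : ε * (k * n ^ 2) ≤ C.card) :
    ε ^ qe e * ((k : ℝ) ^ 2 * (n : ℝ) ^ (e + 1)) / 2 ≤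
      (((nondeg e k n).filter (fun ω => ∀ j, strip e k n ω j ∈ C)).card : ℝ) := by
  classical
  have hn0 : (0 : ℝ) < n := by exact_mod_cast hn
  have hk0 : (0 : ℝ) < k := by exact_mod_cast hk
  have hab : (e + 1) / 2 + (e / 2 + 1) = e + 1 := by omega
  have ha : 1 ≤ (e + 1) / 2 := by omega
  have hb : 1 ≤ e / 2 + 1 := by omega
  have h1 := hom_count ((e + 1) / 2) (e / 2 + 1) k n ha hb C hε.le hC
  have h2 := card_degenerate ((e + 1) / 2) (e / 2 + 1) k n ha hb hn
  rw [hab] at h1 h2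
  have hq : 2 * ((e + 1) / 2 * (e / 2 + 1)) = qe e := rfl
  rw [hq] at h1
  set H := ((univ : Finset (Om3 ((e + 1) / 2) (e / 2 + 1) k n)).filter
        (fun ω => ∀ x y z, (ω.1 x, ω.2.1 y, ω.2.2 z) ∈ C)) with hH
  set B := ((univ : Finset (Om3 ((e + 1) / 2) (e / 2 + 1) k n)).filter
      (fun ω => ¬ (Function.Injective ω.1 ∧ Function.Injective ω.2.1 ∧
        Function.Injective ω.2.2))) with hB
  set G := ((nondeg e k n).filter (fun ω => ∀ j, strip e k n ω j ∈ C)) with hG
  have hsub : H ⊆ G ∪ B := by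
    intro ω hω
    simp only [hH, mem_filter, mem_univ, true_and] at hω
    rw [mem_union]
    by_cases hinj : (Function.Injective ω.1 ∧ Function.Injective ω.2.1 ∧
        Function.Injective ω.2.2)
    · left
      rw [hG, mem_filter]
      refine ⟨?_, fun j => hω _ _ _⟩
      rw [nondeg, mem_filter]
      exact ⟨mem_univ _, hinj⟩
    · right
      rw [hB, mem_filter]
      exact ⟨mem_univ _, hinj⟩
  have h3 : (H.card : ℝ) ≤ G.card + B.card := by
    exact_mod_cast (card_le_card hsub).trans (card_union_le _ _)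
  have hK : (0 : ℝ) < (k : ℝ) ^ 2 * (n : ℝ) ^ (e + 1) := by positivity
  have h4 := mul_le_mul_of_nonneg_right hcond hK.le
  have h5 : (1 / (k : ℝ) + ((((e + 1) / 2 : ℕ) : ℝ) ^ 2 + ((e / 2 + 1 : ℕ) : ℝ) ^ 2) / n) *
      ((k : ℝ) ^ 2 * (n : ℝ) ^ (e + 1)) =
      (k : ℝ) * (n : ℝ) ^ (e + 1) +
        ((((e + 1) / 2 : ℕ) : ℝ) ^ 2 + ((e / 2 + 1 : ℕ) : ℝ) ^ 2) *
          ((k : ℝ) ^ 2 * (n : ℝ) ^ (e + 1)) / n := by
    field_simp
  rw [h5] at h4
  have h6 : ε ^ qe e * ((k : ℝ) ^ 2 * (n : ℝ) ^ (e + 1)) ≤ H.card := h1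
  have h7 : (B.card : ℝ) ≤ (k : ℝ) * (n : ℝ) ^ (e + 1) +
        ((((e + 1) / 2 : ℕ) : ℝ) ^ 2 + ((e / 2 + 1 : ℕ) : ℝ) ^ 2) *
          ((k : ℝ) ^ 2 * (n : ℝ) ^ (e + 1)) / n := h2
  have h8 : ε ^ qe e / 2 * ((k : ℝ) ^ 2 * (n : ℝ) ^ (e + 1)) =
      ε ^ qe e * ((k : ℝ) ^ 2 * (n : ℝ) ^ (e + 1)) / 2 := by ring
  rw [h8] at h4
  linarith

end Pool.Agent.TYP
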