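import Mathlib
import Pool.Agent.TYP.Defs
import Pool.Agent.TYP.ContE
import Pool.Agent.TYP.StripDeg
import Pool.Agent.TYP.StripSat

/-!
TYP module SC: containers for strip-free sets.

Apply `containers` with `V = Cell3 k n` (`|V| = k n^2`, nonempty), `Ω = Om e k n`, `π = strip e k n`,
`A₀ = nondeg e k n`, `h = ε^q k^2 n^(e+1) / 2`, `D = 2 / ε^q`, `q = qe e`. `hsat` is `strip_sat`.
Degree condition (`deg` is monotone in `A`, so use `deg_strip_one`, `deg_strip_ge` on `univ`):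
`D τ^(ℓ-1) h / |V| = τ^(ℓ-1) k n^(e-1)`; for `ℓ = 1` this is `k n^(e-1)`; for `ℓ ≥ 2` we need
`n^(e-ℓ) ≤ τ^(ℓ-1) k n^(e-1)`, i.e. `1 ≤ (τ n)^(ℓ-1) k` (multiply by `n^(ℓ-1)`;
`n^(e-ℓ) n^(ℓ-1) = n^(e-1)`, `ℓ ≤ e`), which follows from `1 ≤ (τ n)^e k` and `τ n ≤ 1`.
-/

set_option linter.dupNamespace false
set_option linter.unusedVariables false

namespace Pool.Agent.TYP

open Finset

theorem sc_deg_mono {V Ω : Type*} [Fintype V] [DecidableEq V] [Fintype Ω] [DecidableEq Ω] {e : ℕ}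
    (π : Ω → Fin e → V) (A : Finset Ω) (J : Finset (Fin e)) (ω : Ω) :
    deg π A J ω ≤ deg π univ J ω := by
  unfold deg
  exact card_le_card (filter_subset_filter _ (subset_univ _))

theorem strip_containers (e k n : ℕ) (he : 1 ≤ e) (hk : 1 ≤ k) (hkn : k ≤ n) {ε τ : ℝ}
    (hε : 0 < ε) (hτ : 0 < τ) (hτn : τ * n ≤ 1) (hτk : 1 ≤ (τ * n) ^ e * k)
    (hcond : 1 / (k : ℝ) + ((((e + 1) / 2 : ℕ) : ℝ) ^ 2 + ((e / 2 + 1 : ℕ) : ℝ) ^ 2) / n
      ≤ ε ^ qe e / 2) :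
    ∃ 𝒞 : Finset (Finset (Cell3 k n)),
      𝒞.card ≤ (k * n ^ 2 + 1) ^
        (e * (⌊τ * (k * n ^ 2)⌋₊ + 1) * ⌈4 * 2 ^ ((e + 3) * e) * (2 / ε ^ qe e)⌉₊) ∧
      (∀ C ∈ 𝒞, (C.card : ℝ) < ε * (k * n ^ 2)) ∧
      ∀ Q : Finset (Cell3 k n), StripFree e k n Q → ∃ C ∈ 𝒞, Q ⊆ C := by
  have hn : 1 ≤ n := hk.trans hkn
  have hn0 : (0 : ℝ) < n := by exact_mod_cast hn
  have hn1 : (1 : ℝ) ≤ n := by exact_mod_cast hn
  have hk0 : (0 : ℝ) < k := by exact_mod_cast hk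
  have : Nonempty (Cell3 k n) := ⟨(⟨0, hk⟩, ⟨0, hn⟩, ⟨0, hn⟩)⟩
  have hcardN : Fintype.card (Cell3 k n) = k * n ^ 2 := by
    simp [Cell3, Fintype.card_prod, sq]
  have hcardR : ((Fintype.card (Cell3 k n) : ℕ) : ℝ) = k * n ^ 2 := by
    rw [hcardN]; push_cast; ring
  have hx0 : 0 < τ * n := mul_pos hτ hn0
  have hτ1 : τ ≤ 1 := by
    have : τ ≤ τ * n := le_mul_of_one_le_right hτ.le hn1
    exact this.trans hτn
  have hεq : 0 < ε ^ qe e := pow_pos hε _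
  have hval : ∀ ℓ : ℕ, (2 / ε ^ qe e) * τ ^ (ℓ - 1) *
      (ε ^ qe e * ((k : ℝ) ^ 2 * (n : ℝ) ^ (e + 1)) / 2) / ((Fintype.card (Cell3 k n) : ℕ) : ℝ)
      = τ ^ (ℓ - 1) * (k * (n : ℝ) ^ (e - 1)) := by
    intro ℓ
    rw [hcardR]
    have : (n : ℝ) ^ (e + 1) = (n : ℝ) ^ (e - 1) * (n : ℝ) ^ 2 := by
      rw [← pow_add]; congr 1; omega
    rw [this]
    field_simp
  have hdeg : DegB (strip e k n) (nondeg e k n) 0 (2 / ε ^ qe e) τ
      (ε ^ qe e * ((k : ℝ) ^ 2 * (n : ℝ) ^ (e + 1)) / 2) := by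
    intro J hJne _ ω
    rw [hval]
    have hJ1 : 1 ≤ J.card := hJne.card_pos
    have hJe : J.card ≤ e := by
      have := card_le_univ J
      simpa using this
    rcases Nat.lt_or_ge J.card 2 with h2 | h2
    · have hJ : J.card = 1 := by omega
      have h3 := (sc_deg_mono (strip e k n) (nondeg e k n) J ω).trans (deg_strip_one e k n J hJ ω)
      rw [hJ]
      simp only [Nat.sub_self, pow_zero, one_mul]
      exact_mod_cast h3
    · have h3 := (sc_deg_mono (strip e k n) (nondeg e k n) J ω).trans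
        (deg_strip_ge e k n hkn J h2 ω)
      have h4 : ((deg (strip e k n) (nondeg e k n) J ω : ℕ) : ℝ) ≤ (n : ℝ) ^ (e - J.card) := by
        exact_mod_cast h3
      refine h4.trans ?_
      have h5 : (n : ℝ) ^ (e - 1) = (n : ℝ) ^ (J.card - 1) * (n : ℝ) ^ (e - J.card) := by
        rw [← pow_add]; congr 1; omega
      rw [h5]
      have h6 : τ ^ (J.card - 1) * (k * ((n : ℝ) ^ (J.card - 1) * (n : ℝ) ^ (e - J.card))) =
          ((τ * n) ^ (J.card - 1) * k) * (n : ℝ) ^ (e - J.card) := by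
        rw [mul_pow]; ring
      rw [h6]
      refine le_mul_of_one_le_left (by positivity) ?_
      refine hτk.trans ?_
      refine mul_le_mul_of_nonneg_right ?_ hk0.le
      exact pow_le_pow_of_le_one hx0.le hτn (by omega)
  have hsat : ∀ C : Finset (Cell3 k n), ε * ((Fintype.card (Cell3 k n) : ℕ) : ℝ) ≤ C.card →
      (ε ^ qe e * ((k : ℝ) ^ 2 * (n : ℝ) ^ (e + 1)) / 2) ≤
        (((nondeg e k n).filter (fun ω => ∀ j, strip e k n ω j ∈ C)).card : ℝ) := by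
    intro C hC
    rw [hcardR] at hC
    have := strip_sat e k n he hk hn hε hcond C hC
    convert this
  obtain ⟨𝒞, h1, h2, h3⟩ := containers (V := Cell3 k n) (Ω := Om e k n) (Nat.lt_of_lt_of_le Nat.zero_lt_one he)
    (strip e k n) (nondeg e k n) hτ hτ1 hε (by positivity) (by positivity) hdeg hsat
  refine ⟨𝒞, ?_, ?_, ?_⟩
  · rw [hcardR, hcardN] at h1
    exact h1
  · intro C hC
    have := h2 C hC
    rw [hcardR] at this
    exact this
  · intro Q hQ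
    exact h3 Q hQ

end Pool.Agent.TYP
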