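import Mathlib
import Pool.Agent.TYP.Defs

/-!
TYP module PR: permutations with prescribed values.

`fact_ratio`: `(n - m)! ≤ n! (e/n)^m` for `m ≤ n`: `n! / (n-m)! = m! * choose n m`,
`choose n m ≥ (n/m)^m` (`Nat.pow_le_choose`-type, or `∏_{i<m} (n-i)/(m-i) ≥ (n/m)^m`), `m! ≥ (m/e)^m`
(`exp m ≥ m^m/m!`, `Real.pow_div_factorial_le_exp`); so `n!/(n-m)! ≥ (n/e)^m` (`m = 0` trivial).

`card_perm_prescribed`: if two elements of `Q` have the same first and different second coordinate, or
the same second and different first coordinate, the set is empty. Otherwise `Q` is the graph of an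
injective partial map with `|Q| = m ≤ n` values and the number of permutations extending it is
`(n - m)!`. Only `≤` is needed. One way: induction on `m` with the statement for permutations of a
finite type; or: if one permutation `σ₀` has the prescribed values then `σ ↦ σ₀⁻¹ σ` is an injection
into the permutations which fix the `m` points `Q.image Prod.fst` (`Q → Q.image Prod.fst` is injective
because `p.2 = σ₀ p.1`), and these are in bijection with the permutations of the complement
(`Equiv.Perm.subtypeEquivSubtypePerm` or `Equiv.Perm.card_fixedBy`..., `Fintype.card_perm`).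

`card_rows_prescribed`: the filter is the product over the rows `i : Fin k` of the sets of
permutations prescribed by `Q_i = {(x,s) : (i,x,s) ∈ Q}` (`Fintype.piFinset`), and `∑_i |Q_i| = |Q|`.
-/

set_option linter.dupNamespace false
set_option linter.unusedVariables false

namespace Pool.Agent.TYP

open Finset

private theorem prod_const_aux (a m : ℕ) : ∏ _i ∈ range m, a = a ^ m := by
  rw [Finset.prod_const, card_range]

theorem fact_ratio (n m : ℕ) (hm : m ≤ n) :
    (((n - m).factorial : ℕ) : ℝ) ≤ ((n.factorial : ℕ) : ℝ) * (Real.exp 1 / n) ^ m := by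
  rcases Nat.eq_zero_or_pos m with h0 | hm0
  · subst h0; simp
  have hn0 : (0 : ℝ) < n := by exact_mod_cast (by omega : 0 < n)
  have h1 : n ^ m * m.factorial ≤ m ^ m * n.descFactorial m := by
    rw [← Nat.descFactorial_self m, Nat.descFactorial_eq_prod_range,
      Nat.descFactorial_eq_prod_range, ← prod_const_aux n m, ← prod_const_aux m m, ← Finset.prod_mul_distrib,
      ← Finset.prod_mul_distrib]
    refine Finset.prod_le_prod' (fun i hi => ?_)
    have hi' := mem_range.mp hi
    obtain ⟨a, ha⟩ : ∃ a, m = i + a := ⟨m - i, by omega⟩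
    obtain ⟨b, hb⟩ : ∃ b, n = m + b := ⟨n - m, by omega⟩
    have e1 : m - i = a := by omega
    have e2 : n - i = a + b := by omega
    rw [e1, e2]
    have e3 : n = i + a + b := by omega
    subst e3
    subst ha
    nlinarith [Nat.zero_le (i * b)]
  have h2 : (n - m).factorial * n.descFactorial m = n.factorial :=
    Nat.factorial_mul_descFactorial hm
  have h3 := Real.pow_div_factorial_le_exp (m : ℝ) (by positivity) m
  have hf : (0 : ℝ) < ((m.factorial : ℕ) : ℝ) := by exact_mod_cast Nat.factorial_pos _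
  rw [div_le_iff₀ hf] at h3
  have h1' : (n : ℝ) ^ m * ((m.factorial : ℕ) : ℝ) ≤ (m : ℝ) ^ m * (n.descFactorial m : ℝ) := by
    exact_mod_cast h1
  have h4 : (n : ℝ) ^ m * ((m.factorial : ℕ) : ℝ) ≤
      Real.exp m * ((m.factorial : ℕ) : ℝ) * (n.descFactorial m : ℝ) :=
    h1'.trans (mul_le_mul_of_nonneg_right h3 (by positivity))
  have h5 : (n : ℝ) ^ m ≤ Real.exp m * (n.descFactorial m : ℝ) := by
    have : (n : ℝ) ^ m * ((m.factorial : ℕ) : ℝ) ≤
        (Real.exp m * (n.descFactorial m : ℝ)) * ((m.factorial : ℕ) : ℝ) := by linarith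
    exact le_of_mul_le_mul_right this hf
  have h2' : (((n - m).factorial : ℕ) : ℝ) * (n.descFactorial m : ℝ) = ((n.factorial : ℕ) : ℝ) := by
    exact_mod_cast h2
  have h6 : (Real.exp 1) ^ m = Real.exp m := by rw [← Real.exp_nat_mul, mul_one]
  rw [div_pow, h6, ← h2', ← mul_div_assoc, le_div_iff₀ (by positivity)]
  have hg : (0 : ℝ) ≤ (((n - m).factorial : ℕ) : ℝ) := by positivity
  have := mul_le_mul_of_nonneg_left h5 hg
  linarith

theorem card_perm_prescribed (n : ℕ) (Q : Finset (Fin n × Fin n)) :
    (((univ : Finset (Equiv.Perm (Fin n))).filter (fun σ => ∀ p ∈ Q, σ p.1 = p.2)).card : ℝ)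
      ≤ ((n.factorial : ℕ) : ℝ) * (Real.exp 1 / n) ^ Q.card := by
  classical
  rcases (((univ : Finset (Equiv.Perm (Fin n))).filter
    (fun σ => ∀ p ∈ Q, σ p.1 = p.2))).eq_empty_or_nonempty with h | ⟨σ₀, hσ₀⟩
  · rw [h, card_empty]
    push_cast
    positivity
  rw [mem_filter] at hσ₀
  have hσ := hσ₀.2
  set P : Finset (Fin n) := Q.image Prod.fst with hP
  have hPQ : P.card = Q.card := by
    refine card_image_of_injOn ?_
    intro p hp q hq hpq
    have h1 := hσ p hp
    have h2 := hσ q hq
    refine Prod.ext hpq ?_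
    rw [← h1, ← h2]
    exact congrArg σ₀ hpq
  have hPn : P.card ≤ n := by
    simpa using card_le_univ P
  have h1 : ((univ : Finset (Equiv.Perm (Fin n))).filter (fun σ => ∀ p ∈ Q, σ p.1 = p.2)).card ≤
      ((univ : Finset (Equiv.Perm (Fin n))).filter (fun f => ∀ a, ¬ (a ∉ P) → f a = a)).card := by
    refine card_le_card_of_injOn (fun σ => σ₀⁻¹ * σ) ?_ ?_
    · intro σ hs
      rw [mem_coe, mem_filter] at hs
      rw [mem_coe, mem_filter]
      refine ⟨mem_univ _, fun a ha => ?_⟩
      rw [not_not] at ha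
      obtain ⟨p, hp, rfl⟩ := mem_image.mp ha
      rw [Equiv.Perm.mul_apply, hs.2 p hp, ← hσ p hp]
      exact Equiv.symm_apply_apply σ₀ p.1
    · intro a _ b _ hab
      exact mul_left_cancel hab
  have h2 : ((univ : Finset (Equiv.Perm (Fin n))).filter (fun f => ∀ a, ¬ (a ∉ P) → f a = a)).card =
      (n - P.card).factorial := by
    rw [← Fintype.card_subtype, ← Fintype.card_congr (Equiv.Perm.subtypeEquivSubtypePerm
      (fun a => a ∉ P)), Fintype.card_perm]
    congr 1
    have e1 : (univ.filter (fun a : Fin n => a ∉ P)) = Pᶜ := by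
      ext a
      simp
    rw [Fintype.card_subtype, e1, card_compl, Fintype.card_fin]
  have h3 := fact_ratio n P.card hPn
  rw [← hPQ]
  refine le_trans ?_ h3
  rw [← h2]
  exact_mod_cast h1

theorem card_rows_prescribed (k n : ℕ) (Q : Finset (Cell3 k n)) :
    (((univ : Finset (Fin k → Equiv.Perm (Fin n))).filter
      (fun A => ∀ p ∈ Q, A p.1 p.2.1 = p.2.2)).card : ℝ)
      ≤ ((n.factorial : ℕ) : ℝ) ^ k * (Real.exp 1 / n) ^ Q.card := by
  classical
  set Qi : Fin k → Finset (Fin n × Fin n) := fun i => (Q.filter (fun p => p.1 = i)).image Prod.snd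
    with hQi
  have h1 : (univ : Finset (Fin k → Equiv.Perm (Fin n))).filter
      (fun A => ∀ p ∈ Q, A p.1 p.2.1 = p.2.2) =
      Fintype.piFinset (fun i => (univ : Finset (Equiv.Perm (Fin n))).filter
        (fun σ => ∀ p ∈ Qi i, σ p.1 = p.2)) := by
    ext A
    simp only [mem_filter, mem_univ, true_and, Fintype.mem_piFinset]
    constructor
    · intro h i p hp
      obtain ⟨q, hq, rfl⟩ := mem_image.mp hp
      rw [mem_filter] at hq
      rw [← hq.2]
      exact h q hq.1
    · intro h p hp
      exact h p.1 p.2 (mem_image.mpr ⟨p, mem_filter.mpr ⟨hp, rfl⟩, rfl⟩)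
  rw [h1, Fintype.card_piFinset]
  push_cast
  have h2 : ∀ i ∈ (univ : Finset (Fin k)), (((univ : Finset (Equiv.Perm (Fin n))).filter
        (fun σ => ∀ p ∈ Qi i, σ p.1 = p.2)).card : ℝ) ≤
        ((n.factorial : ℕ) : ℝ) * (Real.exp 1 / n) ^ (Qi i).card :=
    fun i _ => card_perm_prescribed n (Qi i)
  refine (Finset.prod_le_prod (fun i _ => by positivity) h2).trans (le_of_eq ?_)
  rw [Finset.prod_mul_distrib, Finset.prod_const, card_univ, Fintype.card_fin,
    Finset.prod_pow_eq_pow_sum]
  congr 2
  rw [Finset.card_eq_sum_card_fiberwise (f := fun p : Cell3 k n => p.1) (t := univ)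
    (fun p _ => mem_coe.mpr (mem_univ _))]
  refine Finset.sum_congr rfl (fun i _ => ?_)
  rw [hQi]
  refine card_image_of_injOn ?_
  intro p hp q hq hpq
  rw [mem_coe, mem_filter] at hp hq
  exact Prod.ext (hp.2.trans hq.2.symm) hpq

end Pool.Agent.TYP
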