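import Mathlib
import Pool.Agent.TYP.Defs

/-!
TYP: definitions for Bregman's theorem (Schrijver's proof, with some rows frozen instead of minors).
-/

set_option linter.dupNamespace false
set_option linter.unusedVariables false

namespace Pool.Agent.TYP

open Finset

/-- Permutations which agree with `σ₀` on `P` and obey `A` outside `P`. -/
def PX {n : ℕ} (A : Fin n → Finset (Fin n)) (P : Finset (Fin n)) (σ₀ : Equiv.Perm (Fin n)) :
    Finset (Equiv.Perm (Fin n)) :=
  univ.filter (fun σ => (∀ i ∈ P, σ i = σ₀ i) ∧ ∀ i, i ∉ P → σ i ∈ A i)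

/-- Number of values in `A l` which are not taken by `σ₀` on `P`. -/
def res {n : ℕ} (A : Fin n → Finset (Fin n)) (P : Finset (Fin n)) (σ₀ : Equiv.Perm (Fin n))
    (l : Fin n) : ℕ :=
  (A l \ P.image σ₀).card

/-- `log (r!) / r` (and `0` for `r = 0`). -/
noncomputable def bm (r : ℕ) : ℝ := Real.log ((r.factorial : ℕ) : ℝ) / r

end Pool.Agent.TYP
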