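import Mathlib
import Pool.Agent.TYP.BregDefs

/-!
TYP module BA: two lemmas for Bregman's theorem.

`log_sum_ineq` (`x = ∑_{j ∈ B} p j`, `r = |B|`): if `x = 0` all `p j` are `0` and both sides are `0`.
Otherwise for every `j ∈ B`, `p j log (p j) ≥ p j log (x / r) + (p j - x / r)`: for `p j = 0` this is
`0 ≥ - x / r`, and for `p j > 0` it is `log t ≥ 1 - 1/t` with `t = r p j / x`
(`Real.one_sub_inv_le_log_of_pos`), multiplied by `p j`. Sum over `j ∈ B`: `∑ p j log (p j) ≥
x log (x/r) + x - x = x log x - x log r`.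

`key_sum`: `m = |Pᶜ|`. On the left exchange the order of summation:
`∑_{i ∈ Pᶜ} ∑_{l ∈ Pᶜ, l ≠ i} = ∑_{l ∈ Pᶜ} ∑_{i ∈ Pᶜ, i ≠ l}`. Fix `l ∈ Pᶜ`, `r = res A P σ l`;
`r ≥ 1` since `σ l ∈ A l \ P.image σ` (injectivity of `σ`). For `i ∈ Pᶜ`, `i ≠ l`:
`A l \ (insert i P).image σ = (A l \ P.image σ) \ {σ i}`, and `σ i ∉ P.image σ`, so
`res A (insert i P) σ l` is `r - 1` if `σ i ∈ A l` and `r` otherwise. The number of `i ∈ Pᶜ` with
`σ i ∈ A l` is `r` (`σ` maps `{i ∈ Pᶜ : σ i ∈ A l}` bijectively onto `A l \ P.image σ`), and `i = l`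
is one of them. So the inner sum is `(r-1) bm (r-1) + (m - r) bm r`. Now
`(r-1) bm (r-1) = log ((r-1)!)` (also for `r = 1`), `log ((r-1)!) + log r = log (r!) = r bm r`, so
together with `log r` the sum for `l` is `r bm r + (m - r) bm r = m bm r`.
-/

set_option linter.dupNamespace false
set_option linter.unusedVariables false

namespace Pool.Agent.TYP

open Finset

theorem log_sum_ineq {ι : Type*} (B : Finset ι) (p : ι → ℝ) (hp : ∀ j ∈ B, 0 ≤ p j) :
    (∑ j ∈ B, p j) * Real.log (∑ j ∈ B, p j) ≤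
      (∑ j ∈ B, p j) * Real.log B.card + ∑ j ∈ B, p j * Real.log (p j) := by
  set x := ∑ j ∈ B, p j with hx
  have hx0 : 0 ≤ x := Finset.sum_nonneg hp
  rcases hx0.eq_or_lt with h0 | h0
  · have h1 : ∀ j ∈ B, p j = 0 := (Finset.sum_eq_zero_iff_of_nonneg hp).1 (by rw [← hx, ← h0])
    rw [← h0, zero_mul, zero_mul, zero_add]
    refine (Finset.sum_nonneg fun j hj => ?_)
    rw [h1 j hj, zero_mul]
  · have hB : B.Nonempty := by
      by_contra hne
      rw [Finset.not_nonempty_iff_eq_empty] at hne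
      rw [hx, hne, Finset.sum_empty] at h0
      exact lt_irrefl _ h0
    have hr : (0 : ℝ) < B.card := by exact_mod_cast hB.card_pos
    have hxr : 0 < x / B.card := div_pos h0 hr
    have key : ∀ j ∈ B, p j * Real.log (x / B.card) + (p j - x / B.card) ≤
        p j * Real.log (p j) := by
      intro j hj
      rcases (hp j hj).eq_or_lt with h | h
      · rw [← h]
        simp only [zero_mul, zero_add, zero_sub]
        linarith
      · have ht : 0 < p j / (x / B.card) := div_pos h hxr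
        have h2 := Real.one_sub_inv_le_log_of_pos ht
        have h3 := mul_le_mul_of_nonneg_left h2 h.le
        rw [Real.log_div h.ne' hxr.ne', inv_div] at h3
        have h4 : p j * (1 - x / B.card / p j) = p j - x / B.card := by
          field_simp
        rw [h4] at h3
        linarith
    have h5 := Finset.sum_le_sum key
    rw [Finset.sum_add_distrib, Finset.sum_sub_distrib, ← Finset.sum_mul, Finset.sum_const,
      nsmul_eq_mul, ← hx, mul_div_cancel₀ _ hr.ne', sub_self, add_zero,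
      Real.log_div h0.ne' hr.ne', mul_sub] at h5
    linarith

private theorem bm_step (r : ℕ) (hr : 1 ≤ r) :
    Real.log r + ((r - 1 : ℕ) : ℝ) * bm (r - 1) = r * bm r := by
  obtain ⟨k, rfl⟩ : ∃ k, r = k + 1 := ⟨r - 1, by omega⟩
  rw [Nat.add_sub_cancel]
  have h1 : (k : ℝ) * bm k = Real.log ((k.factorial : ℕ) : ℝ) := by
    unfold bm
    rcases Nat.eq_zero_or_pos k with rfl | hk
    · simp
    · have : (k : ℝ) ≠ 0 := by exact_mod_cast hk.ne'
      field_simp
  have h2 : ((k + 1 : ℕ) : ℝ) * bm (k + 1) = Real.log (((k + 1).factorial : ℕ) : ℝ) := by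
    unfold bm
    have : ((k + 1 : ℕ) : ℝ) ≠ 0 := by exact_mod_cast (Nat.succ_ne_zero k)
    field_simp
  rw [h1, h2, Nat.factorial_succ, Nat.cast_mul, Real.log_mul]
  · exact_mod_cast (Nat.succ_ne_zero k)
  · exact_mod_cast (Nat.factorial_ne_zero k)

theorem key_sum {n : ℕ} (A : Fin n → Finset (Fin n)) (P : Finset (Fin n))
    (σ : Equiv.Perm (Fin n)) (hσ : ∀ i, i ∉ P → σ i ∈ A i) :
    ∑ i ∈ Pᶜ, (Real.log (res A P σ i) + ∑ l ∈ (insert i P)ᶜ, bm (res A (insert i P) σ l))
      = (Pᶜ.card : ℝ) * ∑ l ∈ Pᶜ, bm (res A P σ l) := by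
  have hswap : ∑ i ∈ Pᶜ, ∑ l ∈ (insert i P)ᶜ, bm (res A (insert i P) σ l) =
      ∑ l ∈ Pᶜ, ∑ i ∈ Pᶜ.erase l, bm (res A (insert i P) σ l) := by
    refine Finset.sum_comm' fun i l => ?_
    simp only [Finset.mem_compl, Finset.mem_insert, Finset.mem_erase, not_or]
    constructor
    · rintro ⟨h1, h2, h3⟩
      exact ⟨⟨fun h => h2 h.symm, h1⟩, h3⟩
    · rintro ⟨⟨h1, h2⟩, h3⟩
      exact ⟨h2, fun h => h1 h.symm, h3⟩
  rw [Finset.sum_add_distrib, hswap, ← Finset.sum_add_distrib, Finset.mul_sum]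
  refine Finset.sum_congr rfl fun l hl => ?_
  rw [Finset.mem_compl] at hl
  set R := A l \ P.image σ with hR
  have hnot : ∀ i, i ∉ P → σ i ∉ P.image σ := by
    intro i hi h
    rw [Finset.mem_image] at h
    obtain ⟨j, hj, hji⟩ := h
    exact hi (σ.injective hji ▸ hj)
  have hlR : σ l ∈ R := by
    rw [hR, Finset.mem_sdiff]
    exact ⟨hσ l hl, hnot l hl⟩
  have hres : res A P σ l = R.card := rfl
  have hr : 1 ≤ R.card := Finset.card_pos.2 ⟨_, hlR⟩
  have hres2 : ∀ i, i ∉ P → res A (insert i P) σ l = if σ i ∈ R then R.card - 1 else R.card := by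
    intro i hi
    have h1 : A l \ (insert i P).image σ = R.erase (σ i) := by
      ext z
      simp only [hR, Finset.image_insert, Finset.mem_sdiff, Finset.mem_insert, Finset.mem_erase,
        not_or]
      tauto
    unfold res
    rw [h1]
    split_ifs with h
    · exact Finset.card_erase_of_mem h
    · rw [Finset.erase_eq_of_notMem h]
  have hfil : (Pᶜ.erase l).filter (fun i => σ i ∈ R) = (R.image σ.symm).erase l := by
    ext i
    simp only [Finset.mem_filter, Finset.mem_erase, Finset.mem_compl, Finset.mem_image]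
    constructor
    · rintro ⟨⟨h1, h2⟩, h3⟩
      exact ⟨h1, σ i, h3, σ.symm_apply_apply i⟩
    · rintro ⟨h1, z, hz, rfl⟩
      refine ⟨⟨h1, ?_⟩, by rwa [σ.apply_symm_apply]⟩
      intro h2
      rw [hR, Finset.mem_sdiff] at hz
      exact hz.2 (Finset.mem_image.2 ⟨_, h2, σ.apply_symm_apply z⟩)
  have hcard1 : ((Pᶜ.erase l).filter (fun i => σ i ∈ R)).card = R.card - 1 := by
    rw [hfil, Finset.card_erase_of_mem, Finset.card_image_of_injective _ σ.symm.injective]
    exact Finset.mem_image.2 ⟨σ l, hlR, σ.symm_apply_apply l⟩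
  have hcard2 : (Pᶜ.erase l).card = Pᶜ.card - 1 :=
    Finset.card_erase_of_mem (Finset.mem_compl.2 hl)
  have hPc : 1 ≤ Pᶜ.card := Finset.card_pos.2 ⟨l, Finset.mem_compl.2 hl⟩
  have hsum : ∑ i ∈ Pᶜ.erase l, bm (res A (insert i P) σ l) =
      ((R.card - 1 : ℕ) : ℝ) * bm (R.card - 1) + ((Pᶜ.card : ℝ) - R.card) * bm R.card := by
    have h1 : ∑ i ∈ Pᶜ.erase l, bm (res A (insert i P) σ l) =
        ∑ i ∈ Pᶜ.erase l, if σ i ∈ R then bm (R.card - 1) else bm R.card := by
      refine Finset.sum_congr rfl fun i hi => ?_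
      rw [Finset.mem_erase, Finset.mem_compl] at hi
      rw [hres2 i hi.2]
      split_ifs <;> rfl
    have h2 := Finset.card_filter_add_card_filter_not (s := Pᶜ.erase l) (fun i => σ i ∈ R)
    rw [h1, Finset.sum_ite, Finset.sum_const, Finset.sum_const, nsmul_eq_mul, nsmul_eq_mul, hcard1]
    congr 2
    rw [hcard1, hcard2] at h2
    have h3 : ((Pᶜ.erase l).filter (fun i => ¬ σ i ∈ R)).card + R.card = Pᶜ.card := by omega
    have h4 : ((((Pᶜ.erase l).filter (fun i => ¬ σ i ∈ R)).card : ℕ) : ℝ) + R.card = Pᶜ.card := by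
      exact_mod_cast h3
    linarith
  rw [hsum, hres, ← add_assoc, bm_step _ hr]
  ring

end Pool.Agent.TYP
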