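import Mathlib
import Pool.Agent.TYP.BregA

/-!
TYP module BB: Bregman's theorem.

`bregman_log`: induction on `m = |Pᶜ|`, for all `P, σ₀`. `m = 0`: `PX = {σ₀}`, `log 1 = 0`. Step
(`m ≥ 1`): let `X = PX A P σ₀`, `x = |X|`. If `X = ∅`, `Real.log 0 = 0` and the right side is
nonnegative. Otherwise for `i ∈ Pᶜ` let `B i = A i \ P.image σ₀`, of size `r i = res A P σ₀ i`, and for
`j` let `p i j = |{σ ∈ X : σ i = j}|`. Every `σ ∈ X` has `σ i ∈ B i` (injectivity, `σ = σ₀` on `P`), so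
`∑_{j ∈ B i} p i j = x`, and `log_sum_ineq` gives
`x log x ≤ x log (r i) + ∑_{j ∈ B i} p i j log (p i j) = x log (r i) + ∑_{σ ∈ X} log (p i (σ i))`.
For `σ ∈ X`: `{σ' ∈ X : σ' i = σ i} = PX A (insert i P) σ`, so by the induction hypothesis
`log (p i (σ i)) ≤ ∑_{l ∈ (insert i P)ᶜ} bm (res A (insert i P) σ l)`. Sum over `i ∈ Pᶜ`; since
`res A P σ₀ = res A P σ` for `σ ∈ X`,
`m x log x ≤ ∑_{σ ∈ X} ∑_{i ∈ Pᶜ} (log (res A P σ i) + ∑_l bm (res A (insert i P) σ l))
  = ∑_{σ ∈ X} m ∑_{l ∈ Pᶜ} bm (res A P σ l) = x m ∑_{l ∈ Pᶜ} bm (res A P σ₀ l)` (`key_sum`).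
Divide by `m x > 0`.

`bregman_regular`: `P = ∅`: `log |X| ≤ n log (d!) / d`; if `|X| > 0` exponentiate.
-/

set_option linter.dupNamespace false
set_option linter.unusedVariables false

namespace Pool.Agent.TYP

open Finset

theorem bm_nonneg (r : ℕ) : 0 ≤ bm r := by
  unfold bm
  apply div_nonneg _ (Nat.cast_nonneg _)
  apply Real.log_nonneg
  exact_mod_cast Nat.one_le_iff_ne_zero.2 (Nat.factorial_ne_zero r)

theorem mem_PX {n : ℕ} {A : Fin n → Finset (Fin n)} {P : Finset (Fin n)}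
    {σ₀ σ : Equiv.Perm (Fin n)} :
    σ ∈ PX A P σ₀ ↔ (∀ i ∈ P, σ i = σ₀ i) ∧ ∀ i, i ∉ P → σ i ∈ A i := by
  simp [PX]

theorem PX_image {n : ℕ} {A : Fin n → Finset (Fin n)} {P : Finset (Fin n)}
    {σ₀ σ : Equiv.Perm (Fin n)} (h : σ ∈ PX A P σ₀) : P.image σ = P.image σ₀ :=
  Finset.image_congr fun i hi => (mem_PX.1 h).1 i hi

theorem PX_fiber {n : ℕ} {A : Fin n → Finset (Fin n)} {P : Finset (Fin n)}
    {σ₀ σ : Equiv.Perm (Fin n)} (h : σ ∈ PX A P σ₀) {i : Fin n} (hi : i ∉ P) :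
    (PX A P σ₀).filter (fun σ' => σ' i = σ i) = PX A (insert i P) σ := by
  ext σ'
  rw [Finset.mem_filter, mem_PX, mem_PX]
  rw [mem_PX] at h
  constructor
  · rintro ⟨⟨h1, h2⟩, h3⟩
    refine ⟨fun k hk => ?_, fun k hk => ?_⟩
    · rcases Finset.mem_insert.1 hk with rfl | hk
      · exact h3
      · rw [h1 k hk, h.1 k hk]
    · exact h2 k fun hk' => hk (Finset.mem_insert_of_mem hk')
  · rintro ⟨h1, h2⟩
    refine ⟨⟨fun k hk => ?_, fun k hk => ?_⟩, h1 i (Finset.mem_insert_self _ _)⟩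
    · rw [h1 k (Finset.mem_insert_of_mem hk), h.1 k hk]
    · by_cases hki : k = i
      · subst hki
        rw [h1 k (Finset.mem_insert_self _ _)]
        exact h.2 k hk
      · exact h2 k fun hk' => by
          rcases Finset.mem_insert.1 hk' with h3 | h3
          · exact hki h3
          · exact hk h3

theorem PX_maps {n : ℕ} {A : Fin n → Finset (Fin n)} {P : Finset (Fin n)}
    {σ₀ σ : Equiv.Perm (Fin n)} (h : σ ∈ PX A P σ₀) {i : Fin n} (hi : i ∉ P) :
    σ i ∈ A i \ P.image σ₀ := by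
  rw [Finset.mem_sdiff]
  refine ⟨(mem_PX.1 h).2 i hi, fun hc => ?_⟩
  rw [← PX_image h, Finset.mem_image] at hc
  obtain ⟨k, hk, hk2⟩ := hc
  have := σ.injective hk2
  rw [this] at hk
  exact hi hk

theorem bregman_log {n : ℕ} (A : Fin n → Finset (Fin n)) (m : ℕ) :
    ∀ (P : Finset (Fin n)) (σ₀ : Equiv.Perm (Fin n)), Pᶜ.card = m →
      Real.log ((PX A P σ₀).card : ℝ) ≤ ∑ l ∈ Pᶜ, bm (res A P σ₀ l) := by
  induction m with
  | zero =>
    intro P σ₀ hP
    have hPu : P = univ := by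
      rw [Finset.card_eq_zero, Finset.compl_eq_empty_iff] at hP
      exact hP
    subst hPu
    have : PX A univ σ₀ = {σ₀} := by
      ext σ
      rw [mem_PX, Finset.mem_singleton]
      constructor
      · rintro ⟨h, _⟩
        exact Equiv.ext fun i => h i (Finset.mem_univ i)
      · rintro rfl
        exact ⟨fun _ _ => rfl, fun i hi => absurd (Finset.mem_univ i) hi⟩
    rw [this]
    simp
  | succ m ih =>
    intro P σ₀ hP
    set X := PX A P σ₀ with hX
    rcases X.eq_empty_or_nonempty with hXe | hXn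
    · rw [hXe, Finset.card_empty, Nat.cast_zero, Real.log_zero]
      exact Finset.sum_nonneg fun l _ => bm_nonneg _
    have hx : (0 : ℝ) < X.card := by exact_mod_cast hXn.card_pos
    -- the inequality for one row
    have hrow : ∀ i ∈ Pᶜ, (X.card : ℝ) * Real.log X.card ≤ ∑ σ ∈ X,
        (Real.log (res A P σ i) + ∑ l ∈ (insert i P)ᶜ, bm (res A (insert i P) σ l)) := by
      intro i hi
      have hiP : i ∉ P := Finset.mem_compl.1 hi
      have hmaps : ∀ σ ∈ X, σ i ∈ A i \ P.image σ₀ := fun σ hσ => PX_maps hσ hiP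
      have hsum : ∑ j ∈ A i \ P.image σ₀, ((X.filter fun σ => σ i = j).card : ℝ) = X.card := by
        rw [← Nat.cast_sum, ← Finset.card_eq_sum_card_fiberwise hmaps]
      have h1 := log_sum_ineq (A i \ P.image σ₀)
        (fun j => ((X.filter fun σ => σ i = j).card : ℝ)) (fun j _ => Nat.cast_nonneg _)
      rw [hsum] at h1
      have h2 : ∑ j ∈ A i \ P.image σ₀, ((X.filter fun σ => σ i = j).card : ℝ) *
          Real.log ((X.filter fun σ => σ i = j).card : ℝ) =
          ∑ σ ∈ X, Real.log ((X.filter fun σ' => σ' i = σ i).card : ℝ) := by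
        rw [← Finset.sum_fiberwise_of_maps_to hmaps]
        refine Finset.sum_congr rfl fun j _ => ?_
        rw [← nsmul_eq_mul, ← Finset.sum_const]
        refine Finset.sum_congr rfl fun σ hσ => ?_
        rw [(Finset.mem_filter.1 hσ).2]
      rw [h2] at h1
      refine h1.trans ?_
      rw [← nsmul_eq_mul, ← Finset.sum_const, ← Finset.sum_add_distrib]
      refine Finset.sum_le_sum fun σ hσ => ?_
      apply add_le_add
      · unfold res
        rw [PX_image hσ]
      · rw [PX_fiber hσ hiP]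
        refine ih _ σ ?_
        rw [Finset.card_compl, Finset.card_insert_of_notMem hiP]
        rw [Finset.card_compl] at hP
        omega
    have h3 := Finset.sum_le_sum hrow
    rw [Finset.sum_const, nsmul_eq_mul, Finset.sum_comm] at h3
    have h4 : ∀ σ ∈ X, ∑ i ∈ Pᶜ,
        (Real.log (res A P σ i) + ∑ l ∈ (insert i P)ᶜ, bm (res A (insert i P) σ l)) =
        (Pᶜ.card : ℝ) * ∑ l ∈ Pᶜ, bm (res A P σ₀ l) := by
      intro σ hσ
      rw [key_sum A P σ (mem_PX.1 hσ).2]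
      congr 1
      refine Finset.sum_congr rfl fun l _ => ?_
      unfold res
      rw [PX_image hσ]
    rw [Finset.sum_congr rfl h4, Finset.sum_const, nsmul_eq_mul] at h3
    have hm : (0 : ℝ) < (Pᶜ.card : ℝ) := by rw [hP]; positivity
    have h5 : (Pᶜ.card : ℝ) * X.card * Real.log X.card ≤
        (Pᶜ.card : ℝ) * X.card * ∑ l ∈ Pᶜ, bm (res A P σ₀ l) := by
      calc (Pᶜ.card : ℝ) * X.card * Real.log X.card
          = (Pᶜ.card : ℝ) * ((X.card : ℝ) * Real.log X.card) := by ring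
        _ ≤ _ := h3
        _ = _ := by ring
    exact le_of_mul_le_mul_left h5 (by positivity)

theorem bregman_regular {n : ℕ} (A : Fin n → Finset (Fin n)) (d : ℕ)
    (hA : ∀ i, (A i).card = d) :
    (((univ : Finset (Equiv.Perm (Fin n))).filter (fun σ => ∀ i, σ i ∈ A i)).card : ℝ)
      ≤ ((d.factorial : ℕ) : ℝ) ^ ((n : ℝ) / (d : ℝ)) := by
  have h0 : (0 : ℝ) < ((d.factorial : ℕ) : ℝ) := by exact_mod_cast Nat.factorial_pos d
  set X := (univ : Finset (Equiv.Perm (Fin n))).filter (fun σ => ∀ i, σ i ∈ A i) with hX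
  rcases X.eq_empty_or_nonempty with hXe | hXn
  · rw [hXe, Finset.card_empty, Nat.cast_zero]
    exact Real.rpow_nonneg h0.le _
  have hx : (0 : ℝ) < X.card := by exact_mod_cast hXn.card_pos
  have h1 := bregman_log A n ∅ 1 (by simp)
  have h2 : PX A ∅ 1 = X := by
    ext σ
    rw [mem_PX, hX, Finset.mem_filter]
    simp
  have h3 : ∑ l ∈ (∅ : Finset (Fin n))ᶜ, bm (res A ∅ 1 l) =
      Real.log ((d.factorial : ℕ) : ℝ) * ((n : ℝ) / d) := by
    have : ∀ l ∈ (∅ : Finset (Fin n))ᶜ, bm (res A ∅ 1 l) = bm d := by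
      intro l _
      simp [res, hA]
    rw [Finset.sum_congr rfl this, Finset.sum_const, nsmul_eq_mul]
    unfold bm
    simp
    ring
  rw [h2, h3] at h1
  rw [Real.rpow_def_of_pos h0, ← Real.log_le_iff_le_exp hx]
  exact h1

end Pool.Agent.TYP
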