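import Mathlib
import Pool.Agent.TYP.Defs

/-!
TYP module RA: available symbols.

`card_avail`: `avail A x` is the complement of the image of `i ↦ A i x`, which is injective for
`A ∈ Rect n j`.
`card_avail_col`: `s ∉ avail A x` iff `A i x = s` for some `i`, i.e. `x = (A i)⁻¹ s` for some `i`; the
map `i ↦ (A i)⁻¹ s` is injective (if `x = (A i)⁻¹ s = (A i')⁻¹ s` then `A i x = A i' x`), so exactly
`j` of the `x` have `s ∉ avail A x`.
`snoc_mem_Rect`: split pairs `i ≠ i'` of `Fin (j+1)` according to which of them is `Fin.last j`.
`le_of_mem_Rect` is a consequence of `card_avail`-type injectivity: for `n ≥ 1`, `i ↦ A i 0` is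
injective, so `j ≤ n`.
-/

set_option linter.dupNamespace false
set_option linter.unusedVariables false

namespace Pool.Agent.TYP

open Finset

theorem RectA_mem {n j : ℕ} (A : Fin j → Equiv.Perm (Fin n)) :
    A ∈ Rect n j ↔ ∀ i i', i ≠ i' → ∀ x, A i x ≠ A i' x := by
  simp only [Rect, mem_filter, mem_univ, true_and]

theorem card_avail {n j : ℕ} (A : Fin j → Equiv.Perm (Fin n)) (hA : A ∈ Rect n j) (x : Fin n) :
    (avail A x).card = n - j := by
  rw [RectA_mem] at hA
  have h1 : avail A x = (univ.image fun i => A i x)ᶜ := by
    ext s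
    simp only [avail, mem_filter, mem_univ, true_and, mem_compl, mem_image, not_exists]
  have hinj : Function.Injective fun i => A i x := by
    intro i i' h
    by_contra hne
    exact hA i i' hne x h
  rw [h1, card_compl, card_image_of_injective _ hinj, card_univ, Fintype.card_fin,
    Fintype.card_fin]

theorem card_avail_col {n j : ℕ} (A : Fin j → Equiv.Perm (Fin n)) (hA : A ∈ Rect n j)
    (s : Fin n) :
    ((univ : Finset (Fin n)).filter (fun x => s ∈ avail A x)).card = n - j := by
  rw [RectA_mem] at hA
  have h1 : (univ : Finset (Fin n)).filter (fun x => s ∈ avail A x) =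
      (univ.image fun i => (A i)⁻¹ s)ᶜ := by
    ext x
    simp only [avail, mem_filter, mem_univ, true_and, mem_compl, mem_image, not_exists]
    constructor
    · intro h i hi
      apply h i
      rw [← hi]
      exact (A i).apply_symm_apply s
    · intro h i hi
      apply h i
      rw [← hi]
      exact (A i).symm_apply_apply x
  have hinj : Function.Injective fun i => (A i)⁻¹ s := by
    intro i i' h
    by_contra hne
    have h2 : A i ((A i)⁻¹ s) = A i' ((A i)⁻¹ s) := by
      have h3 : (A i)⁻¹ s = (A i')⁻¹ s := h
      have h4 : A i ((A i)⁻¹ s) = s := (A i).apply_symm_apply s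
      have h5 : A i' ((A i')⁻¹ s) = s := (A i').apply_symm_apply s
      rw [h4, h3, h5]
    exact hA i i' hne _ h2
  rw [h1, card_compl, card_image_of_injective _ hinj, card_univ, Fintype.card_fin,
    Fintype.card_fin]

theorem snoc_mem_Rect {n j : ℕ} (A : Fin j → Equiv.Perm (Fin n)) (σ : Equiv.Perm (Fin n)) :
    (Fin.snoc A σ : Fin (j + 1) → Equiv.Perm (Fin n)) ∈ Rect n (j + 1) ↔
      A ∈ Rect n j ∧ ∀ x, σ x ∈ avail A x := by
  rw [RectA_mem, RectA_mem]
  constructor
  · intro h
    constructor
    · intro i i' hne x
      have h1 := h i.castSucc i'.castSucc (fun h2 => hne (Fin.castSucc_injective _ h2)) x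
      rwa [Fin.snoc_castSucc, Fin.snoc_castSucc] at h1
    · intro x
      simp only [avail, mem_filter, mem_univ, true_and]
      intro i
      have h1 := h i.castSucc (Fin.last j) (Fin.castSucc_lt_last i).ne x
      rwa [Fin.snoc_castSucc, Fin.snoc_last] at h1
  · rintro ⟨h1, h2⟩ i i' hne x
    simp only [avail, mem_filter, mem_univ, true_and] at h2
    induction i using Fin.lastCases with
    | last =>
      induction i' using Fin.lastCases with
      | last => exact absurd rfl hne
      | cast i' =>
        rw [Fin.snoc_castSucc, Fin.snoc_last]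
        exact (h2 x i').symm
    | cast i =>
      induction i' using Fin.lastCases with
      | last =>
        rw [Fin.snoc_castSucc, Fin.snoc_last]
        exact h2 x i
      | cast i' =>
        rw [Fin.snoc_castSucc, Fin.snoc_castSucc]
        exact h1 i i' (fun h3 => hne (congrArg _ h3)) x

end Pool.Agent.TYP
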