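import Mathlib
import Pool.Agent.TYP.Defs

/-!
TYP: definitions for the lower bound for permanents (Gurvits' proof).
-/

set_option linter.dupNamespace false
set_option linter.unusedVariables false

namespace Pool.Agent.TYP

open Finset MvPolynomial

/-- `p` has no zero in the product of the open right half planes. -/
def Stab {n : ℕ} (p : MvPolynomial (Fin n) ℝ) : Prop :=
  ∀ z : Fin n → ℂ, (∀ j, 0 < (z j).re) → aeval z p ≠ 0

/-- The coefficient of the first power of the variable `0`. -/
noncomputable def cone {n : ℕ} (p : MvPolynomial (Fin (n + 1)) ℝ) : MvPolynomial (Fin n) ℝ :=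
  (finSuccEquiv ℝ n p).coeff 1

end Pool.Agent.TYP
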