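import Mathlib
import Pool.Agent.TYP.VdwDefs

/-!
TYP module VA: for a homogeneous polynomial without zeros in the right half planes,
`|p(Re z)| ≤ |p(z)|`.

Let `x = Re z` (positive), `y = Im z`, and let `f ∈ ℂ[s]` be `p(x + s y)`, i.e.
`aeval (fun j => C (x j) + C (y j) * X) p : Polynomial ℂ`, so `f.eval s = aeval (fun j => x j + s y j) p`.
`f.eval 0 = p(x) ≠ 0` by `hs`. All roots of `f` are real: if `s = a + b i`, `b ≠ 0`, let
`l = b * i * conj s` (complex number); then `l * s = b |s|^2 i` is purely imaginary and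
`Re (l x_j) = b^2 x_j > 0`, so `Re (l (x_j + s y_j)) = b^2 x_j > 0` for all `j`, so
`0 ≠ p(l (x + s y)) = l^d p(x + s y) = l^d f(s)`.
Now `f = f.leadingCoeff * ∏ (X - ρ)` over the multiset of roots (`IsAlgClosed.splits`), all `ρ` real,
and `|i - ρ| = sqrt (1 + ρ^2) ≥ |ρ| = |0 - ρ|`. So `|p(z)| = |f(i)| ≥ |f(0)| = |p(x)|`.
-/

set_option linter.dupNamespace false
set_option linter.unusedVariables false

namespace Pool.Agent.TYP

open Finset MvPolynomial

private lemma aeval_mul_homog {n d : ℕ} {p : MvPolynomial (Fin n) ℝ} (hp : p.IsHomogeneous d)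
    (l : ℂ) (w : Fin n → ℂ) : aeval (fun j => l * w j) p = l ^ d * aeval w p := by
  rw [aeval_def, aeval_def, eval₂_eq', eval₂_eq', Finset.mul_sum]
  refine Finset.sum_congr rfl fun m hm => ?_
  have h : d = ∑ i, m i := by
    rw [hp.degree_eq_sum_deg_support hm]
    refine Finset.sum_subset (Finset.subset_univ _) fun i _ hi => ?_
    simpa using hi
  rw [Finset.prod_congr rfl (fun i _ => mul_pow _ _ _), Finset.prod_mul_distrib,
    Finset.prod_pow_eq_pow_sum, ← h]
  ring

private lemma prod_norm_le (s : Multiset ℂ) (h : ∀ r ∈ s, r.im = 0) :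
    ‖(s.map (fun r => (0 : ℂ) - r)).prod‖ ≤ ‖(s.map (fun r => Complex.I - r)).prod‖ := by
  induction s using Multiset.induction_on with
  | empty => simp
  | cons a s ih =>
    rw [Multiset.map_cons, Multiset.map_cons, Multiset.prod_cons, Multiset.prod_cons, norm_mul,
      norm_mul]
    refine mul_le_mul ?_ (ih fun r hr => h r (Multiset.mem_cons_of_mem hr)) (norm_nonneg _)
      (norm_nonneg _)
    have ha : a.im = 0 := h a (Multiset.mem_cons_self a s)
    refine (pow_le_pow_iff_left₀ (norm_nonneg _) (norm_nonneg _) two_ne_zero).1 ?_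
    rw [Complex.sq_norm, Complex.sq_norm, Complex.normSq_apply, Complex.normSq_apply]
    simp only [Complex.sub_re, Complex.zero_re, Complex.sub_im, Complex.zero_im, ha,
      Complex.I_re, Complex.I_im]
    nlinarith

theorem norm_ge {n d : ℕ} (p : MvPolynomial (Fin n) ℝ) (hp : p.IsHomogeneous d) (hs : Stab p)
    (z : Fin n → ℂ) (hz : ∀ j, 0 < (z j).re) :
    ‖aeval (fun j => (((z j).re : ℝ) : ℂ)) p‖ ≤ ‖aeval z p‖ := by
  set f : Polynomial ℂ := aeval (fun j => Polynomial.C (((z j).re : ℝ) : ℂ)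
    + Polynomial.C (((z j).im : ℝ) : ℂ) * Polynomial.X) p with hf
  have hev : ∀ s : ℂ, f.eval s = aeval (fun j => (((z j).re : ℝ) : ℂ) + (((z j).im : ℝ) : ℂ) * s) p := by
    intro s
    have h1 := MvPolynomial.comp_aeval_apply (R := ℝ) (fun j => Polynomial.C (((z j).re : ℝ) : ℂ)
      + Polynomial.C (((z j).im : ℝ) : ℂ) * Polynomial.X)
      ((Polynomial.aeval s : Polynomial ℂ →ₐ[ℂ] ℂ).restrictScalars ℝ) p
    rw [← hf] at h1
    simp only [AlgHom.restrictScalars_apply, Polynomial.coe_aeval_eq_eval, Polynomial.eval_add,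
      Polynomial.eval_mul, Polynomial.eval_C, Polynomial.eval_X] at h1
    exact h1
  have h0 : f.eval 0 = aeval (fun j => (((z j).re : ℝ) : ℂ)) p := by
    rw [hev]
    simp
  have h1 : f.eval Complex.I = aeval z p := by
    rw [hev]
    congr 2
    funext j
    exact Complex.re_add_im (z j)
  have hne : f ≠ 0 := by
    intro hcon
    rw [hcon, Polynomial.eval_zero] at h0
    exact hs _ (fun j => by simpa using hz j) h0.symm
  have hroot : ∀ r ∈ f.roots, r.im = 0 := by
    intro r hr
    by_contra hcon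
    have hr0 : f.eval r = 0 := (Polynomial.mem_roots hne).1 hr
    rw [hev] at hr0
    set l : ℂ := (r.im : ℂ) * Complex.I * (starRingEnd ℂ) r with hl
    have hstab := hs (fun j => l * ((((z j).re : ℝ) : ℂ) + (((z j).im : ℝ) : ℂ) * r)) ?_
    · rw [aeval_mul_homog hp, hr0, mul_zero] at hstab
      exact hstab rfl
    · intro j
      have e : (l * ((((z j).re : ℝ) : ℂ) + (((z j).im : ℝ) : ℂ) * r)).re
          = r.im ^ 2 * (z j).re := by
        rw [hl]
        simp only [Complex.mul_re, Complex.mul_im, Complex.add_re, Complex.add_im,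
          Complex.ofReal_re, Complex.ofReal_im, Complex.I_re, Complex.I_im, Complex.conj_re,
          Complex.conj_im]
        ring
      rw [e]
      exact mul_pos (by positivity) (hz j)
  have hsp : f.Splits := IsAlgClosed.splits f
  rw [← h0, ← h1, hsp.eval_eq_prod_roots, hsp.eval_eq_prod_roots, norm_mul, norm_mul]
  exact mul_le_mul_of_nonneg_left (prod_norm_le _ hroot) (norm_nonneg _)

end Pool.Agent.TYP
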