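import Mathlib
import Pool.Agent.TYP.VdwDefs
import Pool.Agent.TYP.VdwA

/-!
TYP module VB: stability of the coefficient of the first variable (Gauss-Lucas).

`p' = pderiv 0 p` is homogeneous of degree `d - 1`. For `z : Fin n → ℂ` with positive real parts let
`f_z = (finSuccEquiv ℝ n p)` with coefficients evaluated at `z` (a polynomial over `ℂ`), so
`f_z.eval t = aeval (Fin.cons t z) p`, `f_z.derivative.eval t = aeval (Fin.cons t z) p'` and
`f_z.coeff 1 = aeval z (cone p) = aeval (Fin.cons 0 z) p'`.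

1. `f_z` is not constant: for real `t > 0`, `norm_ge` gives `|f_z(t)| ≥ |p(t, Re z)|`, and
`p(t, Re z) ≥ t * q(Re z)` where `q = cone p`, because all coefficients are nonnegative; `q(Re z) > 0`
as `q ≠ 0` has nonnegative coefficients and `Re z` is positive. So `|f_z(t)| → ∞`.
2. `p'` is stable: let `t₀` have positive real part. All roots of `f_z` have real part `≤ 0` (`hs`),
so by Gauss-Lucas (`Polynomial.rootSet_derivative_subset_convexHull_rootSet` or
`Polynomial.eq_centerMass_of_eval_derivative_eq_zero`) the roots of its derivative too (the left half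
plane is convex), so `aeval (Fin.cons t₀ z) p' ≠ 0`.
3. By `norm_ge` for `p'`: `|p'(t, Re z)| ≤ |p'(t, z)|` for all real `t > 0`. Let `t → 0`:
`q(Re z) = |p'(0, Re z)| ≤ |p'(0, z)| = |q(z)|`. Since `q(Re z) > 0`, `q(z) ≠ 0`.
-/

set_option linter.dupNamespace false
set_option linter.unusedVariables false

namespace Pool.Agent.TYP

open Finset MvPolynomial

private lemma fse_pderiv {n : ℕ} (p : MvPolynomial (Fin (n + 1)) ℝ) :
    finSuccEquiv ℝ n (pderiv 0 p) = Polynomial.derivative (finSuccEquiv ℝ n p) := by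
  induction p using MvPolynomial.induction_on with
  | C a =>
    rw [pderiv_C, map_zero]
    have h : finSuccEquiv ℝ n (C a) = Polynomial.C (C a) := by
      have h0 : (finSuccEquiv ℝ n).symm (Polynomial.C (C a)) = C a :=
        RingHom.congr_fun (finSuccEquiv_comp_C_eq_C (R := ℝ) n) a
      rw [← h0, AlgEquiv.apply_symm_apply]
    rw [h, Polynomial.derivative_C]
  | add p q hp hq => rw [map_add, map_add, map_add, Polynomial.derivative_add, hp, hq]
  | mul_X p i hp =>
    rw [Derivation.leibniz, map_add, map_mul, Polynomial.derivative_mul]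
    simp only [smul_eq_mul, map_mul]
    rw [hp]
    refine Fin.cases ?_ (fun j => ?_) i
    · rw [pderiv_X_self, finSuccEquiv_X_zero, Polynomial.derivative_X, map_one]
      ring
    · rw [pderiv_X_of_ne (Fin.succ_ne_zero j), finSuccEquiv_X_succ, Polynomial.derivative_C,
        map_zero]
      ring

/-- The polynomial in the first variable, the others being evaluated at `z`. -/
private noncomputable def fz {n : ℕ} (p : MvPolynomial (Fin (n + 1)) ℝ) (z : Fin n → ℂ) :
    Polynomial ℂ :=
  (finSuccEquiv ℝ n p).map (aeval z : MvPolynomial (Fin n) ℝ →ₐ[ℝ] ℂ).toRingHom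

private lemma fz_eval {n : ℕ} (p : MvPolynomial (Fin (n + 1)) ℝ) (z : Fin n → ℂ) (t : ℂ) :
    (fz p z).eval t = aeval (Fin.cons t z : Fin (n + 1) → ℂ) p := by
  unfold fz
  induction p using MvPolynomial.induction_on with
  | C a =>
    have h : finSuccEquiv ℝ n (C a) = Polynomial.C (C a) := by
      have h0 : (finSuccEquiv ℝ n).symm (Polynomial.C (C a)) = C a :=
        RingHom.congr_fun (finSuccEquiv_comp_C_eq_C (R := ℝ) n) a
      rw [← h0, AlgEquiv.apply_symm_apply]
    rw [h]
    simp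
  | add p q hp hq => rw [map_add, Polynomial.map_add, Polynomial.eval_add, hp, hq, map_add]
  | mul_X p i hp =>
    rw [map_mul, Polynomial.map_mul, Polynomial.eval_mul, hp, map_mul, aeval_X]
    congr 1
    refine Fin.cases ?_ (fun j => ?_) i
    · rw [finSuccEquiv_X_zero]
      simp
    · rw [finSuccEquiv_X_succ]
      simp

private lemma fz_deriv {n : ℕ} (p : MvPolynomial (Fin (n + 1)) ℝ) (z : Fin n → ℂ) :
    (fz p z).derivative = fz (pderiv 0 p) z := by
  unfold fz
  rw [fse_pderiv, Polynomial.derivative_map]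

private lemma fz_coeff {n : ℕ} (p : MvPolynomial (Fin (n + 1)) ℝ) (z : Fin n → ℂ) :
    (fz p z).coeff 1 = aeval z (cone p) := by
  unfold fz cone
  rw [Polynomial.coeff_map]
  rfl

private lemma fz_deriv_zero {n : ℕ} (p : MvPolynomial (Fin (n + 1)) ℝ) (z : Fin n → ℂ) :
    (fz (pderiv 0 p) z).eval 0 = aeval z (cone p) := by
  rw [← fz_deriv, ← Polynomial.coeff_zero_eq_eval_zero, Polynomial.coeff_derivative, zero_add,
    fz_coeff]
  simp

private lemma aeval_real {n : ℕ} (q : MvPolynomial (Fin n) ℝ) (x : Fin n → ℝ) :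
    aeval (fun j => ((x j : ℝ) : ℂ)) q = ((eval x q : ℝ) : ℂ) := by
  have h := MvPolynomial.aeval_algebraMap_apply (A := ℝ) ℂ x q
  simp only [Complex.coe_algebraMap] at h
  have h2 : (algebraMap ℝ ℂ) ∘ x = fun j => ((x j : ℝ) : ℂ) := rfl
  have h3 : aeval x q = eval x q := by
    rw [← MvPolynomial.coe_aeval_eq_eval]
    rfl
  rw [← h3, ← h]
  rfl

private lemma eval_pos {n : ℕ} {q : MvPolynomial (Fin n) ℝ} (hq : q ≠ 0)
    (hnn : ∀ m, 0 ≤ coeff m q) {x : Fin n → ℝ} (hx : ∀ j, 0 < x j) : 0 < eval x q := by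
  obtain ⟨m, hm⟩ := MvPolynomial.exists_coeff_ne_zero hq
  rw [eval_eq']
  have hterm : ∀ m ∈ q.support, 0 ≤ coeff m q * ∏ i, x i ^ m i := fun m _ =>
    mul_nonneg (hnn m) (Finset.prod_nonneg fun i _ => (pow_pos (hx i) _).le)
  refine Finset.sum_pos' hterm ⟨m, mem_support_iff.2 hm, ?_⟩
  exact mul_pos (lt_of_le_of_ne (hnn m) (Ne.symm hm)) (Finset.prod_pos fun i _ => pow_pos (hx i) _)

/-- For real positive arguments the first coefficient gives a lower bound. -/
private lemma lower {n : ℕ} {p : MvPolynomial (Fin (n + 1)) ℝ} (hnn : ∀ m, 0 ≤ coeff m p)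
    {x : Fin n → ℝ} (hx : ∀ j, 0 < x j) {t : ℝ} (ht : 0 < t) :
    t * eval x (cone p) ≤ ‖(fz p (fun j => ((x j : ℝ) : ℂ))).eval (t : ℂ)‖ := by
  have hc : ∀ i, ((fz p (fun j => ((x j : ℝ) : ℂ))).coeff i) =
      ((eval x ((finSuccEquiv ℝ n p).coeff i) : ℝ) : ℂ) := by
    intro i
    unfold fz
    rw [Polynomial.coeff_map]
    exact aeval_real _ x
  have hc0 : ∀ i, 0 ≤ eval x ((finSuccEquiv ℝ n p).coeff i) := by
    intro i
    rw [eval_eq']
    refine Finset.sum_nonneg fun m _ => mul_nonneg ?_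
      (Finset.prod_nonneg fun j _ => (pow_pos (hx j) _).le)
    rw [finSuccEquiv_coeff_coeff]
    exact hnn _
  rw [Polynomial.eval_eq_sum_range]
  have h1 : ∑ i ∈ Finset.range ((fz p (fun j => ((x j : ℝ) : ℂ))).natDegree + 1),
      (fz p (fun j => ((x j : ℝ) : ℂ))).coeff i * (t : ℂ) ^ i =
      ((∑ i ∈ Finset.range ((fz p (fun j => ((x j : ℝ) : ℂ))).natDegree + 1),
        eval x ((finSuccEquiv ℝ n p).coeff i) * t ^ i : ℝ) : ℂ) := by
    push_cast
    refine Finset.sum_congr rfl fun i _ => ?_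
    rw [hc]
  rw [h1, Complex.norm_real, Real.norm_of_nonneg
    (Finset.sum_nonneg fun i _ => mul_nonneg (hc0 i) (pow_pos ht i).le)]
  rcases Nat.eq_zero_or_pos (fz p (fun j => ((x j : ℝ) : ℂ))).natDegree with h0 | h0
  · have h2 : (fz p (fun j => ((x j : ℝ) : ℂ))).coeff 1 = 0 :=
      Polynomial.coeff_eq_zero_of_natDegree_lt (by omega)
    rw [hc 1] at h2
    have h3 : eval x (cone p) = 0 := by
      unfold cone
      exact_mod_cast h2
    rw [h3, mul_zero]
    exact Finset.sum_nonneg fun i _ => mul_nonneg (hc0 i) (pow_pos ht i).le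
  · have h2 := Finset.single_le_sum (f := fun i => eval x ((finSuccEquiv ℝ n p).coeff i) * t ^ i)
      (s := Finset.range ((fz p (fun j => ((x j : ℝ) : ℂ))).natDegree + 1))
      (fun i _ => mul_nonneg (hc0 i) (pow_pos ht i).le) (Finset.mem_range.2 (by omega : 1 < _))
    refine le_trans (le_of_eq ?_) h2
    unfold cone
    ring

theorem stab_cone {n d : ℕ} (p : MvPolynomial (Fin (n + 1)) ℝ) (hp : p.IsHomogeneous d)
    (hs : Stab p) (hnn : ∀ m, 0 ≤ coeff m p) (hq : cone p ≠ 0) : Stab (cone p) := by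
  have hqnn : ∀ m, 0 ≤ coeff m (cone p) := by
    intro m
    unfold cone
    rw [finSuccEquiv_coeff_coeff]
    exact hnn _
  -- the derivative is stable
  have hdeg : ∀ z : Fin n → ℂ, (∀ j, 0 < (z j).re) → (fz p z).natDegree ≠ 0 := by
    intro z hz hcon
    obtain ⟨c, hc⟩ := Polynomial.natDegree_eq_zero.1 hcon
    have hx : 0 < eval (fun j => (z j).re) (cone p) := eval_pos hq hqnn hz
    have hbound : ∀ t : ℝ, 0 < t → t * eval (fun j => (z j).re) (cone p) ≤ ‖c‖ := by
      intro t ht
      have h1 := lower hnn (x := fun j => (z j).re) hz ht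
      have h2 := norm_ge p hp hs (Fin.cons (t : ℂ) z : Fin (n + 1) → ℂ) (by
        intro j
        refine Fin.cases ?_ (fun i => ?_) j
        · simpa using ht
        · simpa using hz i)
      have h3 : (fun j : Fin (n + 1) => ((((Fin.cons (t : ℂ) z : Fin (n + 1) → ℂ) j).re : ℝ) : ℂ)) =
          (Fin.cons (t : ℂ) (fun j => (((z j).re : ℝ) : ℂ)) : Fin (n + 1) → ℂ) := by
        funext j
        refine Fin.cases ?_ (fun i => ?_) j
        · simp
        · simp
      rw [h3, ← fz_eval, ← fz_eval, ← hc, Polynomial.eval_C] at h2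
      exact h1.trans h2
    have h4 := hbound ((‖c‖ + 1) / eval (fun j => (z j).re) (cone p)) (by positivity)
    rw [div_mul_cancel₀ _ hx.ne'] at h4
    linarith
  have hs' : Stab (pderiv 0 p) := by
    intro w hw
    have hwc : w = (Fin.cons (w 0) (fun j => w j.succ) : Fin (n + 1) → ℂ) :=
      (Fin.cons_self_tail w).symm
    set z : Fin n → ℂ := fun j => w j.succ with hz
    have hz0 : ∀ j, 0 < (z j).re := fun j => hw j.succ
    rw [hwc, ← fz_eval, ← fz_deriv]
    intro hcon
    have hd := hdeg z hz0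
    have hd0 : 0 < (fz p z).degree := Polynomial.natDegree_pos_iff_degree_pos.1
      (Nat.pos_of_ne_zero hd)
    have hder : (fz p z).derivative ≠ 0 := fun h =>
      hd (Polynomial.derivative_eq_zero.1 h)
    have hmem : w 0 ∈ (fz p z).derivative.rootSet ℂ := by
      rw [Polynomial.mem_rootSet]
      exact ⟨hder, by rw [Polynomial.coe_aeval_eq_eval]; exact hcon⟩
    have h1 := Polynomial.rootSet_derivative_subset_convexHull_rootSet hd0 hmem
    have h2 : convexHull ℝ ((fz p z).rootSet ℂ) ⊆ {c : ℂ | c.re ≤ 0} := by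
      refine convexHull_min ?_ (convex_halfSpace_re_le 0)
      intro r hr
      rw [Polynomial.mem_rootSet, Polynomial.coe_aeval_eq_eval, fz_eval] at hr
      by_contra hcon2
      have hcon3 : 0 < r.re := not_le.1 hcon2
      refine hs (Fin.cons r z : Fin (n + 1) → ℂ) (fun j => ?_) hr.2
      refine Fin.cases ?_ (fun i => ?_) j
      · simpa using hcon3
      · simpa using hz0 i
    have h3 : (w 0).re ≤ 0 := h2 h1
    exact absurd (hw 0) (not_lt.2 h3)
  have hp' : (pderiv 0 p).IsHomogeneous (d - 1) := hp.pderiv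
  intro z hz
  have hx : 0 < eval (fun j => (z j).re) (cone p) := eval_pos hq hqnn hz
  have hle : ∀ t : ℝ, 0 < t → ‖(fz (pderiv 0 p) (fun j => (((z j).re : ℝ) : ℂ))).eval (t : ℂ)‖ ≤
      ‖(fz (pderiv 0 p) z).eval (t : ℂ)‖ := by
    intro t ht
    have h2 := norm_ge (pderiv 0 p) hp' hs' (Fin.cons (t : ℂ) z : Fin (n + 1) → ℂ) (by
      intro j
      refine Fin.cases ?_ (fun i => ?_) j
      · simpa using ht
      · simpa using hz i)
    have h3 : (fun j : Fin (n + 1) => ((((Fin.cons (t : ℂ) z : Fin (n + 1) → ℂ) j).re : ℝ) : ℂ)) =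
        (Fin.cons (t : ℂ) (fun j => (((z j).re : ℝ) : ℂ)) : Fin (n + 1) → ℂ) := by
      funext j
      refine Fin.cases ?_ (fun i => ?_) j
      · simp
      · simp
    rw [h3, ← fz_eval, ← fz_eval] at h2
    exact h2
  have hlim : ∀ w : Fin n → ℂ, Filter.Tendsto (fun t : ℝ => ‖(fz (pderiv 0 p) w).eval (t : ℂ)‖)
      (nhdsWithin 0 (Set.Ioi 0)) (nhds ‖(fz (pderiv 0 p) w).eval 0‖) := by
    intro w
    have hc : Continuous fun t : ℝ => ‖(fz (pderiv 0 p) w).eval (t : ℂ)‖ :=
      ((fz (pderiv 0 p) w).continuous.comp Complex.continuous_ofReal).norm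
    have := hc.tendsto 0
    simp only [Complex.ofReal_zero] at this
    exact this.mono_left nhdsWithin_le_nhds
  have hfin := le_of_tendsto_of_tendsto (hlim _) (hlim z) (by
    filter_upwards [self_mem_nhdsWithin] with t ht
    exact hle t ht)
  rw [fz_deriv_zero, fz_deriv_zero, aeval_real, Complex.norm_real, Real.norm_of_nonneg hx.le] at hfin
  intro hcon
  rw [hcon, norm_zero] at hfin
  linarith

end Pool.Agent.TYP
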