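import Mathlib
import Pool.Agent.TYP.VdwDefs

/-!
TYP module VC: the one-variable inequality.

`R ≠ 0` (otherwise `z = 1` would contradict `hroots`). Write `R_0 = R.coeff 0`, `R_1 = R.coeff 1`.
* `c = 0`: trivial. * `R_0 = 0`: `c ≤ R(t)/t → R_1` as `t → 0+`, and `((k-1)/k)^(k-1) ≤ 1`.
* `R_0 > 0` (`univ_pow`): over `ℂ`, `R = a ∏_{i ≤ m} (X - ρ_i)`, `m = natDegree R ≤ k`, all
`ρ_i = - b_i` with `b_i > 0` real. Comparing `R(t)` with `R(0)`: `R(t) = R_0 ∏ (1 + t / b_i)` and
`R_1 = R_0 ∑ 1/b_i`. For `t ≥ 0` AM-GM (pad the product with `k - m` factors `1`) gives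
`R(t) ≤ R_0 (1 + t R_1 / (k R_0))^k`.
Now for `k = 1` let `t → ∞` in `c t ≤ R_0 + t R_1`. For `k ≥ 2`: `R_1 > 0` (else `c t ≤ R_0` for all
`t > 0`), and `t = k R_0 / ((k-1) R_1)` gives `c t ≤ R_0 (k/(k-1))^k`, i.e.
`c ≤ R_1 (k/(k-1))^(k-1)`.
-/

set_option linter.dupNamespace false
set_option linter.unusedVariables false

namespace Pool.Agent.TYP

open Finset Polynomial

private lemma step_ineq (k : ℕ) (x y : ℝ) (hx : 0 ≤ x) (hy : 0 ≤ y) :
    (1 + x) * (1 + y / k) ^ k ≤ (1 + (x + y) / (k + 1 : ℕ)) ^ (k + 1) := by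
  rcases Nat.eq_zero_or_pos k with rfl | hk
  · simp
    linarith
  · have hk0 : (0 : ℝ) < k := by exact_mod_cast hk
    set B : ℝ := 1 + y / k with hB
    have hB1 : 1 ≤ B := by
      have : 0 ≤ y / k := by positivity
      linarith
    have hB0 : 0 < B := by linarith
    set A : ℝ := 1 + (x + y) / ((k + 1 : ℕ) : ℝ) with hA
    have hk1 : ((k + 1 : ℕ) : ℝ) = (k : ℝ) + 1 := by push_cast; ring
    have hA1 : 1 ≤ A := by
      have : 0 ≤ (x + y) / ((k + 1 : ℕ) : ℝ) := by positivity
      linarith
    have h1 : 1 + x = B + (k + 1) * (A - B) := by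
      have e1 : ((k : ℝ) + 1) * A = (k + 1) + (x + y) := by
        rw [hA, hk1]
        field_simp
      have e2 : (k : ℝ) * B = k + y := by
        rw [hB]
        field_simp
      linarith
    have h2 : -2 ≤ (A - B) / B := by
      rw [le_div_iff₀ hB0]
      linarith
    have h3 := one_add_mul_le_pow h2 (k + 1)
    have h4 : (1 : ℝ) + (A - B) / B = A / B := by
      field_simp
      ring
    rw [h4, div_pow, le_div_iff₀ (by positivity)] at h3
    calc (1 + x) * B ^ k = (1 + ((k + 1 : ℕ) : ℝ) * ((A - B) / B)) * B ^ (k + 1) := by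
          rw [h1, hk1, pow_succ]
          field_simp
      _ ≤ A ^ (k + 1) := h3

private lemma prod_le_pow (k : ℕ) : ∀ s : Multiset ℝ, s.card ≤ k → (∀ c ∈ s, 0 ≤ c) →
    (s.map (fun c => 1 + c)).prod ≤ (1 + s.sum / k) ^ k := by
  induction k with
  | zero =>
    intro s hs _
    have h0 : s = 0 := Multiset.card_eq_zero.1 (Nat.le_zero.1 hs)
    subst h0
    simp
  | succ k ih =>
    intro s hs hc
    rcases Multiset.empty_or_exists_mem s with h0 | ⟨a, ha⟩
    · subst h0
      simp
    · obtain ⟨s', rfl⟩ := Multiset.exists_cons_of_mem ha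
      have hcard : s'.card ≤ k := by
        rw [Multiset.card_cons] at hs
        omega
      have hc' : ∀ c ∈ s', 0 ≤ c := fun c hcs => hc c (Multiset.mem_cons_of_mem hcs)
      have ha0 : 0 ≤ a := hc a (Multiset.mem_cons_self a s')
      have hsum : 0 ≤ s'.sum := Multiset.sum_nonneg hc'
      rw [Multiset.map_cons, Multiset.prod_cons, Multiset.sum_cons]
      exact (mul_le_mul_of_nonneg_left (ih s' hcard hc') (by linarith)).trans
        (step_ineq k a s'.sum ha0 hsum)

private lemma coeff_prod (s : Multiset ℝ) :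
    ((s.map (fun c => (1 : Polynomial ℝ) + C c * X)).prod).coeff 0 = 1 ∧
    ((s.map (fun c => (1 : Polynomial ℝ) + C c * X)).prod).coeff 1 = s.sum := by
  induction s using Multiset.induction_on with
  | empty => simp [Polynomial.coeff_one]
  | cons a s ih =>
    rw [Multiset.map_cons, Multiset.prod_cons, Multiset.sum_cons, Polynomial.mul_coeff_zero,
      Polynomial.mul_coeff_one, ih.1, ih.2]
    simp [Polynomial.coeff_one]
    ring

private lemma factor_aux (m : Multiset ℂ) : (∀ r ∈ m, r.im = 0 ∧ r.re < 0) →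
    (m.map (fun r => X - C r)).prod = C ((m.map (fun r => (0 : ℂ) - r)).prod) *
      ((((m.map (fun r : ℂ => -(r.re)⁻¹)).map
        (fun c : ℝ => (1 : Polynomial ℝ) + C c * X)).prod).map (algebraMap ℝ ℂ)) := by
  induction m using Multiset.induction_on with
  | empty => intro _; simp
  | cons a m ih =>
    intro h
    have ih' := ih fun r hr => h r (Multiset.mem_cons_of_mem hr)
    obtain ⟨ha1, ha2⟩ := h a (Multiset.mem_cons_self a m)
    simp only [Multiset.map_cons, Multiset.prod_cons, Polynomial.map_mul, C_mul]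
    rw [ih']
    have e : X - C a = C ((0 : ℂ) - a) * ((1 + C (-(a.re)⁻¹) * X : Polynomial ℝ).map
        (algebraMap ℝ ℂ)) := by
      have hare : ((a.re : ℝ) : ℂ) = a := by
        apply Complex.ext
        · simp
        · simp [ha1]
      have hane : a ≠ 0 := by
        intro h0
        rw [h0] at ha2
        simp at ha2
      simp only [Polynomial.map_add, Polynomial.map_one, Polynomial.map_mul, Polynomial.map_C,
        Polynomial.map_X, Complex.coe_algebraMap]
      rw [mul_add, ← mul_assoc, ← C_mul]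
      have e2 : ((0 : ℂ) - a) * (((-(a.re)⁻¹ : ℝ) : ℂ)) = 1 := by
        push_cast
        rw [hare]
        field_simp
        ring
      rw [e2]
      simp
      ring
    rw [e]
    ring

theorem univ_pow (R : Polynomial ℝ) (k : ℕ) (hk : 1 ≤ k) (hdeg : R.natDegree ≤ k)
    (hnn : ∀ i, 0 ≤ R.coeff i) (hroots : ∀ z : ℂ, aeval z R = 0 → z.im = 0 ∧ z.re ≤ 0)
    (h0 : 0 < R.coeff 0) (t : ℝ) (ht : 0 ≤ t) :
    R.eval t ≤ R.coeff 0 * (1 + t * R.coeff 1 / (k * R.coeff 0)) ^ k := by
  set Rc : Polynomial ℂ := R.map (algebraMap ℝ ℂ) with hRc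
  have hR0 : R ≠ 0 := by
    rintro rfl
    simp at h0
  have hRc0 : Rc ≠ 0 := (Polynomial.map_ne_zero_iff (algebraMap ℝ ℂ).injective).2 hR0
  have hsp : Rc.Splits := IsAlgClosed.splits Rc
  have hr : ∀ r ∈ Rc.roots, r.im = 0 ∧ r.re < 0 := by
    intro r hr
    have h1 : Rc.eval r = 0 := (Polynomial.mem_roots hRc0).1 hr
    have h2 : aeval r R = 0 := by
      rw [hRc, Polynomial.eval_map_algebraMap] at h1
      exact h1
    obtain ⟨h3, h4⟩ := hroots r h2
    refine ⟨h3, lt_of_le_of_ne h4 fun h5 => ?_⟩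
    have h6 : r = 0 := Complex.ext (by simpa using h5) (by simpa using h3)
    rw [h6, ← Polynomial.coeff_zero_eq_eval_zero, hRc, Polynomial.coeff_map] at h1
    exact h0.ne' (by simpa using h1)
  set s : Multiset ℝ := Rc.roots.map (fun r => -(r.re)⁻¹) with hs
  have hfac : R = C (R.coeff 0) * (s.map (fun c => (1 : Polynomial ℝ) + C c * X)).prod := by
    apply Polynomial.map_injective (algebraMap ℝ ℂ) (algebraMap ℝ ℂ).injective
    rw [← hRc, Polynomial.map_mul, Polynomial.map_C]
    conv_lhs => rw [hsp.eq_prod_roots, factor_aux _ hr, ← mul_assoc, ← C_mul]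
    have h1 := hsp.eval_eq_prod_roots 0
    rw [← h1, ← Polynomial.coeff_zero_eq_eval_zero]
    congr 2
    rw [hRc, Polynomial.coeff_map]
  have hcard : s.card ≤ k := by
    rw [hs, Multiset.card_map]
    refine (Polynomial.card_roots' Rc).trans ?_
    rw [hRc, Polynomial.natDegree_map]
    exact hdeg
  have hpos : ∀ c ∈ s, 0 ≤ c := by
    intro c hc
    rw [hs, Multiset.mem_map] at hc
    obtain ⟨r, hr', rfl⟩ := hc
    have := inv_lt_zero.2 (hr r hr').2
    linarith
  have hc1 : R.coeff 1 = R.coeff 0 * s.sum := by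
    conv_lhs => rw [hfac]
    rw [Polynomial.coeff_C_mul, (coeff_prod s).2]
  clear_value s
  have heval : R.eval t = R.coeff 0 * ((s.map (fun c => t * c)).map (fun c => 1 + c)).prod := by
    conv_lhs => rw [hfac]
    rw [Polynomial.eval_mul, Polynomial.eval_C, Polynomial.eval_multiset_prod, Multiset.map_map,
      Multiset.map_map]
    congr 2
    refine Multiset.map_congr rfl fun c _ => ?_
    simp only [Function.comp_apply, Polynomial.eval_add, Polynomial.eval_one,
      Polynomial.eval_mul, Polynomial.eval_C, Polynomial.eval_X]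
    rw [mul_comm]
  rw [heval]
  refine mul_le_mul_of_nonneg_left ?_ h0.le
  have h1 := prod_le_pow k (s.map (fun c => t * c)) (by rw [Multiset.card_map]; exact hcard)
    (by
      intro c hc
      rw [Multiset.mem_map] at hc
      obtain ⟨c', hc', rfl⟩ := hc
      exact mul_nonneg ht (hpos c' hc'))
  refine h1.trans (le_of_eq ?_)
  congr 2
  rw [Multiset.sum_map_mul_left, Multiset.map_id', hc1]
  field_simp

theorem univ_ineq (R : Polynomial ℝ) (k : ℕ) (hk : 1 ≤ k) (hdeg : R.natDegree ≤ k)
    (hnn : ∀ i, 0 ≤ R.coeff i) (hroots : ∀ z : ℂ, aeval z R = 0 → z.im = 0 ∧ z.re ≤ 0)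
    {c : ℝ} (hc0 : 0 ≤ c) (hc : ∀ t : ℝ, 0 < t → c * t ≤ R.eval t) :
    c * (((k : ℝ) - 1) / k) ^ (k - 1) ≤ R.coeff 1 := by
  have hkr : (1 : ℝ) ≤ k := by exact_mod_cast hk
  have hk0 : (0 : ℝ) < k := by linarith
  rcases (hnn 0).eq_or_lt with hz | h0
  · -- the constant coefficient is zero
    have hfac : ∀ t : ℝ, R.eval t = t * (R.divX).eval t := by
      intro t
      conv_lhs => rw [← Polynomial.divX_mul_X_add R, ← hz]
      simp [mul_comm]
    have h1 : ∀ t : ℝ, 0 < t → c ≤ (R.divX).eval t := by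
      intro t ht
      have h2 := hc t ht
      rw [hfac, mul_comm t] at h2
      exact le_of_mul_le_mul_right h2 ht
    have h2 : c ≤ (R.divX).eval 0 := by
      have hcont : Filter.Tendsto (fun t : ℝ => (R.divX).eval t) (nhdsWithin 0 (Set.Ioi 0))
          (nhds ((R.divX).eval 0)) :=
        ((R.divX).continuous.tendsto 0).mono_left nhdsWithin_le_nhds
      refine ge_of_tendsto hcont ?_
      filter_upwards [self_mem_nhdsWithin] with t ht
      exact h1 t ht
    rw [← Polynomial.coeff_zero_eq_eval_zero, Polynomial.coeff_divX] at h2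
    have h3 : (((k : ℝ) - 1) / k) ^ (k - 1) ≤ 1 := by
      refine pow_le_one₀ (div_nonneg (by linarith) hk0.le) ?_
      rw [div_le_one hk0]
      linarith
    exact (mul_le_of_le_one_right hc0 h3).trans h2
  · have hp : ∀ t : ℝ, 0 < t → c * t ≤ R.coeff 0 * (1 + t * R.coeff 1 / (k * R.coeff 0)) ^ k :=
      fun t ht => (hc t ht).trans (univ_pow R k hk hdeg hnn hroots h0 t ht.le)
    rcases (hnn 1).eq_or_lt with hz1 | h1
    · -- the first coefficient is zero
      have hcz : c = 0 := by
        by_contra hne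
        have hcpos : 0 < c := lt_of_le_of_ne hc0 (Ne.symm hne)
        have h2 := hp ((R.coeff 0 + 1) / c) (by positivity)
        rw [← hz1, mul_div_cancel₀ _ hne] at h2
        simp at h2
        linarith
      rw [hcz, ← hz1, zero_mul]
    · rcases Nat.lt_or_ge 1 k with hk2 | hk2
      · have hk2r : (1 : ℝ) < k := by exact_mod_cast hk2
        have hkm : (0 : ℝ) < (k : ℝ) - 1 := by linarith
        have h2 := hp (k * R.coeff 0 / ((k - 1) * R.coeff 1)) (by positivity)
        have e1 : (1 : ℝ) + k * R.coeff 0 / ((k - 1) * R.coeff 1) * R.coeff 1 / (k * R.coeff 0)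
            = k / (k - 1) := by
          field_simp
          ring
        rw [e1] at h2
        have e2 : ((k : ℝ) / (k - 1)) ^ k = (k / (k - 1)) * (k / (k - 1)) ^ (k - 1) := by
          conv_lhs => rw [show k = (k - 1) + 1 by omega]
          rw [pow_succ]
          rw [show (k - 1 + 1 : ℕ) = k by omega]
          ring
        rw [e2] at h2
        have h3 : c ≤ R.coeff 1 * (k / (k - 1)) ^ (k - 1) := by
          have hpos : (0 : ℝ) < k * R.coeff 0 / ((k - 1) * R.coeff 1) := by positivity
          refine le_of_mul_le_mul_right (h2.trans (le_of_eq ?_)) hpos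
          field_simp
        have h4 : ((k : ℝ) / (k - 1)) ^ (k - 1) * (((k : ℝ) - 1) / k) ^ (k - 1) = 1 := by
          rw [← mul_pow]
          have : (k : ℝ) / (k - 1) * (((k : ℝ) - 1) / k) = 1 := by field_simp
          rw [this, one_pow]
        calc c * (((k : ℝ) - 1) / k) ^ (k - 1) ≤
            R.coeff 1 * (k / (k - 1)) ^ (k - 1) * (((k : ℝ) - 1) / k) ^ (k - 1) :=
              mul_le_mul_of_nonneg_right h3 (by positivity)
          _ = R.coeff 1 := by rw [mul_assoc, h4, mul_one]
      · have hk1 : k = 1 := by omega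
        subst hk1
        have e0 : (((((1 : ℕ) : ℝ) - 1) / ((1 : ℕ) : ℝ)) ^ (1 - 1)) = 1 := by norm_num
        rw [e0, mul_one]
        by_contra hcon
        rw [not_le] at hcon
        have h2 := hp ((R.coeff 0 + 1) / (c - R.coeff 1)) (by
          have : 0 < c - R.coeff 1 := by linarith
          positivity)
        have hd : 0 < c - R.coeff 1 := by linarith
        simp only [Nat.cast_one, one_mul, pow_one] at h2
        have e1 : R.coeff 0 * (1 + (R.coeff 0 + 1) / (c - R.coeff 1) * R.coeff 1 / R.coeff 0)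
            = R.coeff 0 + (R.coeff 0 + 1) / (c - R.coeff 1) * R.coeff 1 := by
          field_simp
        rw [e1] at h2
        have e2 : c * ((R.coeff 0 + 1) / (c - R.coeff 1)) =
            (R.coeff 0 + 1) + (R.coeff 0 + 1) / (c - R.coeff 1) * R.coeff 1 := by
          field_simp
          ring
        rw [e2] at h2
        linarith

end Pool.Agent.TYP
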