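import Mathlib
import Pool.Agent.TYP.VdwDefs
import Pool.Agent.TYP.VdwC

/-!
TYP module VD: one step of the capacity argument.

`cone_hom`, `cone_nonneg`: `coeff m (cone p) = coeff (m.cons 1) p` (`finSuccEquiv_coeff_coeff`).
`vdw_step`: fix a positive `x : Fin n → ℝ` and let `R = (finSuccEquiv ℝ n p).map (eval x)`, so
`R.eval t = eval (Fin.cons t x) p` and `R.coeff 1 = eval x (cone p)`. `R` has nonnegative
coefficients and degree at most `n + 1` (homogeneity). Roots: let `z : ℂ`, `aeval z R = 0`, i.e.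
`aeval (Fin.cons z x) p = 0`. If not (`z.im = 0` and `z.re ≤ 0`), then `z ∈ Complex.slitPlane`; let
`w = z^(1/2)` (principal), `Re w > 0`, `w^2 = z`, and `l = 1 / w`, so `Re l > 0`, `l z = w` and
`Re (l x_j) > 0`; then `0 ≠ aeval (l • Fin.cons z x) p = l^(n+1) * aeval (Fin.cons z x) p = 0`,
contradiction. For `t > 0`: `(c * ∏ x_j) * t ≤ R.eval t` by `hc` at `Fin.cons t x`. Apply `univ_ineq`
with `k = n + 1`.
-/

set_option linter.dupNamespace false
set_option linter.unusedVariables false

namespace Pool.Agent.TYP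

open Finset MvPolynomial

theorem cone_hom {n : ℕ} (p : MvPolynomial (Fin (n + 1)) ℝ) (hp : p.IsHomogeneous (n + 1)) :
    (cone p).IsHomogeneous n :=
  hp.finSuccEquiv_coeff_isHomogeneous 1 n (by omega)

theorem cone_nonneg {n : ℕ} (p : MvPolynomial (Fin (n + 1)) ℝ) (hnn : ∀ m, 0 ≤ coeff m p)
    (m : Fin n →₀ ℕ) : 0 ≤ coeff m (cone p) := by
  rw [cone, finSuccEquiv_coeff_coeff]
  exact hnn _

theorem aeval_cons_real {n : ℕ} (p : MvPolynomial (Fin (n + 1)) ℝ) (x : Fin n → ℝ) (z : ℂ) :
    Polynomial.aeval z (Polynomial.map (eval x) (finSuccEquiv ℝ n p)) =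
      aeval (Fin.cons z (fun j => (x j : ℂ)) : Fin (n + 1) → ℂ) p := by
  induction p using MvPolynomial.induction_on with
  | C a =>
    have h1 : finSuccEquiv ℝ n (C a) = Polynomial.C (C a) := by
      simp [finSuccEquiv_apply]
    rw [h1, Polynomial.map_C, eval_C, Polynomial.aeval_C, aeval_C]
  | add p q hp hq =>
    rw [map_add, Polynomial.map_add, map_add, hp, hq, map_add]
  | mul_X p i hp =>
    rw [map_mul, Polynomial.map_mul, map_mul, hp, map_mul]
    congr 1
    refine Fin.cases ?_ (fun j => ?_) i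
    · rw [finSuccEquiv_X_zero, Polynomial.map_X, Polynomial.aeval_X, aeval_X, Fin.cons_zero]
    · rw [finSuccEquiv_X_succ, Polynomial.map_C, eval_X, Polynomial.aeval_C, aeval_X,
        Fin.cons_succ]
      rfl

theorem aeval_smul_hom {n N : ℕ} (p : MvPolynomial (Fin n) ℝ) (hp : p.IsHomogeneous N)
    (y : Fin n → ℂ) (l : ℂ) :
    aeval (fun j => l * y j) p = l ^ N * aeval y p := by
  rw [aeval_def, aeval_def, eval₂_eq', eval₂_eq', Finset.mul_sum]
  refine Finset.sum_congr rfl fun d hd => ?_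
  have h1 : ∑ i, d i = N := by
    have h2 := hp (mem_support_iff.1 hd)
    rw [Finsupp.weight_apply, Finsupp.sum_fintype _ _ (by intro i; simp)] at h2
    simpa using h2
  have h3 : ∏ i, (l * y i) ^ d i = l ^ N * ∏ i, y i ^ d i := by
    rw [← h1, ← Finset.prod_pow_eq_pow_sum, ← Finset.prod_mul_distrib]
    exact Finset.prod_congr rfl fun i _ => mul_pow _ _ _
  rw [h3]
  ring

theorem exists_half {z : ℂ} (hz : z ∈ Complex.slitPlane) :
    ∃ l : ℂ, 0 < l.re ∧ 0 < (l * z).re ∧ l ≠ 0 := by
  have hz0 : z ≠ 0 := Complex.slitPlane_ne_zero hz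
  have harg : |z.arg| < Real.pi := by
    rw [abs_lt]
    refine ⟨Complex.neg_pi_lt_arg z, ?_⟩
    rcases (Complex.arg_le_pi z).lt_or_eq with h | h
    · exact h
    · exact absurd h (Complex.mem_slitPlane_iff_arg.1 hz).1
  have harg' := abs_lt.1 harg
  refine ⟨Complex.exp (-(Complex.log z / 2)), ?_, ?_, Complex.exp_ne_zero _⟩
  · rw [Complex.exp_re]
    refine mul_pos (Real.exp_pos _) (Real.cos_pos_of_mem_Ioo ⟨?_, ?_⟩)
    · have : (-(Complex.log z / 2)).im = -(z.arg / 2) := by
        simp [Complex.log_im]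
      rw [this]; linarith [harg'.1, harg'.2]
    · have : (-(Complex.log z / 2)).im = -(z.arg / 2) := by
        simp [Complex.log_im]
      rw [this]; linarith [harg'.1, harg'.2]
  · have h1 : Complex.exp (-(Complex.log z / 2)) * z = Complex.exp (Complex.log z / 2) := by
      conv_lhs => rw [← Complex.exp_log hz0]
      rw [Complex.log_exp, ← Complex.exp_add]
      · congr 1; ring
      · rw [Complex.log_im]; exact Complex.neg_pi_lt_arg z
      · rw [Complex.log_im]; exact Complex.arg_le_pi z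
    rw [h1, Complex.exp_re]
    have : (Complex.log z / 2).im = z.arg / 2 := by
      simp [Complex.log_im]
    refine mul_pos (Real.exp_pos _) (Real.cos_pos_of_mem_Ioo ⟨?_, ?_⟩)
    · rw [this]; linarith [harg'.1, harg'.2]
    · rw [this]; linarith [harg'.1, harg'.2]

theorem vdw_step {n : ℕ} (p : MvPolynomial (Fin (n + 1)) ℝ) (hp : p.IsHomogeneous (n + 1))
    (hs : Stab p) (hnn : ∀ m, 0 ≤ coeff m p) {c : ℝ} (hc0 : 0 ≤ c)
    (hc : ∀ x : Fin (n + 1) → ℝ, (∀ j, 0 < x j) → c * ∏ j, x j ≤ eval x p)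
    (x : Fin n → ℝ) (hx : ∀ j, 0 < x j) :
    (c * ((n : ℝ) / (n + 1)) ^ n) * ∏ j, x j ≤ eval x (cone p) := by
  have hP : 0 ≤ ∏ j, x j := Finset.prod_nonneg fun j _ => (hx j).le
  have hnonneg : ∀ q : MvPolynomial (Fin n) ℝ, (∀ m, 0 ≤ coeff m q) → 0 ≤ eval x q := by
    intro q hq
    rw [eval_eq']
    exact Finset.sum_nonneg fun d _ => mul_nonneg (hq d)
      (Finset.prod_nonneg fun i _ => pow_nonneg (hx i).le _)
  have key := univ_ineq (Polynomial.map (eval x) (finSuccEquiv ℝ n p)) (n + 1) (by omega)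
    (by
      refine (Polynomial.natDegree_map_le).trans ?_
      rw [natDegree_finSuccEquiv]
      exact (degreeOf_le_totalDegree p 0).trans hp.totalDegree_le)
    (by
      intro i
      rw [Polynomial.coeff_map]
      refine hnonneg _ fun m => ?_
      rw [finSuccEquiv_coeff_coeff]
      exact hnn _)
    (by
      intro z hz
      by_contra hcon
      have hslit : z ∈ Complex.slitPlane := by
        rw [Complex.mem_slitPlane_iff]
        by_contra h
        push Not at h
        exact hcon ⟨h.2, h.1⟩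
      obtain ⟨l, hl1, hl2, hl0⟩ := exists_half hslit
      rw [aeval_cons_real] at hz
      refine hs (fun j => l * (Fin.cons z (fun j => (x j : ℂ)) : Fin (n + 1) → ℂ) j) ?_ ?_
      · intro j
        refine Fin.cases ?_ (fun i => ?_) j
        · simpa using hl2
        · simp only [Fin.cons_succ]
          rw [Complex.re_mul_ofReal]
          exact mul_pos hl1 (hx i)
      · rw [aeval_smul_hom p hp, hz, mul_zero])
    (c := c * ∏ j, x j) (mul_nonneg hc0 hP)
    (by
      intro t ht
      rw [← eval_eq_eval_mv_eval']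
      have h1 := hc (Fin.cons t x) (by
        intro j
        refine Fin.cases ?_ (fun i => ?_) j
        · simpa using ht
        · simpa using hx i)
      rw [Fin.prod_univ_succ] at h1
      simp only [Fin.cons_zero, Fin.cons_succ] at h1
      calc c * (∏ j, x j) * t = c * (t * ∏ j, x j) := by ring
        _ ≤ _ := h1)
  rw [Polynomial.coeff_map] at key
  have h2 : ((n : ℝ) + 1 - 1) / ((n : ℝ) + 1) = (n : ℝ) / (n + 1) := by
    congr 1; ring
  simp only [Nat.cast_add, Nat.cast_one, h2, Nat.add_sub_cancel] at key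
  calc c * ((n : ℝ) / (n + 1)) ^ n * ∏ j, x j = c * (∏ j, x j) * ((n : ℝ) / (n + 1)) ^ n := by ring
    _ ≤ _ := key

end Pool.Agent.TYP
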