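import Mathlib
import Pool.Agent.TYP.VdwDefs
import Pool.Agent.TYP.VdwB
import Pool.Agent.TYP.VdwD

/-!
TYP module VE: the capacity bound for the coefficient of `x_1 ⋯ x_n`.

Induction on `n`. `n = 0`: `p = C a` with `a = coeff 0 p = eval x p ≥ c`, and `0! / 0^0 = 1`.
Step: let `q = cone p`. If `q = 0`, `vdw_step` at `x = 1` gives `c (n/(n+1))^n ≤ 0`, so `c = 0`
(for `n = 0` the factor is `1`), and the claim is `0 ≤ coeff`. Otherwise `q` is stable
(`stab_cone`), homogeneous of degree `n`, has nonnegative coefficients, and the induction hypothesis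
with `c (n/(n+1))^n` gives `c (n/(n+1))^n n!/n^n ≤ coeff ones q = coeff ones p`
(`finSuccEquiv_coeff_coeff`: `(ones n).cons 1 = ones (n+1)`). Finally
`(n/(n+1))^n n!/n^n = n!/(n+1)^n = (n+1)!/(n+1)^(n+1)` (`n = 0`: both are `1`).
-/

set_option linter.dupNamespace false
set_option linter.unusedVariables false

namespace Pool.Agent.TYP

open Finset MvPolynomial

private lemma nn_pos (n : ℕ) : (0 : ℝ) < (n : ℝ) ^ n := by
  rcases Nat.eq_zero_or_pos n with h | h
  · subst h; norm_num
  · have : (0 : ℝ) < n := by exact_mod_cast h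
    positivity

private lemma cons_ones (n : ℕ) :
    (Finsupp.equivFunOnFinite.symm (fun _ : Fin n => 1)).cons 1 =
      Finsupp.equivFunOnFinite.symm (fun _ : Fin (n + 1) => 1) := by
  ext i
  refine Fin.cases ?_ (fun j => ?_) i
  · rw [Finsupp.cons_zero]
    rfl
  · rw [Finsupp.cons_succ]
    rfl

theorem vdw_coeff (n : ℕ) : ∀ (p : MvPolynomial (Fin n) ℝ), p.IsHomogeneous n → Stab p →
    (∀ m, 0 ≤ coeff m p) → ∀ c : ℝ, 0 ≤ c →
    (∀ x : Fin n → ℝ, (∀ j, 0 < x j) → c * ∏ j, x j ≤ eval x p) →
    c * ((n.factorial : ℝ) / (n : ℝ) ^ n) ≤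
      coeff (Finsupp.equivFunOnFinite.symm (fun _ : Fin n => 1)) p := by
  induction n with
  | zero =>
    intro p _ _ _ c _ hc
    have h := hc (fun _ => 1) (fun j => one_pos)
    have h0 : (Finsupp.equivFunOnFinite.symm (fun _ : Fin 0 => 1)) = (0 : Fin 0 →₀ ℕ) :=
      Subsingleton.elim _ _
    rw [h0]
    rw [MvPolynomial.eq_C_of_isEmpty p, eval_C, Finset.univ_eq_empty, Finset.prod_empty,
      mul_one] at h
    simpa using h
  | succ n ih =>
    intro p hp hs hnn c hc0 hc
    have hcoef : coeff (Finsupp.equivFunOnFinite.symm (fun _ : Fin (n + 1) => 1)) p =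
        coeff (Finsupp.equivFunOnFinite.symm (fun _ : Fin n => 1)) (cone p) := by
      unfold cone
      rw [finSuccEquiv_coeff_coeff, cons_ones]
    have hn1 : (0 : ℝ) < (n : ℝ) + 1 := by positivity
    have hfac : (0 : ℝ) < ((n : ℝ) / (n + 1)) ^ n := by
      rw [div_pow]
      exact div_pos (nn_pos n) (by positivity)
    by_cases hq : cone p = 0
    · have h := vdw_step p hp hs hnn hc0 hc (fun _ => 1) (fun _ => one_pos)
      rw [hq, map_zero, Finset.prod_const_one, mul_one] at h
      have hc1 : c = 0 := by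
        rcases hc0.eq_or_lt with h1 | h1
        · exact h1.symm
        · exact absurd h (not_le.2 (mul_pos h1 hfac))
      rw [hc1, zero_mul]
      exact hnn _
    · have h := ih (cone p) (cone_hom p hp) (stab_cone p hp hs hnn hq) (cone_nonneg p hnn)
        (c * ((n : ℝ) / (n + 1)) ^ n) (by positivity) (vdw_step p hp hs hnn hc0 hc)
      rw [hcoef]
      refine le_trans (le_of_eq ?_) h
      rw [div_pow, Nat.factorial_succ]
      push_cast
      have := (nn_pos n).ne'
      field_simp
      ring

end Pool.Agent.TYP
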