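import Mathlib
import Pool.Agent.TYP.VdwDefs
import Pool.Agent.TYP.VdwE

/-!
TYP module VF: van der Waerden's bound for regular bipartite graphs.

`n = 0`: both sides are `1` (`0! (d/0)^0 = 1`; the identity is the only permutation). Let `n ≥ 1`.
If `d = 0` the left side is `0`. Let `d ≥ 1` and `p = ∏ i, ∑ j ∈ A i, X j`.
* homogeneous of degree `n`; nonnegative coefficients (products and sums of such);
* stable: `Re (∑_{j ∈ A i} z j) > 0` since `A i` is nonempty;
* capacity: by AM-GM `∑_{j ∈ A i} x j ≥ d (∏_{j ∈ A i} x j)^(1/d)`, and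
  `∏_i ∏_{j ∈ A i} x j = ∏_j (x j)^d` by `hA'`, so `eval x p ≥ d^n ∏ x j`;
* the coefficient of `∏ X j`: `p = ∑_{f ∈ Fintype.piFinset A} ∏ i, X (f i)` (`Finset.prod_univ_sum`)
  and the coefficient of `ones` in `∏ i, X (f i)` is `1` if `f` is bijective and `0` otherwise; the
  number of bijective `f` with `f i ∈ A i` for all `i` is the number of permutations `σ` with
  `σ i ∈ A i`.
`vdw_coeff` with `c = d^n`: `d^n n! / n^n ≤` the number of permutations.
-/

set_option linter.dupNamespace false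
set_option linter.unusedVariables false

namespace Pool.Agent.TYP

open Finset MvPolynomial

/-- The product of the row sums. -/
noncomputable def vfP {n : ℕ} (A : Fin n → Finset (Fin n)) : MvPolynomial (Fin n) ℝ :=
  ∏ i, ∑ j ∈ A i, X j

theorem vfP_hom {n : ℕ} (A : Fin n → Finset (Fin n)) : (vfP A).IsHomogeneous n := by
  have h := IsHomogeneous.prod (univ : Finset (Fin n))
    (fun i => ∑ j ∈ A i, (X j : MvPolynomial (Fin n) ℝ)) (fun _ => 1)
    (fun i _ => IsHomogeneous.sum _ _ _ (fun j _ => isHomogeneous_X ℝ j))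
  simpa [vfP] using h

theorem vfP_stab {n : ℕ} (A : Fin n → Finset (Fin n)) (hA : ∀ i, (A i).Nonempty) :
    Stab (vfP A) := by
  intro z hz
  rw [vfP, map_prod]
  refine Finset.prod_ne_zero_iff.2 (fun i _ => ?_)
  rw [map_sum]
  simp only [aeval_X]
  intro h0
  have h1 : (∑ j ∈ A i, z j).re = 0 := by rw [h0]; simp
  rw [Complex.re_sum] at h1
  have h2 : 0 < ∑ j ∈ A i, (z j).re := Finset.sum_pos (fun j _ => hz j) (hA i)
  linarith

theorem vfP_expand {n : ℕ} (A : Fin n → Finset (Fin n)) :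
    vfP A = ∑ f ∈ Fintype.piFinset A, monomial (∑ i, Finsupp.single (f i) 1) (1 : ℝ) := by
  rw [vfP, Finset.prod_univ_sum]
  refine Finset.sum_congr rfl (fun f _ => ?_)
  have h : ∀ s : Finset (Fin n), ∏ i ∈ s, (X (f i) : MvPolynomial (Fin n) ℝ) =
      monomial (∑ i ∈ s, Finsupp.single (f i) 1) (1 : ℝ) := by
    intro s
    induction s using Finset.induction_on with
    | empty => simp
    | insert a s ha ih =>
      rw [Finset.prod_insert ha, Finset.sum_insert ha, ih, X, monomial_mul, one_mul]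
  exact h univ

theorem vfP_nonneg {n : ℕ} (A : Fin n → Finset (Fin n)) (m : Fin n →₀ ℕ) :
    0 ≤ coeff m (vfP A) := by
  rw [vfP_expand, coeff_sum]
  refine Finset.sum_nonneg (fun f _ => ?_)
  rw [coeff_monomial]
  split_ifs <;> norm_num

theorem vfP_cap {n : ℕ} (A : Fin n → Finset (Fin n)) (d : ℕ) (hd : 0 < d)
    (hA : ∀ i, (A i).card = d)
    (hA' : ∀ s : Fin n, ((univ : Finset (Fin n)).filter (fun i => s ∈ A i)).card = d)
    (x : Fin n → ℝ) (hx : ∀ j, 0 < x j) :
    (d : ℝ) ^ n * ∏ j, x j ≤ eval x (vfP A) := by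
  have hd0 : (0 : ℝ) < d := by exact_mod_cast hd
  rw [vfP, map_prod]
  have h1 : ∀ i, (d : ℝ) * ∏ j ∈ A i, (x j) ^ ((d : ℝ)⁻¹) ≤ eval x (∑ j ∈ A i, X j) := by
    intro i
    rw [map_sum]
    simp only [eval_X]
    have h2 := Real.geom_mean_le_arith_mean_weighted (A i) (fun _ => (d : ℝ)⁻¹) x
      (fun j _ => (inv_pos.2 hd0).le)
      (by rw [Finset.sum_const, hA i, nsmul_eq_mul]; exact mul_inv_cancel₀ hd0.ne')
      (fun j _ => (hx j).le)
    rw [← Finset.mul_sum] at h2
    calc (d : ℝ) * ∏ j ∈ A i, (x j) ^ ((d : ℝ)⁻¹) ≤ (d : ℝ) * ((d : ℝ)⁻¹ * ∑ j ∈ A i, x j) :=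
          mul_le_mul_of_nonneg_left h2 hd0.le
      _ = ∑ j ∈ A i, x j := by rw [← mul_assoc, mul_inv_cancel₀ hd0.ne', one_mul]
  have h3 : ∏ i, ((d : ℝ) * ∏ j ∈ A i, (x j) ^ ((d : ℝ)⁻¹)) ≤
      ∏ i, eval x (∑ j ∈ A i, X j) :=
    Finset.prod_le_prod (fun i _ => mul_nonneg hd0.le
      (Finset.prod_nonneg (fun j _ => Real.rpow_nonneg (hx j).le _))) (fun i _ => h1 i)
  refine le_trans (le_of_eq ?_) h3
  rw [Finset.prod_mul_distrib, Finset.prod_const, Finset.card_univ, Fintype.card_fin]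
  congr 1
  have h4 : ∀ i, ∏ j ∈ A i, (x j) ^ ((d : ℝ)⁻¹) =
      ∏ j, (if j ∈ A i then (x j) ^ ((d : ℝ)⁻¹) else 1) := by
    intro i
    rw [Finset.prod_ite_mem]
    simp
  rw [Finset.prod_congr rfl (fun i _ => h4 i), Finset.prod_comm]
  refine Finset.prod_congr rfl (fun j _ => ?_)
  rw [Finset.prod_ite, Finset.prod_const, Finset.prod_const_one, mul_one, hA' j,
    ← Real.rpow_natCast, ← Real.rpow_mul (hx j).le, inv_mul_cancel₀ hd0.ne', Real.rpow_one]

theorem vfP_coeff_le {n : ℕ} (A : Fin n → Finset (Fin n)) :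
    coeff (Finsupp.equivFunOnFinite.symm (fun _ : Fin n => 1)) (vfP A) ≤
      (((univ : Finset (Equiv.Perm (Fin n))).filter (fun σ => ∀ i, σ i ∈ A i)).card : ℝ) := by
  classical
  rw [vfP_expand, coeff_sum]
  simp only [coeff_monomial]
  rw [Finset.sum_boole]
  have hsub : (Fintype.piFinset A).filter (fun f : Fin n → Fin n =>
      (∑ i, Finsupp.single (f i) 1 : Fin n →₀ ℕ) =
        Finsupp.equivFunOnFinite.symm (fun _ : Fin n => 1)) ⊆
      (((univ : Finset (Equiv.Perm (Fin n))).filter (fun σ => ∀ i, σ i ∈ A i)).image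
        (fun σ : Equiv.Perm (Fin n) => (σ : Fin n → Fin n))) := by
    intro f hf
    rw [Finset.mem_filter, Fintype.mem_piFinset] at hf
    have hsurj : Function.Surjective f := by
      intro j
      by_contra hj
      push Not at hj
      have h1 := DFunLike.congr_fun hf.2 j
      rw [Finsupp.finset_sum_apply] at h1
      have h2 : ∑ i, (Finsupp.single (f i) 1 : Fin n →₀ ℕ) j = 0 :=
        Finset.sum_eq_zero (fun i _ => Finsupp.single_eq_of_ne' (hj i))
      rw [h2] at h1
      simp at h1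
    have hbij : Function.Bijective f := (Finite.injective_iff_surjective.2 hsurj : _) |> fun h =>
      ⟨h, hsurj⟩
    rw [Finset.mem_image]
    exact ⟨Equiv.ofBijective f hbij, by simpa using hf.1, by ext i; simp⟩
  have hcard := (Finset.card_le_card hsub).trans Finset.card_image_le
  exact_mod_cast hcard

theorem vdw_regular {n : ℕ} (A : Fin n → Finset (Fin n)) (d : ℕ)
    (hA : ∀ i, (A i).card = d)
    (hA' : ∀ s : Fin n, ((univ : Finset (Fin n)).filter (fun i => s ∈ A i)).card = d) :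
    ((n.factorial : ℕ) : ℝ) * ((d : ℝ) / n) ^ n ≤
      (((univ : Finset (Equiv.Perm (Fin n))).filter (fun σ => ∀ i, σ i ∈ A i)).card : ℝ) := by
  rcases Nat.eq_zero_or_pos n with rfl | hn
  · simp
  rcases Nat.eq_zero_or_pos d with rfl | hd
  · have h0 : ((0 : ℕ) : ℝ) / (n : ℝ) = 0 := by simp
    rw [h0, zero_pow hn.ne', mul_zero]
    positivity
  have hne : ∀ i, (A i).Nonempty := by
    intro i
    rw [← Finset.card_pos, hA i]
    exact hd
  have h := vdw_coeff n (vfP A) (vfP_hom A) (vfP_stab A hne) (vfP_nonneg A) ((d : ℝ) ^ n)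
    (by positivity) (fun x hx => vfP_cap A d hd hA hA' x hx)
  refine le_trans (le_of_eq ?_) (h.trans (vfP_coeff_le A))
  rw [div_pow]
  ring

end Pool.Agent.TYP
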