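import Mathlib
import Pool.Agent.TYP.Defs
import Pool.Agent.TYP.RectA
import Pool.Agent.TYP.BregB
import Pool.Agent.TYP.VdwF

/-!
TYP module RB: counting Latin rectangles.

`card_completions_le`: induction on `m`. `m = 0`: the filter has at most one element, `upb n k 0 = 1`.
Step: every `B ∈ Rect n (k+(m+1))` is `Fin.snoc (Fin.init B) (B (Fin.last _))` with
`Fin.init B ∈ Rect n (k+m)` and `B (last) x ∈ avail (Fin.init B) x` (`snoc_mem_Rect`); `Fin.init B`
still extends `A`; for a given `Fin.init B` there are at most `((n-(k+m))!)^(n/(n-(k+m)))` choices of the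
last row (`bregman_regular`, `card_avail`). `upb n k (m+1) = upb n k m * ((n-k-m)!)^(n/(n-k-m))`
(`prod_range_succ`, `n - k - m = n - (k+m)`).

`card_Rect_ge`: induction on `m`. `lob n 0 = 1`, `Rect n 0` has one element. Step: for each
`A ∈ Rect n m` at least `n! ((n-m)/n)^n` permutations `σ` have `Fin.snoc A σ ∈ Rect n (m+1)`
(`vdw_regular`, `card_avail`, `card_avail_col`), and `(A, σ) ↦ Fin.snoc A σ` is injective.
-/

set_option linter.dupNamespace false
set_option linter.unusedVariables false

namespace Pool.Agent.TYP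

open Finset

private lemma fiber_card {n j : ℕ} (A : Fin j → Equiv.Perm (Fin n)) (hA : A ∈ Rect n j) :
    ((Rect n (j + 1)).filter
      (fun B => (Fin.init B : Fin j → Equiv.Perm (Fin n)) = A)).card =
    ((univ : Finset (Equiv.Perm (Fin n))).filter (fun σ => ∀ x, σ x ∈ avail A x)).card := by
  classical
  refine Finset.card_nbij' (fun B => B (Fin.last j)) (fun σ => Fin.snoc A σ) ?_ ?_ ?_ ?_
  · intro B hB
    rw [Finset.mem_coe, Finset.mem_filter] at hB
    obtain ⟨hB1, hB2⟩ := hB
    rw [Finset.mem_coe, Finset.mem_filter]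
    refine ⟨Finset.mem_univ _, ?_⟩
    have h : (Fin.snoc A (B (Fin.last j)) : Fin (j + 1) → Equiv.Perm (Fin n)) ∈
        Rect n (j + 1) := by
      rw [← hB2, Fin.snoc_init_self]
      exact hB1
    exact ((snoc_mem_Rect A _).1 h).2
  · intro σ hσ
    rw [Finset.mem_coe, Finset.mem_filter] at hσ
    rw [Finset.mem_coe, Finset.mem_filter]
    exact ⟨(snoc_mem_Rect A σ).2 ⟨hA, hσ.2⟩, Fin.init_snoc _ _⟩
  · intro B hB
    rw [Finset.mem_coe, Finset.mem_filter] at hB
    simp only
    rw [← hB.2, Fin.snoc_init_self]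
  · intro σ _
    simp only
    exact Fin.snoc_last _ _

private lemma init_mem_Rect {n j : ℕ} {B : Fin (j + 1) → Equiv.Perm (Fin n)}
    (hB : B ∈ Rect n (j + 1)) : (Fin.init B : Fin j → Equiv.Perm (Fin n)) ∈ Rect n j := by
  have h : (Fin.snoc (Fin.init B) (B (Fin.last j)) : Fin (j + 1) → Equiv.Perm (Fin n)) ∈
      Rect n (j + 1) := by
    rw [Fin.snoc_init_self]
    exact hB
  exact ((snoc_mem_Rect _ _).1 h).1

theorem card_completions_le (n k m : ℕ) (A : Fin k → Equiv.Perm (Fin n)) :
    (((Rect n (k + m)).filter (fun B => ∀ i : Fin k, B (Fin.castAdd m i) = A i)).card : ℝ)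
      ≤ upb n k m := by
  classical
  induction m with
  | zero =>
    have h1 : ((Rect n (k + 0)).filter
        (fun B => ∀ i : Fin k, B (Fin.castAdd 0 i) = A i)).card ≤ 1 := by
      rw [Finset.card_le_one]
      intro B hB B' hB'
      rw [Finset.mem_filter] at hB hB'
      funext i
      exact (hB.2 i).trans (hB'.2 i).symm
    have h2 : upb n k 0 = 1 := by simp [upb]
    rw [h2]
    exact_mod_cast h1
  | succ m ih =>
    have hmap : Set.MapsTo (fun B : Fin (k + m + 1) → Equiv.Perm (Fin n) =>
        (Fin.init B : Fin (k + m) → Equiv.Perm (Fin n)))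
        ((Rect n (k + m + 1)).filter
          (fun B => ∀ i : Fin k, B (Fin.castAdd (m + 1) i) = A i) :
            Finset (Fin (k + m + 1) → Equiv.Perm (Fin n)))
        ((Rect n (k + m)).filter (fun B => ∀ i : Fin k, B (Fin.castAdd m i) = A i) :
            Finset (Fin (k + m) → Equiv.Perm (Fin n))) := by
      intro B hB
      rw [Finset.mem_coe, Finset.mem_filter] at hB
      rw [Finset.mem_coe, Finset.mem_filter]
      exact ⟨init_mem_Rect hB.1, fun i => hB.2 i⟩
    have hcard := Finset.card_eq_sum_card_fiberwise hmap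
    have hstep : ∀ C ∈ (Rect n (k + m)).filter
        (fun B => ∀ i : Fin k, B (Fin.castAdd m i) = A i),
        (((((Rect n (k + m + 1)).filter
          (fun B => ∀ i : Fin k, B (Fin.castAdd (m + 1) i) = A i)).filter
          (fun B => (Fin.init B : Fin (k + m) → Equiv.Perm (Fin n)) = C)).card : ℕ) : ℝ) ≤
        (((n - k - m).factorial : ℕ) : ℝ) ^ ((n : ℝ) / ((n - k - m : ℕ) : ℝ)) := by
      intro C hC
      rw [Finset.mem_filter] at hC
      have h1 : (((Rect n (k + m + 1)).filter
          (fun B => ∀ i : Fin k, B (Fin.castAdd (m + 1) i) = A i)).filter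
          (fun B => (Fin.init B : Fin (k + m) → Equiv.Perm (Fin n)) = C)).card ≤
          ((Rect n (k + m + 1)).filter
          (fun B => (Fin.init B : Fin (k + m) → Equiv.Perm (Fin n)) = C)).card :=
        Finset.card_le_card (Finset.filter_subset_filter _ (Finset.filter_subset _ _))
      rw [fiber_card C hC.1] at h1
      have h2 := bregman_regular (avail C) (n - (k + m)) (card_avail C hC.1)
      rw [Nat.sub_sub]
      exact (Nat.cast_le.2 h1).trans h2
    change (((Rect n (k + m + 1)).filter
      (fun B => ∀ i : Fin k, B (Fin.castAdd (m + 1) i) = A i)).card : ℝ) ≤ _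
    rw [hcard, Nat.cast_sum]
    refine (Finset.sum_le_sum hstep).trans ?_
    rw [Finset.sum_const, nsmul_eq_mul]
    have hup : upb n k (m + 1) = upb n k m *
        (((n - k - m).factorial : ℕ) : ℝ) ^ ((n : ℝ) / ((n - k - m : ℕ) : ℝ)) := by
      unfold upb
      rw [Finset.prod_range_succ]
    rw [hup]
    exact mul_le_mul_of_nonneg_right ih (by positivity)

theorem card_Rect_ge (n m : ℕ) : lob n m ≤ ((Rect n m).card : ℝ) := by
  classical
  induction m with
  | zero =>
    have h1 : (Rect n 0).card = 1 := by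
      have : Rect n 0 = univ := by
        unfold Rect
        rw [Finset.filter_true_of_mem]
        intro A _ i
        exact i.elim0
      rw [this, Finset.card_univ]
      simp
    rw [h1]
    simp [lob]
  | succ m ih =>
    have hmap : Set.MapsTo (fun B : Fin (m + 1) → Equiv.Perm (Fin n) =>
        (Fin.init B : Fin m → Equiv.Perm (Fin n)))
        (Rect n (m + 1) : Finset (Fin (m + 1) → Equiv.Perm (Fin n)))
        (Rect n m : Finset (Fin m → Equiv.Perm (Fin n))) := by
      intro B hB
      exact init_mem_Rect hB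
    have hcard := Finset.card_eq_sum_card_fiberwise hmap
    have hstep : ∀ C ∈ Rect n m,
        ((n.factorial : ℕ) : ℝ) * (((n - m : ℕ) : ℝ) / n) ^ n ≤
        ((((Rect n (m + 1)).filter
          (fun B => (Fin.init B : Fin m → Equiv.Perm (Fin n)) = C)).card : ℕ) : ℝ) := by
      intro C hC
      rw [fiber_card C hC]
      exact vdw_regular (avail C) (n - m) (card_avail C hC) (card_avail_col C hC)
    rw [hcard, Nat.cast_sum]
    refine le_trans ?_ (Finset.sum_le_sum hstep)
    rw [Finset.sum_const, nsmul_eq_mul]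
    have hl : lob n (m + 1) = lob n m *
        (((n.factorial : ℕ) : ℝ) * (((n - m : ℕ) : ℝ) / n) ^ n) := by
      unfold lob
      rw [Finset.prod_range_succ]
    rw [hl]
    exact mul_le_mul_of_nonneg_right ih (by positivity)

end Pool.Agent.TYP
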