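import Mathlib
import Pool.Agent.TYP.Defs
import Pool.Agent.TYP.RectB
import Pool.Agent.TYP.Presc

/-!
TYP module UN: the union bound over the containers.

The filter is contained in the union, over `C ∈ 𝒞` and `Q ∈ C.powersetCard m`, of
`{A ∈ Rect n n : ∀ p ∈ Q, A (castLE p.1) p.2.1 = p.2.2}`. There are at most `|𝒞| * choose K m` pairs.
For fixed `Q`, classify `A` by its first `k` rows `A' : Fin k → Equiv.Perm (Fin n)`: these obey
`A' p.1 p.2.1 = p.2.2` for `p ∈ Q`, at most `(n!)^k (e/n)^m` possibilities (`card_rows_prescribed`),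
and for each `A'` there are at most `upb n k (n-k)` elements of `Rect n n` with first `k` rows `A'`
(`card_completions_le` with `m = n - k`, `k + (n - k) = n`; the cast between `Fin (k + (n-k))` and
`Fin n` is handled by `obtain ⟨m', rfl⟩ := Nat.exists_eq_add_of_le hk` at the start).
-/

set_option linter.dupNamespace false
set_option linter.unusedVariables false

namespace Pool.Agent.TYP

open Finset

theorem upb_nonneg (n k m : ℕ) : 0 ≤ upb n k m := by
  unfold upb
  exact Finset.prod_nonneg (fun i _ => Real.rpow_nonneg (Nat.cast_nonneg _) _)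

open Classical in
theorem card_prescribed_le (n k : ℕ) (hk : k ≤ n) (Q : Finset (Cell3 k n)) :
    (((Rect n n).filter (fun A => ∀ p ∈ Q, A (Fin.castLE hk p.1) p.2.1 = p.2.2)).card : ℝ)
      ≤ (((n.factorial : ℕ) : ℝ) ^ k * (Real.exp 1 / n) ^ Q.card) * upb n k (n - k) := by
  obtain ⟨m', rfl⟩ := Nat.exists_eq_add_of_le hk
  have hsub : k + m' - k = m' := by omega
  rw [hsub]
  set F := (Rect (k + m') (k + m')).filter
    (fun A => ∀ p ∈ Q, A (Fin.castLE hk p.1) p.2.1 = p.2.2) with hF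
  set R := (univ : Finset (Fin k → Equiv.Perm (Fin (k + m')))).filter
      (fun A => ∀ p ∈ Q, A p.1 p.2.1 = p.2.2) with hR
  have hmap : ∀ A ∈ F, (fun i : Fin k => A (Fin.castAdd m' i)) ∈ R := by
    intro A hA
    rw [hF, Finset.mem_filter] at hA
    rw [hR, Finset.mem_filter]
    exact ⟨Finset.mem_univ _, fun p hp => hA.2 p hp⟩
  have hcard := Finset.card_eq_sum_card_fiberwise (f := fun (A : Fin (k + m') → _) =>
    (fun i : Fin k => A (Fin.castAdd m' i))) (s := F) (t := R) hmap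
  have hfib : ∀ A' ∈ R, ((F.filter (fun A => (fun i : Fin k => A (Fin.castAdd m' i)) = A')).card : ℝ)
      ≤ upb (k + m') k m' := by
    intro A' _
    refine le_trans ?_ (card_completions_le (k + m') k m' A')
    norm_cast
    apply Finset.card_le_card
    intro A hA
    rw [Finset.mem_filter] at hA
    rw [Finset.mem_filter]
    refine ⟨?_, fun i => congrFun hA.2 i⟩
    rw [hF, Finset.mem_filter] at hA
    exact hA.1.1
  have hRle := card_rows_prescribed k (k + m') Q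
  rw [hcard, Nat.cast_sum]
  calc ∑ A' ∈ R, ((F.filter (fun A => (fun i : Fin k => A (Fin.castAdd m' i)) = A')).card : ℝ)
      ≤ ∑ A' ∈ R, upb (k + m') k m' := Finset.sum_le_sum hfib
    _ = (R.card : ℝ) * upb (k + m') k m' := by rw [Finset.sum_const, nsmul_eq_mul]
    _ ≤ _ := by
        apply mul_le_mul_of_nonneg_right _ (upb_nonneg _ _ _)
        convert hRle using 2

open Classical in
theorem card_bad_le (n k m K : ℕ) (hk : k ≤ n) (𝒞 : Finset (Finset (Cell3 k n)))
    (hK : ∀ C ∈ 𝒞, C.card ≤ K) :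
    (((Rect n n).filter (fun A => ∃ Q : Finset (Cell3 k n), Q.card = m ∧ (∃ C ∈ 𝒞, Q ⊆ C) ∧
        ∀ p ∈ Q, A (Fin.castLE hk p.1) p.2.1 = p.2.2)).card : ℝ)
      ≤ 𝒞.card * (K.choose m : ℝ) * (((n.factorial : ℕ) : ℝ) ^ k * (Real.exp 1 / n) ^ m)
        * upb n k (n - k) := by
  set G : Finset (Cell3 k n) → Finset (Fin n → Equiv.Perm (Fin n)) := fun Q =>
    (Rect n n).filter (fun A => ∀ p ∈ Q, A (Fin.castLE hk p.1) p.2.1 = p.2.2) with hG
  set B : ℝ := (((n.factorial : ℕ) : ℝ) ^ k * (Real.exp 1 / n) ^ m) * upb n k (n - k) with hB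
  have hB0 : 0 ≤ B := by
    rw [hB]
    refine mul_nonneg (mul_nonneg (by positivity) (by positivity)) (upb_nonneg _ _ _)
  have hsub : (Rect n n).filter (fun A => ∃ Q : Finset (Cell3 k n), Q.card = m ∧
      (∃ C ∈ 𝒞, Q ⊆ C) ∧ ∀ p ∈ Q, A (Fin.castLE hk p.1) p.2.1 = p.2.2)
      ⊆ 𝒞.biUnion (fun C => (C.powersetCard m).biUnion G) := by
    intro A hA
    rw [Finset.mem_filter] at hA
    obtain ⟨hA1, Q, hQm, ⟨C, hC, hQC⟩, hQ⟩ := hA
    rw [Finset.mem_biUnion]
    refine ⟨C, hC, ?_⟩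
    rw [Finset.mem_biUnion]
    refine ⟨Q, Finset.mem_powersetCard.2 ⟨hQC, hQm⟩, ?_⟩
    rw [hG, Finset.mem_filter]
    exact ⟨hA1, hQ⟩
  have h1 : (((Rect n n).filter (fun A => ∃ Q : Finset (Cell3 k n), Q.card = m ∧
      (∃ C ∈ 𝒞, Q ⊆ C) ∧ ∀ p ∈ Q, A (Fin.castLE hk p.1) p.2.1 = p.2.2)).card : ℝ)
      ≤ ∑ C ∈ 𝒞, ∑ Q ∈ C.powersetCard m, ((G Q).card : ℝ) := by
    have h2 : ((Rect n n).filter (fun A => ∃ Q : Finset (Cell3 k n), Q.card = m ∧
      (∃ C ∈ 𝒞, Q ⊆ C) ∧ ∀ p ∈ Q, A (Fin.castLE hk p.1) p.2.1 = p.2.2)).card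
      ≤ ∑ C ∈ 𝒞, ∑ Q ∈ C.powersetCard m, (G Q).card := by
      refine (Finset.card_le_card hsub).trans (Finset.card_biUnion_le.trans ?_)
      exact Finset.sum_le_sum (fun C _ => Finset.card_biUnion_le)
    exact_mod_cast h2
  have h3 : ∀ C ∈ 𝒞, ∑ Q ∈ C.powersetCard m, ((G Q).card : ℝ) ≤ (K.choose m : ℝ) * B := by
    intro C hC
    calc ∑ Q ∈ C.powersetCard m, ((G Q).card : ℝ) ≤ ∑ Q ∈ C.powersetCard m, B := by
          apply Finset.sum_le_sum
          intro Q hQ
          have hQm : Q.card = m := (Finset.mem_powersetCard.1 hQ).2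
          have := card_prescribed_le n k hk Q
          rw [hQm] at this
          exact this
      _ = ((C.powersetCard m).card : ℝ) * B := by rw [Finset.sum_const, nsmul_eq_mul]
      _ ≤ (K.choose m : ℝ) * B := by
          apply mul_le_mul_of_nonneg_right _ hB0
          rw [Finset.card_powersetCard]
          exact_mod_cast Nat.choose_le_choose m (hK C hC)
  calc _ ≤ ∑ C ∈ 𝒞, ∑ Q ∈ C.powersetCard m, ((G Q).card : ℝ) := h1
    _ ≤ ∑ C ∈ 𝒞, (K.choose m : ℝ) * B := Finset.sum_le_sum h3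
    _ = 𝒞.card * ((K.choose m : ℝ) * B) := by rw [Finset.sum_const, nsmul_eq_mul]
    _ = _ := by rw [hB]; ring

end Pool.Agent.TYP
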