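import Mathlib
import Pool.Agent.TYP.Defs
import Pool.Agent.TYP.StripCont
import Pool.Agent.TYP.Reduce
import Pool.Agent.TYP.Union
import Pool.Agent.TYP.NumA
import Pool.Agent.TYP.Params

/-!
TYP module MA (architect): the final assembly.
-/

set_option linter.dupNamespace false
set_option linter.unusedVariables false

namespace Pool.Agent.TYP

open Finset

open Classical in
theorem typical (e : ℕ) (he : 3 ≤ e) (η : ℝ) (hη : 0 < η) : ∃ c : ℝ, 0 < c ∧ ∃ n₀ : ℕ,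
    ∀ n : ℕ, n₀ ≤ n →
      (((univ : Finset (Fin n → Fin n → Fin n)).filter (fun L => IsLatin L ∧
        ∃ I : Finset (Fin n × Fin n), (n : ℝ) ^ (2 - c) ≤ I.card ∧ Sparse e L I)).card : ℝ)
      ≤ Real.exp (-(n : ℝ) ^ (2 - η)) *
        (((univ : Finset (Fin n → Fin n → Fin n)).filter (fun L => IsLatin L)).card : ℝ) := by
  obtain ⟨c, hc, n₀, H⟩ := params e he η hη
  refine ⟨c, hc, n₀, fun n hn => ?_⟩
  obtain ⟨k, m, ε, τ, hn1, hk1, hkn2, hε, hτ, hτn, hτk, hcond, hm, hfin⟩ := H n hn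
  have hkn : k ≤ n := by omega
  have hnR : (0 : ℝ) < n := by exact_mod_cast hn1
  obtain ⟨𝒞, h𝒞card, h𝒞small, h𝒞cov⟩ :=
    strip_containers e k n (by omega) hk1 hkn hε hτ hτn hτk hcond
  set K : ℕ := ⌊ε * (k * (n : ℝ) ^ 2)⌋₊ with hK
  have hCK : ∀ C ∈ 𝒞, C.card ≤ K := fun C hC => Nat.le_floor (h𝒞small C hC).le
  -- step 1: reduce to the first rows
  have h1 := card_bad_latin_le e n k m hn1 hkn
  have h2 := card_bad_le n k m K hkn 𝒞 hCK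
  have hsub1 : ((univ : Finset (Fin n → Fin n → Fin n)).filter (fun L => IsLatin L ∧
        ∃ I : Finset (Fin n × Fin n), (n : ℝ) ^ (2 - c) ≤ I.card ∧ Sparse e L I)).card ≤
      ((univ : Finset (Fin n → Fin n → Fin n)).filter (fun L => IsLatin L ∧
      ∃ I : Finset (Fin n × Fin n), (m : ℝ) - 1 < k * (I.card : ℝ) / n ∧ Sparse e L I)).card := by
    apply Finset.card_le_card
    intro L hL
    rw [Finset.mem_filter] at hL ⊢
    obtain ⟨hL0, hL1, I, hI, hS⟩ := hL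
    refine ⟨hL0, hL1, I, ?_, hS⟩
    refine lt_of_lt_of_le hm ?_
    rw [le_div_iff₀ hnR]
    have h3 : (n : ℝ) ^ (1 - c) * n = (n : ℝ) ^ (2 - c) := by
      have h4 : (n : ℝ) ^ (1 - c) * (n : ℝ) ^ (1 : ℝ) = (n : ℝ) ^ ((1 - c) + 1) :=
        (Real.rpow_add hnR _ _).symm
      rw [Real.rpow_one] at h4
      rw [h4]
      congr 1
      ring
    calc (k : ℝ) * (n : ℝ) ^ (1 - c) * n = k * ((n : ℝ) ^ (1 - c) * n) := by ring
      _ = k * (n : ℝ) ^ (2 - c) := by rw [h3]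
      _ ≤ k * (I.card : ℝ) := by gcongr
  have hsub2 : ((Rect n n).filter (fun A => ∃ Q : Finset (Cell3 k n), Q.card = m ∧
        StripFree e k n Q ∧ ∀ p ∈ Q, A (Fin.castLE hkn p.1) p.2.1 = p.2.2)).card ≤
      ((Rect n n).filter (fun A => ∃ Q : Finset (Cell3 k n), Q.card = m ∧ (∃ C ∈ 𝒞, Q ⊆ C) ∧
        ∀ p ∈ Q, A (Fin.castLE hkn p.1) p.2.1 = p.2.2)).card := by
    apply Finset.card_le_card
    intro A hA
    rw [Finset.mem_filter] at hA ⊢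
    obtain ⟨hA0, Q, hQ1, hQ2, hQ3⟩ := hA
    exact ⟨hA0, Q, hQ1, h𝒞cov Q hQ2, hQ3⟩
  have h5 : (((univ : Finset (Fin n → Fin n → Fin n)).filter (fun L => IsLatin L ∧
        ∃ I : Finset (Fin n × Fin n), (n : ℝ) ^ (2 - c) ≤ I.card ∧ Sparse e L I)).card : ℝ)
      ≤ n * (((Rect n n).filter (fun A => ∃ Q : Finset (Cell3 k n), Q.card = m ∧
        (∃ C ∈ 𝒞, Q ⊆ C) ∧ ∀ p ∈ Q, A (Fin.castLE hkn p.1) p.2.1 = p.2.2)).card : ℝ) := by
    have h6 := hsub1.trans (h1.trans (Nat.mul_le_mul_left n hsub2))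
    exact_mod_cast h6
  -- completions
  have h7 := completions_ratio n k hk1 hkn2
  have h8 : lob n n ≤ ((Rect n n).card : ℝ) := card_Rect_ge n n
  have h9 : (((univ : Finset (Fin n → Fin n → Fin n)).filter (fun L => IsLatin L)).card : ℝ)
      = ((Rect n n).card : ℝ) := by exact_mod_cast card_latin_eq n
  have hE : (0 : ℝ) ≤ (Real.exp 1 / n) ^ m := by positivity
  have h𝒞R : ((𝒞.card : ℕ) : ℝ) ≤ (((k * n ^ 2 + 1) ^ (e * (⌊τ * (k * (n : ℝ) ^ 2)⌋₊ + 1) *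
        ⌈4 * 2 ^ ((e + 3) * e) * (2 / ε ^ qe e)⌉₊) : ℕ) : ℝ) := by exact_mod_cast h𝒞card
  have hexp : (0 : ℝ) ≤ Real.exp (2 * (k : ℝ) ^ 2 + 2 * n * (1 + Real.log n) ^ 2) :=
    (Real.exp_pos _).le
  calc (((univ : Finset (Fin n → Fin n → Fin n)).filter (fun L => IsLatin L ∧
        ∃ I : Finset (Fin n × Fin n), (n : ℝ) ^ (2 - c) ≤ I.card ∧ Sparse e L I)).card : ℝ)
      ≤ n * (((Rect n n).filter (fun A => ∃ Q : Finset (Cell3 k n), Q.card = m ∧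
        (∃ C ∈ 𝒞, Q ⊆ C) ∧ ∀ p ∈ Q, A (Fin.castLE hkn p.1) p.2.1 = p.2.2)).card : ℝ) := h5
    _ ≤ n * (𝒞.card * (K.choose m : ℝ) * (((n.factorial : ℕ) : ℝ) ^ k * (Real.exp 1 / n) ^ m)
        * upb n k (n - k)) := by gcongr
    _ = n * 𝒞.card * (K.choose m : ℝ) * (Real.exp 1 / n) ^ m *
        (upb n k (n - k) * ((n.factorial : ℕ) : ℝ) ^ k) := by ring
    _ ≤ n * 𝒞.card * (K.choose m : ℝ) * (Real.exp 1 / n) ^ m *
        (Real.exp (2 * (k : ℝ) ^ 2 + 2 * n * (1 + Real.log n) ^ 2) * lob n n) := by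
        gcongr
    _ ≤ n * 𝒞.card * (K.choose m : ℝ) * (Real.exp 1 / n) ^ m *
        (Real.exp (2 * (k : ℝ) ^ 2 + 2 * n * (1 + Real.log n) ^ 2) * ((Rect n n).card : ℝ)) := by
        gcongr
    _ = (n * 𝒞.card * (K.choose m : ℝ) * (Real.exp 1 / n) ^ m *
        Real.exp (2 * (k : ℝ) ^ 2 + 2 * n * (1 + Real.log n) ^ 2)) * ((Rect n n).card : ℝ) := by
        ring
    _ ≤ (n * (((k * n ^ 2 + 1) ^ (e * (⌊τ * (k * (n : ℝ) ^ 2)⌋₊ + 1) *
        ⌈4 * 2 ^ ((e + 3) * e) * (2 / ε ^ qe e)⌉₊) : ℕ) : ℝ) * (K.choose m : ℝ) *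
        (Real.exp 1 / n) ^ m *
        Real.exp (2 * (k : ℝ) ^ 2 + 2 * n * (1 + Real.log n) ^ 2)) * ((Rect n n).card : ℝ) := by
        gcongr
    _ ≤ Real.exp (-(n : ℝ) ^ (2 - η)) * ((Rect n n).card : ℝ) := by
        gcongr
    _ = Real.exp (-(n : ℝ) ^ (2 - η)) *
        (((univ : Finset (Fin n → Fin n → Fin n)).filter (fun L => IsLatin L)).card : ℝ) := by
        rw [h9]

end Pool.Agent.TYP
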